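import Pool.Agent.N778.EM.Final
import Pool.Agent.R352.Q.Ind

/-!
# The general theorem for the incomplete zeta values
-/

set_option autoImplicit false

open Set

namespace Pool.Agent.N778.EM

open MvPolynomial Pool.Agent.R352.E Pool.Agent.R352.Q

/-- the general theorem for a subfamily of a generating family -/
theorem joint_sub {n : ℕ} {ι₁ κ : Type} [Fintype ι₁] [Fintype κ] (θ₀ : Fin n → ℝ) (w : ι₁ → ℝ)
    (hθ : MeasF (Sum.elim θ₀ w)) (g : κ → ℝ) (S : Finset κ) (hcard : Fintype.card κ < Fintype.card ι₁ + S.card)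
    (hw : ∀ j, w j ∈ clF (range θ₀ ∪ range g)) : Joint θ₀ fun i : S => g i := by
  classical
  refine joint_of (κ := {k : κ // k ∉ S}) θ₀ w hθ _ (fun k => g k.1) ?_ fun j => ?_
  · rw [Fintype.card_subtype_compl (fun k => k ∈ S), Fintype.card_coe]
    have := Finset.card_le_univ S
    omega
  · refine (clF_mono ?_ : _ ≤ _) (hw j)
    rintro x (hx | ⟨k, rfl⟩)
    · exact Or.inl (Or.inl hx)
    · by_cases hk : k ∈ S
      · exact Or.inl (Or.inr ⟨⟨k, hk⟩, rfl⟩)
      · exact Or.inr ⟨⟨k, hk⟩, rfl⟩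

/-- the measure for `e` and the numbers `E_l(x)`, `x` in a finite set -/
theorem EE_meas_X (J : ℕ) (X : Finset ℚ) (hX : ∀ x ∈ X, 0 < x) :
    MeasF (Sum.elim (fun _ : Fin 1 => Real.exp 1) (fun p : Fin J × X => EE (p.1 + 1) ((p.2 : ℚ) : ℝ))) := by
  let e := X.equivFin
  have hmeas := EE_meas_fin J (fun i => (e.symm i : ℚ)) (fun i j hij => e.symm.injective (Subtype.ext hij))
    (fun i => hX _ (e.symm i).2)
  have h1 := hmeas.comp (Sum.map (fun _ : Fin 1 => ()) (Prod.map id e) : Fin 1 ⊕ (Fin J × X) → _) (by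
    refine Function.Injective.sumMap (fun a b _ => Subsingleton.elim _ _) ?_
    exact Function.Injective.prodMap Function.injective_id e.injective)
  convert h1 using 1
  funext s
  rcases s with s | s
  · rfl
  · simp

/-- the incomplete zeta values -/
theorem jointR {r : ℕ} (y : Fin r → ℝ) (t : Finset (Fin r ⊕ (ℕ × ℚ)))
    (ht : ∀ p : ℕ × ℚ, Sum.inr p ∈ t → 2 ≤ p.1 ∧ 0 < p.2 ∧ zt p.1 ∈ clF ({Real.exp 1} ∪ range y))
    (hcard : r < t.card) :
    Joint (fun _ : Fin 1 => Real.exp 1) fun i : t => Sum.elim y (fun p => Rk p.1 p.2) (i : Fin r ⊕ (ℕ × ℚ)) := by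
  classical
  let P : Finset (ℕ × ℚ) := t.biUnion fun i => Sum.elim (fun _ => ∅) (fun p => {p}) i
  have hPm : ∀ p : ℕ × ℚ, Sum.inr p ∈ t → p ∈ P := fun p hp => Finset.mem_biUnion.2 ⟨_, hp, by simp⟩
  have hPm' : ∀ p ∈ P, Sum.inr p ∈ t := by
    intro p hp
    obtain ⟨i, hi, hxi⟩ := Finset.mem_biUnion.1 hp
    rcases i with i | q
    · simp at hxi
    · simp at hxi
      subst hxi
      exact hi
  let X : Finset ℚ := P.image Prod.snd
  let J : ℕ := 1 + P.sup Prod.fst
  have hX : ∀ x ∈ X, 0 < x := by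
    intro x hx
    obtain ⟨p, hp, rfl⟩ := Finset.mem_image.1 hx
    exact (ht p (hPm' p hp)).2.1
  have hJ : ∀ p ∈ P, p.1 < J := by
    intro p hp
    have h1 : p.1 ≤ P.sup Prod.fst := Finset.le_sup (f := Prod.fst) hp
    have h2 : J = 1 + P.sup Prod.fst := rfl
    omega
  have hmeas := EE_meas_X J X hX
  -- the generating family: `y`, `E_1(x)` for `l = 0` and `R_(l+1)(x)` or `Z_(l+1)(x)` for `l ≥ 1`
  let nm : Fin J × X → ℕ × ℚ := fun q => (q.1 + 1, q.2)
  let g : Fin r ⊕ (Fin J × X) → ℝ := Sum.elim y fun q =>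
    if (q.1 : ℕ) = 0 then EE 1 ((q.2 : ℚ) : ℝ) else if nm q ∈ P then Rk (q.1 + 1) ((q.2 : ℚ) : ℝ) else
      Zk (q.1 + 1) ((q.2 : ℚ) : ℝ)
  -- the subset
  have hlift : ∀ p ∈ P, ∃ q : Fin J × X, nm q = p ∧ (q.1 : ℕ) ≠ 0 := by
    intro p hp
    have h1 := hJ p hp
    have h2 := (ht p (hPm' p hp)).1
    refine ⟨(⟨p.1 - 1, by omega⟩, ⟨p.2, Finset.mem_image_of_mem _ hp⟩), ?_, ?_⟩
    · refine Prod.ext ?_ rfl
      simp only [nm]
      omega
    · simp only
      omega
  choose lf hlf1 hlf2 using hlift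
  let f : t → Fin r ⊕ (Fin J × X) := fun i =>
    match i with
    | ⟨Sum.inl a, _⟩ => Sum.inl a
    | ⟨Sum.inr p, hp⟩ => Sum.inr (lf p (hPm p hp))
  have hf : Function.Injective f := by
    rintro ⟨i, hi⟩ ⟨j, hj⟩ hij
    refine Subtype.ext ?_
    rcases i with i | p <;> rcases j with j | q
    · simpa [f] using hij
    · simp [f] at hij
    · simp [f] at hij
    · simp only [f, Sum.inr.injEq] at hij
      have h1 := hlf1 p (hPm p hi)
      rw [hij, hlf1 q (hPm q hj)] at h1
      show (Sum.inr p : Fin r ⊕ (ℕ × ℚ)) = Sum.inr q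
      rw [h1]
  have hgf : ∀ i : t, g (f i) = Sum.elim y (fun p => Rk p.1 p.2) (i : Fin r ⊕ (ℕ × ℚ)) := by
    rintro ⟨i, hi⟩
    rcases i with i | p
    · rfl
    · have h1 := hlf1 p (hPm p hi)
      have h2 := hlf2 p (hPm p hi)
      simp only [f, g, Sum.elim_inr]
      rw [if_neg h2, h1, if_pos (hPm p hi)]
      have h3 : ((lf p (hPm p hi)).1 : ℕ) + 1 = p.1 := congrArg Prod.fst h1
      have h4 : ((lf p (hPm p hi)).2 : ℚ) = p.2 := congrArg Prod.snd h1
      rw [h3, h4]
  let S : Finset (Fin r ⊕ (Fin J × X)) := Finset.univ.image f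
  have hScard : S.card = t.card := by
    rw [Finset.card_image_of_injective _ hf, Finset.card_univ, Fintype.card_coe]
  have key := joint_sub (fun _ : Fin 1 => Real.exp 1) _ hmeas g S ?_ ?_
  · refine key.mono (fun i => ((Finset.mem_image.1 i.2).choose : t)) fun i => ?_
    have h1 := (Finset.mem_image.1 i.2).choose_spec.2
    rw [← hgf, h1]
  · simp only [Fintype.card_sum, Fintype.card_prod, Fintype.card_fin, Fintype.card_coe, hScard]
    omega
  · set T : Set ℝ := range (fun _ : Fin 1 => Real.exp 1) ∪ range g with hT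
    have he : Real.exp 1 ∈ clF T := subset_clF _ (Or.inl ⟨0, rfl⟩)
    have hy : clF ({Real.exp 1} ∪ range y) ≤ clF T := by
      refine clF_le ?_
      rintro z (hz | ⟨i, rfl⟩)
      · rw [mem_singleton_iff.1 hz]
        exact he
      · exact subset_clF _ (Or.inr ⟨Sum.inl i, rfl⟩)
    rintro ⟨l, x⟩
    have hx := hX x x.2
    have hl := l.2
    refine mem_of_Zk hx he ?_ (J := J) (by omega) (fun k hk hk' => ?_) (l + 1) (by omega)
    · refine subset_clF _ (Or.inr ⟨Sum.inr (⟨0, by omega⟩, x), ?_⟩)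
      simp [g]
    · have h1 : g (Sum.inr (⟨k - 1, by omega⟩, x)) ∈ clF T := subset_clF _ (Or.inr ⟨_, rfl⟩)
      have h2 : k - 1 + 1 = k := by omega
      simp only [g, Sum.elim_inr, nm, h2] at h1
      rw [if_neg (by omega)] at h1
      split_ifs at h1 with h3
      · refine Zk_mem (hy (ht _ (hPm' _ h3)).2.2) h1
      · exact h1

/-- a small generating set -/
theorem exists_y {t : ℕ} {κ : Type} [Finite κ] (g : κ → ℝ)
    (h : Mt.eRk ({Real.exp 1} ∪ range g) ≤ ((t + 1 : ℕ) : ℕ∞)) (he : Transcendental ℚ (Real.exp 1)) :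
    ∃ y : Fin t → ℝ, ∀ i, g i ∈ clF ({Real.exp 1} ∪ range y) := by
  classical
  set A : Set ℝ := {Real.exp 1} ∪ range g with hA
  have he' : Mt.Indep {Real.exp 1} := by
    have h1 : AlgebraicIndependent ℚ (fun _ : ({Real.exp 1} : Set ℝ) => Real.exp 1) := by
      rw [algebraicIndependent_unique_type_iff]
      exact he
    have h2 : (fun i : ({Real.exp 1} : Set ℝ) => (i : ℝ)) = fun _ => Real.exp 1 := by
      funext i
      exact i.2
    show AlgebraicIndependent ℚ (fun i : ({Real.exp 1} : Set ℝ) => (i : ℝ))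
    rw [h2]
    exact h1
  obtain ⟨I, hI, heI⟩ := he'.subset_isBasis_of_subset (X := A) (by
    rintro x hx
    exact Or.inl hx)
  have hAfin : A.Finite := (finite_singleton _).union (finite_range g)
  have hIfin : I.Finite := hAfin.subset hI.subset
  have hcard : hIfin.toFinset.card ≤ t + 1 := by
    have h1 := hI.encard_eq_eRk
    rw [← h1] at h
    rw [hIfin.encard_eq_coe_toFinset_card] at h
    exact_mod_cast h
  let I' : Finset ℝ := hIfin.toFinset.erase (Real.exp 1)
  have hI' : I'.card ≤ t := by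
    have h1 : Real.exp 1 ∈ hIfin.toFinset := by
      rw [Set.Finite.mem_toFinset]
      exact heI rfl
    rw [Finset.card_erase_of_mem h1]
    omega
  let e := I'.equivFin
  let y : Fin t → ℝ := fun j => if hj : (j : ℕ) < I'.card then (e.symm ⟨j, hj⟩ : ℝ) else Real.exp 1
  refine ⟨y, fun i => ?_⟩
  have h1 : g i ∈ Mt.closure I := hI.subset_closure (Or.inr ⟨i, rfl⟩)
  refine (clF_mono ?_ : clF I ≤ _) h1
  intro x hx
  by_cases hxe : x = Real.exp 1
  · exact Or.inl hxe
  · have hxI : x ∈ I' := Finset.mem_erase.2 ⟨hxe, by rw [Set.Finite.mem_toFinset]; exact hx⟩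
    have h2 := (e ⟨x, hxI⟩).2
    refine Or.inr ⟨⟨e ⟨x, hxI⟩, by omega⟩, ?_⟩
    simp only [y]
    rw [dif_pos h2]
    simp

lemma eRk_le_trdeg {A : Set ℝ} {n : ℕ}
    (h : Algebra.trdeg ℚ (IntermediateField.adjoin ℚ A) ≤ (n : Cardinal)) (hAfin : A.Finite) :
    Mt.eRk A ≤ (n : ℕ∞) := by
  classical
  obtain ⟨I, hI⟩ := Mt.exists_isBasis A (subset_univ _)
  have hIfin : I.Finite := hAfin.subset hI.subset
  have hind : AlgebraicIndependent ℚ (fun i : I => (i : ℝ)) := hI.indep
  let f : I → IntermediateField.adjoin ℚ A := fun i => ⟨i, IntermediateField.subset_adjoin ℚ A (hI.subset i.2)⟩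
  have hf : AlgebraicIndependent ℚ f := AlgebraicIndependent.of_aeval_aux (IntermediateField.adjoin ℚ A) f hind
  have h2 := hf.cardinalMk_le_trdeg
  have := hIfin.fintype
  rw [Cardinal.mk_fintype] at h2
  have h3 : ((Fintype.card I : ℕ) : Cardinal) ≤ (n : Cardinal) := h2.trans h
  have h4 : Fintype.card I ≤ n := by exact_mod_cast h3
  rw [← hI.encard_eq_eRk, ← ENat.card_coe_set_eq, ENat.card_eq_coe_fintype_card]
  exact_mod_cast h4

lemma eRk_le_of_dep {c : ℕ} {g : Fin (c + 1) → ℝ} (h : ¬ AlgebraicIndependent ℚ g) : Mt.eRk (range g) ≤ (c : ℕ∞) := by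
  by_contra hcon
  push Not at hcon
  have h1 : ((c + 1 : ℕ) : ℕ∞) ≤ Mt.eRk (range g) := by
    have := Order.add_one_le_of_lt hcon
    exact_mod_cast this
  have h2 : (range g).encard ≤ ((c + 1 : ℕ) : ℕ∞) := by
    have h3 : (range g).encard ≤ Fintype.card (Fin (c + 1)) := by
      rw [← image_univ, ← ENat.card_eq_coe_fintype_card, ← encard_univ]
      exact encard_image_le _ _
    simpa using h3
  apply h
  have hfin : (range g).Finite := finite_range g
  have h4 : Mt.Indep (range g) := (Mt.isRkFinite_of_finite hfin).indep_of_encard_le_eRk (h2.trans h1)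
  have h5 : ((c + 1 : ℕ) : ℕ∞) ≤ (range g).encard := h1.trans (Matroid.eRk_le_encard _ _)
  have hinj : Function.Injective g := by
    rw [← injOn_univ]
    refine Finite.injOn_of_encard_image_eq finite_univ ?_
    rw [image_univ]
    refine le_antisymm (h2.trans ?_) ?_
    · rw [encard_univ, ENat.card_eq_coe_fintype_card, Fintype.card_fin]
    · rw [encard_univ, ENat.card_eq_coe_fintype_card, Fintype.card_fin]; exact h5
  exact (algebraicIndependent_subtype_range hinj).1 h4

lemma eRk_insert_le {A : Set ℝ} {n : ℕ} {x : ℝ} (h : Mt.eRk A ≤ (n : ℕ∞)) : Mt.eRk ({x} ∪ A) ≤ ((n + 1 : ℕ) : ℕ∞) := by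
  refine (Matroid.eRk_union_le_eRk_add_eRk Mt _ _).trans ?_
  have h1 : Mt.eRk {x} ≤ 1 := (Matroid.eRk_le_encard _ _).trans (by rw [encard_singleton])
  calc Mt.eRk {x} + Mt.eRk A ≤ 1 + n := add_le_add h1 h
    _ = _ := by push_cast; ring

/-- `e` is transcendental -/
lemma exp_transc : Transcendental ℚ (Real.exp 1) := by
  have h := EE_alg_Q 0 (ι := Fin 0) (fun _ => 1) (fun a => a.elim0) (fun a => a.elim0)
  exact h.transcendental none

end Pool.Agent.N778.EM
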