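import Pool.Agent.N778.EM.Rel

/-!
# Measures of algebraic independence for algebraic functions of a family with a measure
-/

set_option autoImplicit false

open Finset

namespace Pool.Agent.N778.EM

open MvPolynomial Pool.Agent.R352.E

/-- the main step: numbers which act on a fixed vector by matrices are not too small -/
theorem alg_step {Λ ι K : Type} [Finite ι] [Fintype K] [DecidableEq K] {H : Λ → ℝ} (hH : ∀ l, 1 ≤ H l)
    {θ : ι → ℝ} (hθ : MeasF θ) {v : K → ℝ} {k₀ : K} (hv : v k₀ = 1) (g : Λ → ℝ) (hg0 : ∀ l, g l ≠ 0)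
    (M : Λ → Matrix K K (MvPolynomial ι ℤ)) (hA : Act H θ v (fun _ => 0) g M) :
    ∃ κ : ℕ, ∃ c : ℝ, 0 < c ∧ ∀ l, c ≤ H l ^ κ * |g l| := by
  classical
  set Ψ : Λ → Polynomial (MvPolynomial ι ℤ) := fun l => (M l).charpoly with hΨd
  have hΨ : PT H Ψ := PT.charpoly hH M hA.tM
  set N : ℕ := Fintype.card K with hN
  have hdeg : ∀ l, (Ψ l).natDegree = N := fun l => (M l).charpoly_natDegree_eq_dim
  have hz : ∀ (x : Λ → ℝ), Sm H (fun _ => 0) x → ∀ l, x l = 0 := by
    rintro x ⟨κ, C, hC, h⟩ l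
    have h1 := h l
    rw [mul_zero] at h1
    exact abs_nonpos_iff.1 h1
  -- the value of the characteristic polynomial
  have h3 : ∀ l, (Ψ l).eval₂ ((aeval θ : MvPolynomial ι ℤ →ₐ[ℤ] ℝ) : MvPolynomial ι ℤ →+* ℝ) (g l) = 0 := by
    refine hz _ ?_
    have h1 : Sm H (fun _ => 0) fun l => (Matrix.scalar K (g l) - (M l).map
        ((aeval θ : MvPolynomial ι ℤ →ₐ[ℤ] ℝ) : MvPolynomial ι ℤ →+* ℝ)).det := by
      refine det_small hH (fun _ => le_rfl) hv _ (fun i j => ?_) fun k => ?_
      · simp only [Matrix.sub_apply, Matrix.scalar_apply, Matrix.diagonal_apply, Matrix.map_apply, sub_eq_add_neg]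
        refine TR.add hH ?_ ?_
        · by_cases hij : i = j
          · simp only [if_pos hij]
            exact hA.tg
          · simp only [if_neg hij]
            exact TR.const _
        · refine (TP.eval (hA.tM i j) θ).mono fun l => ?_
          rw [abs_neg]
          rfl
      · refine (hA.err k).congr fun l => ?_
        simp only [Matrix.sub_apply, Matrix.scalar_apply, Matrix.diagonal_apply, Matrix.map_apply, sub_mul,
          Finset.sum_sub_distrib]
        congr 1
        rw [Finset.sum_eq_single k]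
        · rw [if_pos rfl]
        · intro j _ hj
          rw [if_neg (Ne.symm hj), zero_mul]
        · intro h
          exact absurd (Finset.mem_univ _) h
    refine h1.congr fun l => ?_
    rw [← Matrix.eval_charpoly, Matrix.charpoly_map, Polynomial.eval_map]
  -- the orders
  have key : ∃ κ : ℕ, ∃ c : ℝ, 0 < c ∧ ∀ (r : Fin (N + 1)) (l : Λ),
      ((∀ j < (r : ℕ), (Ψ l).coeff j = 0) ∧ (Ψ l).coeff r ≠ 0) → c ≤ H l ^ κ * |g l| := by
    refine unif (A := Fin (N + 1)) (X := Λ) (fun r l => (∀ j < (r : ℕ), (Ψ l).coeff j = 0) ∧ (Ψ l).coeff r ≠ 0)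
      H (fun l => |g l|) (fun _ l _ => hH l) (fun _ => abs_nonneg _) fun r => ?_
    let Λ' : Type := {l : Λ // (∀ j < (r : ℕ), (Ψ l).coeff j = 0) ∧ (Ψ l).coeff r ≠ 0}
    obtain ⟨κ₁, c, hc, h5⟩ := hθ.tame (Λ := Λ') (H := fun l => H l.1) (fun l => hH l.1)
      ((hΨ r).restrict Subtype.val) (fun l => l.2.2)
    -- the tail
    have htail : TR H fun l => ∑ j ∈ range (N + 1), aeval θ ((Ψ l).coeff (r + (j + 1))) * g l ^ j :=
      TR.sum hH _ _ fun j _ => TR.mul (TP.eval (hΨ _) θ) (TR.pow hA.tg j)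
    obtain ⟨κ₂, C, hC, h6⟩ := htail
    refine ⟨κ₁ + κ₂, c / (1 + C), by positivity, fun l hl => ?_⟩
    have h7 := h5 ⟨l, hl⟩
    have h8 := h6 l
    have hfac : aeval θ ((Ψ l).coeff r) = -(g l * ∑ j ∈ range (N + 1), aeval θ ((Ψ l).coeff (r + (j + 1))) * g l ^ j) := by
      have h9 := h3 l
      rw [Polynomial.eval₂_eq_sum_range' (n := r + (N + 1 + 1)) _ (by rw [hdeg]; omega), Finset.sum_range_add,
        Finset.sum_eq_zero, zero_add, Finset.sum_range_succ'] at h9
      · have h10 : (g l) ^ (r : ℕ) * (g l * ∑ j ∈ range (N + 1), aeval θ ((Ψ l).coeff (r + (j + 1))) * g l ^ j +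
            aeval θ ((Ψ l).coeff r)) = 0 := by
          rw [← h9, mul_add, Finset.mul_sum, Finset.mul_sum]
          simp only [RingHom.coe_coe, add_zero]
          congr 1
          · refine Finset.sum_congr rfl fun j _ => ?_
            ring
          · ring
        rcases mul_eq_zero.1 h10 with h11 | h11
        · exact absurd h11 (pow_ne_zero _ (hg0 l))
        · linarith
      · intro j hj
        rw [show (Ψ l).coeff j = 0 from hl.1 j (Finset.mem_range.1 hj), map_zero, zero_mul]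
    have hHl := hH l
    rw [div_le_iff₀ (by positivity)]
    have h9 : |aeval θ ((Ψ l).coeff r)| ≤ |g l| * ((1 + C) * H l ^ κ₂) := by
      rw [hfac, abs_neg, abs_mul]
      refine mul_le_mul_of_nonneg_left (h8.trans ?_) (abs_nonneg _)
      refine mul_le_mul_of_nonneg_right (by linarith) (by positivity)
    calc c ≤ H l ^ κ₁ * |aeval θ ((Ψ l).coeff r)| := h7
      _ ≤ H l ^ κ₁ * (|g l| * ((1 + C) * H l ^ κ₂)) := mul_le_mul_of_nonneg_left h9 (by positivity)
      _ = _ := by rw [pow_add]; ring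
  obtain ⟨κ, c, hc, h⟩ := key
  refine ⟨κ, c, hc, fun l => ?_⟩
  have hex : ∃ r, (Ψ l).coeff r ≠ 0 := by
    refine ⟨N, ?_⟩
    have h1 := (M l).charpoly_monic.coeff_natDegree
    rw [(M l).charpoly_natDegree_eq_dim] at h1
    rw [show (Ψ l).coeff N = 1 from h1]
    exact one_ne_zero
  have hr1 := Nat.find_spec hex
  have hr2 : Nat.find hex < N + 1 := by
    refine Nat.lt_succ_of_le (Nat.find_min' hex ?_)
    have h1 := (M l).charpoly_monic.coeff_natDegree
    rw [(M l).charpoly_natDegree_eq_dim] at h1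
    rw [show (Ψ l).coeff N = 1 from h1]
    exact one_ne_zero
  exact h ⟨Nat.find hex, hr2⟩ l ⟨fun j hj => not_not.1 (Nat.find_min hex hj), hr1⟩

lemma PAct.sum {Λ ι K κ : Type} [Finite ι] [Fintype K] [DecidableEq K] {H ε : Λ → ℝ} {θ : ι → ℝ} {v : K → ℝ}
    (hH : ∀ l, 1 ≤ H l) (hε : ∀ l, 0 ≤ ε l) {p : Λ → MvPolynomial ι ℤ} (hp : TP H p) (t : Finset κ)
    (g : κ → Λ → ℝ) (h : ∀ i ∈ t, PAct (K := K) H θ v ε p (g i)) : PAct (K := K) H θ v ε p fun l => ∑ i ∈ t, g i l := by
  classical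
  induction t using Finset.induction_on with
  | empty =>
    have h1 := PAct.scalar (K := K) (θ := θ) (v := v) (p := p) hH hε (TP.const (H := H) (0 : MvPolynomial ι ℤ))
    simpa using h1
  | insert a t ha ih =>
    simp only [Finset.sum_insert ha]
    exact PAct.add hH hε hp (h a (Finset.mem_insert_self _ _)) (ih fun i hi => h i (Finset.mem_insert_of_mem hi))

lemma PAct.prod {Λ ι K κ : Type} [Finite ι] [Fintype K] [DecidableEq K] {H ε : Λ → ℝ} {θ : ι → ℝ} {v : K → ℝ}
    (hH : ∀ l, 1 ≤ H l) (hε : ∀ l, 0 ≤ ε l) {p : Λ → MvPolynomial ι ℤ} (t : Finset κ)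
    (g : κ → Λ → ℝ) (h : ∀ i ∈ t, PAct (K := K) H θ v ε p (g i)) : PAct (K := K) H θ v ε p fun l => ∏ i ∈ t, g i l := by
  classical
  induction t using Finset.induction_on with
  | empty =>
    have h1 := PAct.scalar (K := K) (θ := θ) (v := v) (p := p) hH hε (TP.const (H := H) (1 : MvPolynomial ι ℤ))
    simpa using h1
  | insert a t ha ih =>
    simp only [Finset.prod_insert ha]
    exact PAct.mul hH hε (h a (Finset.mem_insert_self _ _)) (ih fun i hi => h i (Finset.mem_insert_of_mem hi))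

/-- polynomials annihilating a number algebraic over `ℚ(θ)` -/
lemma exists_poly {ι : Type} (θ : ι → ℝ) {x : ℝ} (hx : x ∈ clF (Set.range θ)) :
    ∃ P : Polynomial (MvPolynomial ι ℤ), ev2 θ x P = 0 ∧ P.map ((aeval θ : MvPolynomial ι ℤ →ₐ[ℤ] ℝ) :
      MvPolynomial ι ℤ →+* ℝ) ≠ 0 := by
  set φ : MvPolynomial ι ℤ →ₐ[ℤ] ℝ := aeval θ with hφ
  set A : Subalgebra ℤ ℝ := φ.range with hA
  have h1 : IsAlgebraic (Algebra.adjoin A (∅ : Set ℝ)) x := by
    refine isAlg_closure A ∅ (Set.range θ) ?_ hx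
    rintro _ ⟨i, rfl⟩
    exact Or.inl ⟨X i, by simp [hφ]⟩
  have h2 : IsAlgebraic A x := by
    rw [Algebra.adjoin_empty] at h1
    have h3 : IsAlgebraic (⊥ : Subalgebra A ℝ) x := h1
    exact Subalgebra.isAlgebraic_of_isAlgebraic_bot h3
  obtain ⟨p, hp, hpx⟩ := h2
  obtain ⟨P, hP⟩ := Polynomial.map_surjective (φ.rangeRestrict : MvPolynomial ι ℤ →+* A)
    φ.rangeRestrict_surjective p
  have hinj : Function.Injective (algebraMap A ℝ) := Subtype.val_injective
  have h4 : P.map (φ : MvPolynomial ι ℤ →+* ℝ) = p.map (algebraMap A ℝ) := by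
    rw [← hP, Polynomial.map_map]
    rfl
  refine ⟨P, ?_, ?_⟩
  · rw [ev2, ← Polynomial.eval_map, h4, Polynomial.eval_map]
    exact hpx
  · rw [h4]
    exact (Polynomial.map_ne_zero_iff hinj).2 hp

/-- **Measures of algebraic independence** for algebraically independent numbers which are algebraic over the field
generated by a family with a measure -/
theorem MeasF.alg {ι κ : Type} [Fintype ι] [Fintype κ] {θ : ι → ℝ} (hθ : MeasF θ) (w : κ → ℝ)
    (hw : AlgebraicIndependent ℤ w) (h : ∀ j, w j ∈ clF (Set.range θ)) : MeasF w := by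
  classical
  intro D
  set S : Finset (κ →₀ ℕ) := (fin_exp κ D).toFinset with hS
  let Λ : Type := {l : MvPolynomial κ ℤ × ℝ // l.1 ≠ 0 ∧ l.1.totalDegree ≤ D ∧ 1 ≤ l.2 ∧
    ∀ s, |((l.1.coeff s : ℤ) : ℝ)| ≤ l.2}
  let H : Λ → ℝ := fun l => l.1.2
  have hH : ∀ l, 1 ≤ H l := fun l => l.2.2.2.1
  choose P hP0 hPne using fun j => exists_poly θ (h j)
  have hd : ∀ j, 1 ≤ (P j).natDegree := by
    intro j
    by_contra hcon
    have h0 : (P j).natDegree = 0 := by omega
    have h1 := Polynomial.eq_C_of_natDegree_eq_zero h0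
    have h2 : aeval θ ((P j).coeff 0) = 0 := by
      have h3 := hP0 j
      rw [h1, ev2, Polynomial.eval₂_C] at h3
      exact h3
    have h3 : (P j).coeff 0 = 0 := by
      by_contra h4
      exact hθ.ne h4 h2
    apply hPne j
    rw [h1, h3, Polynomial.C_0, Polynomial.map_zero]
  set p : MvPolynomial ι ℤ := ∏ i, (P i).leadingCoeff with hp
  have hp0 : p ≠ 0 := by
    refine Finset.prod_ne_zero_iff.2 fun i _ => ?_
    rw [Polynomial.leadingCoeff_ne_zero]
    intro h0
    have h1 := hd i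
    rw [h0, Polynomial.natDegree_zero] at h1
    omega
  have hpT : TP H fun _ : Λ => p := TP.const _
  -- multiplication by the numbers `w`
  have hε : (fun _ : Λ => ∑ i, |ev2 θ (w i) (P i)|) = fun _ => 0 := by
    funext _
    exact Finset.sum_eq_zero fun i _ => by rw [hP0 i, abs_zero]
  have hu : ∀ i, PAct (K := (i : κ) → Fin (P i).natDegree) H θ (vv (fun i => (P i).natDegree) w) (fun _ => 0)
      (fun _ => p) fun _ => w i := by
    intro i
    have h1 := pact_X (Λ := Λ) hH θ w (fun i => (P i).natDegree) (fun _ => P) (fun _ _ => rfl)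
      (fun i j => TP.const _) i
    rw [hε] at h1
    exact h1
  have hval : ∀ l : Λ, aeval w l.1.1 = ∑ s ∈ S, aeval θ (C (l.1.1.coeff s) : MvPolynomial ι ℤ) * ∏ j, w j ^ s j := by
    intro l
    have hsub : l.1.1.support ⊆ S := by
      intro s hs
      rw [hS, Set.Finite.mem_toFinset]
      have h2 := MvPolynomial.le_totalDegree hs
      rw [Finsupp.sum_fintype _ _ (fun _ => rfl)] at h2
      exact h2.trans l.2.2.1
    conv_lhs => rw [MvPolynomial.as_sum l.1.1, map_sum]
    rw [Finset.sum_subset hsub]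
    · refine Finset.sum_congr rfl fun s _ => ?_
      rw [MvPolynomial.aeval_monomial, Finsupp.prod_fintype _ _ (fun i => pow_zero _), MvPolynomial.aeval_C]
    · intro s _ hs
      rw [MvPolynomial.notMem_support_iff.1 hs]
      simp
  have hz : PAct (K := (i : κ) → Fin (P i).natDegree) H θ (vv (fun i => (P i).natDegree) w) (fun _ => 0)
      (fun _ => p) fun l : Λ => aeval w l.1.1 := by
    have h1 : (fun l : Λ => aeval w l.1.1) =
        fun l : Λ => ∑ s ∈ S, aeval θ (C (l.1.1.coeff s) : MvPolynomial ι ℤ) * ∏ j, w j ^ s j := by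
      funext l
      exact hval l
    rw [h1]
    refine PAct.sum hH (fun _ => le_rfl) hpT S _ fun s _ => PAct.mul hH (fun _ => le_rfl) ?_ ?_
    · exact PAct.scalar hH (fun _ => le_rfl) (tp_coeff _ fun l => l.2.2.2.2 s)
    · refine PAct.prod hH (fun _ => le_rfl) _ _ fun j _ => ?_
      have h2 := PAct.prod (K := (i : κ) → Fin (P i).natDegree) (θ := θ) (v := vv (fun i => (P i).natDegree) w)
        (p := fun _ : Λ => p) hH (fun _ => le_rfl) (Finset.range (s j)) (fun _ _ => w j) fun _ _ => hu j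
      simpa only [Finset.prod_const, Finset.card_range] using h2
  obtain ⟨E, M, hM⟩ := hz
  have hpθ : aeval θ p ≠ 0 := hθ.ne hp0
  obtain ⟨k, c, hc, h5⟩ := alg_step hH hθ (v := vv (fun i => (P i).natDegree) w)
    (k₀ := fun i => ⟨0, hd i⟩) (by rw [vv]; exact Finset.prod_eq_one fun i _ => by simp)
    (fun l : Λ => aeval θ p ^ E * aeval w l.1.1) (fun l => mul_ne_zero (pow_ne_zero _ hpθ) (fun h0 =>
      l.2.1 ((algebraicIndependent_iff.1 hw) _ h0))) M hM
  refine ⟨k, c / (1 + |aeval θ p ^ E|), by positivity, fun Q hQ hQD A hA hQA => ?_⟩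
  have h1 := h5 ⟨(Q, A), hQ, hQD, hA, hQA⟩
  rw [abs_mul] at h1
  rw [div_le_iff₀ (by positivity)]
  change c ≤ A ^ k * (|aeval θ p ^ E| * |aeval w Q|) at h1
  have h2 : 0 ≤ A ^ k * |aeval w Q| := by positivity
  nlinarith

end Pool.Agent.N778.EM
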