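import Pool.Agent.N778.EM.FinalQ
import Pool.Agent.N778.EM.FamT
import Pool.Agent.N778.EM.Alg
import Pool.Agent.N13.PE.Gam

/-!
# The general theorem for the twisted exponential integrals and the numbers `J_a(x)`
-/

set_option autoImplicit false

open Set MeasureTheory

namespace Pool.Agent.N778.EM

open MvPolynomial
open Pool.Agent.R352.E (clF mem_clF subset_clF clF_mono clF_le of_pow indep_of_span exp_rat_mem rat_mem Mt)
open Pool.Agent.R352.T (EA EA_alg_fin common_den rpow_mem gu gu_eq EA_rel NA_zero)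

lemma algInd_Z {ι : Type} {x : ι → ℝ} (h : AlgebraicIndependent ℚ x) : AlgebraicIndependent ℤ x :=
  h.restrictScalars (R := ℤ) (by
    intro a b hab
    simpa using hab)

/-- the measure for `e` and the numbers `E_{a,l}(x)` -/
theorem EA_meas_fin (J : ℕ) {k : ℕ} (a x : Fin k → ℚ) (hinj : ∀ i i', a i = a i' → x i = x i' → i = i')
    (ha0 : ∀ i, 0 ≤ a i) (ha1 : ∀ i, a i < 1) (hpos : ∀ i, 0 < x i) :
    MeasF (Sum.elim (fun _ : Fin 1 => Real.exp 1) (fun p : Fin J × Fin k => EA (a p.2) (p.1 + 1) (x p.2))) := by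
  set q : ℕ := (∏ i, (x i).den) * ∏ i, (a i).den with hqd
  have hq : 1 ≤ q := Nat.one_le_iff_ne_zero.2 (Nat.mul_ne_zero
    (Finset.prod_ne_zero_iff.2 fun i _ => (x i).den_ne_zero) (Finset.prod_ne_zero_iff.2 fun i _ => (a i).den_ne_zero))
  have hq' : (q : ℝ) ≠ 0 := by positivity
  have hqp : (0 : ℝ) < q := by positivity
  have h1 := common_den x (fun i => (hpos i).le) q
    (fun i => (Finset.dvd_prod_of_mem (fun i => (x i).den) (Finset.mem_univ i)).trans (dvd_mul_right _ _)) hq
  have h2 := common_den a ha0 q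
    (fun i => (Finset.dvd_prod_of_mem (fun i => (a i).den) (Finset.mem_univ i)).trans (dvd_mul_left _ _)) hq
  choose mm hmm using h1
  choose cc hcc using h2
  have hinj' : ∀ i i', mm i = mm i' → cc i = cc i' → i = i' := by
    intro i j hij hij'
    apply hinj
    · have h1 := hcc i
      rw [hij', hcc j] at h1
      exact_mod_cast h1.symm
    · have h1 := hmm i
      rw [hij, hmm j] at h1
      exact_mod_cast h1.symm
  have hpos' : ∀ i, 1 ≤ mm i := by
    intro i
    by_contra h
    have h0 : mm i = 0 := by omega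
    have h1 := hmm i
    rw [h0, Nat.cast_zero, zero_div] at h1
    have : (0 : ℝ) < x i := by exact_mod_cast hpos i
    linarith
  have hcq : ∀ i, cc i < q := by
    intro i
    have h1 := hcc i
    have h3 : ((a i : ℚ) : ℝ) < 1 := by exact_mod_cast ha1 i
    rw [← h1, div_lt_one hqp] at h3
    exact_mod_cast h3
  have hmeas := EA_meas J k mm cc hinj' hpos' hq hcq
  have halg : AlgebraicIndependent ℚ
      (Sum.elim (fun _ : Fin 1 => Real.exp 1) (fun p : Fin J × Fin k => EA (a p.2) (p.1 + 1) (x p.2))) := by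
    have h1 := EA_alg_fin J a x hinj ha0 ha1 hpos
    have h2 := (h1.comp (fun s : Fin 1 ⊕ (Fin J × Fin k) => Sum.elim (fun _ => none) (fun p => some p) s) (by
      rintro (a | a) (b | b) h
      · exact congrArg _ (Subsingleton.elim _ _)
      · exact absurd h (by simp)
      · exact absurd h (by simp)
      · simp only [Sum.elim_inr, Option.some.injEq] at h
        rw [h]))
    convert h2 using 1
    funext s
    rcases s with s | s <;> rfl
  refine hmeas.alg _ (algInd_Z halg) ?_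
  rintro (s | p)
  · simp only [Sum.elim_inl]
    set S : Set ℝ := range fun o : Option (Fin J × Fin k) =>
      o.elim (Real.exp (-1 / q)) (fun p => EA ((cc p.2 : ℝ) / q) (p.1 + 1) ((mm p.2 : ℝ) / q)) with hS
    have h1 : Real.exp (-1 / q) ∈ clF S := subset_clF _ ⟨none, rfl⟩
    have h2 : Real.exp 1 = (Real.exp (-1 / q) ^ q)⁻¹ := by
      rw [← Real.exp_nat_mul, ← Real.exp_neg]
      congr 1
      field_simp
    rw [h2]
    exact (clF S).inv_mem ((clF S).pow_mem h1 q)
  · simp only [Sum.elim_inr]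
    refine subset_clF _ ⟨some p, ?_⟩
    simp only [Option.elim]
    rw [hmm p.2, hcc p.2]

/-- the measure for `e` and the numbers `E_{a,1}(x)`, `(a, x)` in a finite set -/
theorem EA_meas_S (S : Finset (ℚ × ℚ)) (hS : ∀ p ∈ S, 0 ≤ p.1 ∧ p.1 < 1 ∧ 0 < p.2) :
    MeasF (Sum.elim (fun _ : Fin 1 => Real.exp 1) (fun p : S => EA ((p : ℚ × ℚ).1 : ℝ) 1 ((p : ℚ × ℚ).2 : ℝ))) := by
  let e := S.equivFin
  have hm := EA_meas_fin 1 (fun i => (e.symm i : ℚ × ℚ).1) (fun i => (e.symm i : ℚ × ℚ).2)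
    (fun i j h1 h2 => e.symm.injective (Subtype.ext (Prod.ext h1 h2)))
    (fun i => (hS _ (e.symm i).2).1) (fun i => (hS _ (e.symm i).2).2.1) (fun i => (hS _ (e.symm i).2).2.2)
  have h1 := hm.comp (Sum.map id (fun p : S => ((0 : Fin 1), e p)) : Fin 1 ⊕ S → _) (by
    refine Function.Injective.sumMap Function.injective_id ?_
    intro p q hpq
    exact e.injective (congrArg Prod.snd hpq))
  convert h1 using 1
  funext s
  rcases s with s | s
  · rfl
  · simp

/-- the generic joint measure -/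
theorem joint_generic {PA : Type} {r : ℕ} (Z R : PA → ℝ) (y : Fin r → ℝ)
    (hm : ∀ S : Finset PA, MeasF (Sum.elim (fun _ : Fin 1 => Real.exp 1) (fun p : S => Z p)))
    (hZ : ∀ p : PA, ∀ T : Set ℝ, {Real.exp 1} ∪ range y ⊆ clF T → R p ∈ clF T → Z p ∈ clF T)
    (t : Finset (Fin r ⊕ PA)) (hcard : r < t.card) :
    Joint (fun _ : Fin 1 => Real.exp 1) fun i : t => Sum.elim y R (i : Fin r ⊕ PA) := by
  classical
  let P : Finset PA := t.biUnion fun i => Sum.elim (fun _ => ∅) (fun p => {p}) i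
  have hPm : ∀ p : PA, Sum.inr p ∈ t → p ∈ P := fun p hp => Finset.mem_biUnion.2 ⟨_, hp, by simp⟩
  let emb : Fin r ⊕ P → Fin r ⊕ PA := Sum.map id Subtype.val
  have hemb : Function.Injective emb := Function.Injective.sumMap Function.injective_id Subtype.val_injective
  let S' : Finset (Fin r ⊕ P) := t.preimage emb hemb.injOn
  have hS'card : S'.card = t.card := by
    rw [Finset.card_preimage, Finset.filter_true_of_mem]
    intro i hi
    rcases i with i | p
    · exact ⟨Sum.inl i, rfl⟩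
    · exact ⟨Sum.inr ⟨p, hPm p hi⟩, rfl⟩
  have key := joint_sub (fun _ : Fin 1 => Real.exp 1) _ (hm P) (fun k => Sum.elim y R (emb k)) S' ?_ ?_
  · exact key.mono (fun i => (⟨emb i.1, Finset.mem_preimage.1 i.2⟩ : t)) fun i => rfl
  · simp only [Fintype.card_sum, Fintype.card_fin, Fintype.card_coe, hS'card]
    omega
  · intro p
    refine hZ p _ ?_ (subset_clF _ (Or.inr ⟨Sum.inr p, rfl⟩))
    rintro z (hz | ⟨i, rfl⟩)
    · rw [mem_singleton_iff.1 hz]
      exact subset_clF _ (Or.inl ⟨0, rfl⟩)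
    · exact subset_clF _ (Or.inr ⟨Sum.inl i, rfl⟩)

open Pool.Agent.N13.PE

/-- the numbers `J_a(x)` -/
theorem jointJ {r : ℕ} (y : Fin r → ℝ) (A : Set ℚ) (h : GH y A) (t : Finset (Fin r ⊕ PA A)) (hcard : r < t.card) :
    Joint (fun _ : Fin 1 => Real.exp 1) fun i : t =>
      Sum.elim y (fun p : PA A => J p.1.1 p.1.2) (i : Fin r ⊕ PA A) := by
  classical
  refine joint_generic (fun p : PA A => EA p.1.1 1 p.1.2) _ y (fun S => ?_) (fun p T hT hR => hZ h p T hT hR) t hcard
  let S' : Finset (ℚ × ℚ) := S.image Subtype.val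
  have hm := EA_meas_S S' (fun p hp => by
    obtain ⟨q, hq, rfl⟩ := Finset.mem_image.1 hp
    have h1 := (h _ q.2.1).1
    exact ⟨h1.1.le, h1.2, q.2.2⟩)
  have h1 := hm.comp (Sum.map id (fun p : S => (⟨p.1.1, Finset.mem_image_of_mem _ p.2⟩ : S')) : Fin 1 ⊕ S → _) (by
    refine Function.Injective.sumMap Function.injective_id ?_
    intro p q hpq
    exact Subtype.ext (Subtype.ext (congrArg (fun z : S' => (z : ℚ × ℚ)) hpq)))
  convert h1 using 1
  funext s
  rcases s with s | s <;> rfl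

/-- the converse relation -/
lemma J_mem {a x : ℚ} (ha : 0 < a) (ha1 : a < 1) (hx : 0 < x) {T : Set ℝ} (he : Real.exp 1 ∈ clF T)
    (hG : Real.Gamma a ∈ clF T) (hG' : Real.Gamma (1 - a) ∈ clF T) (h : EA a 1 x ∈ clF T) : J a x ∈ clF T := by
  have ha' : (0 : ℝ) < a := by exact_mod_cast ha
  have ha1' : (a : ℝ) < 1 := by exact_mod_cast ha1
  have hx' : (0 : ℝ) < x := by exact_mod_cast hx
  rw [J_gu ha' ha1' hx'.le]
  have hxa : (0 : ℝ) < (x : ℝ) ^ (a : ℝ) := Real.rpow_pos_of_pos hx' _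
  have h1 : gu a x = Real.Gamma a - (x : ℝ) ^ (a : ℝ) * (1 / a - EA a 1 x) := by
    have h2 := EA_rel ha' 0 hx'
    rw [NA_zero ha'] at h2
    have h3 := gu_eq a hx'
    simp only [zero_add, pow_one, Nat.factorial_zero, Nat.cast_one, one_mul, pow_zero] at h2
    rw [h3]
    linarith
  refine (clF T).mul_mem (exp_rat_mem he x) ((clF T).mul_mem hG' ?_)
  rw [h1]
  refine (clF T).sub_mem hG ((clF T).mul_mem (rpow_mem hx a) ((clF T).sub_mem ?_ h))
  exact (clF T).div_mem (clF T).one_mem (rat_mem T a)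

end Pool.Agent.N778.EM
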