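import Pool.Agent.N778.EM.FinalT

/-!
# Pencils of numbers: at most one of them is algebraic over `ℚ(e)`, with measures
-/

set_option autoImplicit false

open Set

namespace Pool.Agent.N778.EM

open MvPolynomial
open Pool.Agent.R352.E (clF mem_clF subset_clF clF_mono clF_le of_pow indep_of_span exp_rat_mem rat_mem Mt)

lemma ratAlg : Algebra.IsAlgebraic ℤ ℚ :=
  ⟨fun x => (IsFractionRing.isAlgebraic_iff ℤ ℚ ℚ).2 (isAlgebraic_algebraMap x)⟩

lemma algInd_Q {ι : Type} {x : ι → ℝ} (h : AlgebraicIndependent ℤ x) : AlgebraicIndependent ℚ x := by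
  have := ratAlg
  exact h.extendScalars ℚ

/-- a maximal independent family with a measure in a field transfers its measure to all the independent families -/
theorem meas_of_rank {ι κ : Type} [Fintype ι] [Fintype κ] {θ : ι → ℝ} (hθ : MeasF θ) {T : Set ℝ}
    (hθT : ∀ i, θ i ∈ clF T) (hT : Mt.eRk T ≤ (Fintype.card ι : ℕ∞)) (w : κ → ℝ) (hw : AlgebraicIndependent ℚ w)
    (hwT : ∀ j, w j ∈ clF T) : MeasF w := by
  have halg : AlgebraicIndependent ℚ θ := algInd_Q hθ.algInd
  have hI : Mt.Indep (range θ) := halg.to_subtype_range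
  have hfin : (range θ).Finite := finite_range θ
  have hcard : (Fintype.card ι : ℕ∞) ≤ (range θ).encard := by
    rw [← image_univ, halg.injective.injOn.encard_image, encard_univ, ENat.card_eq_coe_fintype_card]
  have hbasis : Mt.IsBasis (range θ) (Mt.closure T) := by
    refine hI.isBasis_of_eRk_ge hfin ?_ ?_
    · rintro _ ⟨i, rfl⟩
      exact hθT i
    · rw [Matroid.eRk_closure_eq, hI.eRk_eq_encard]
      exact hT.trans hcard
  refine hθ.alg w (algInd_Z hw) fun j => ?_
  have h1 : w j ∈ Mt.closure T := hwT j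
  have h2 : Mt.closure T ⊆ Mt.closure (range θ) := hbasis.subset_closure
  exact h2 h1

/-- a spanning family with as many members as an independent family with a measure has a measure -/
theorem meas_of_span {ι κ : Type} [Fintype ι] [Fintype κ] {θ : ι → ℝ} (hθ : MeasF θ) (w : κ → ℝ)
    (h : ∀ i, θ i ∈ clF (range w)) (hc : Fintype.card κ ≤ Fintype.card ι) : MeasF w := by
  have halg : AlgebraicIndependent ℚ θ := algInd_Q hθ.algInd
  have hw := indep_of_span halg h hc
  refine meas_of_rank hθ h ?_ w hw fun j => subset_clF _ ⟨j, rfl⟩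
  have h2 : (range w).encard ≤ Fintype.card κ := by
    rw [← image_univ, ← ENat.card_eq_coe_fintype_card, ← encard_univ]
    exact encard_image_le _ _
  exact (Matroid.eRk_le_encard _ _).trans (h2.trans (by exact_mod_cast hc))

section pencil

variable (F Z : ℚ → ℝ)
  (hm : ∀ S : Finset ℚ, (∀ x ∈ S, 0 < x) →
    MeasF (Sum.elim (fun _ : Fin 1 => Real.exp 1) (fun x : S => Z (x : ℚ))))
  (hZ : ∀ x : ℚ, 0 < x → ∀ T : Set ℝ, Real.exp 1 ∈ clF T → F 0 ∈ clF T → F x ∈ clF T → Z x ∈ clF T)

include hm hZ

/-- two numbers of a pencil are not simultaneously near numbers algebraic over `ℚ(e)` -/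
theorem pencil_joint (t : Finset ℚ) (ht : ∀ x ∈ t, 0 ≤ x) (hcard : 2 ≤ t.card) :
    Joint (fun _ : Fin 1 => Real.exp 1) fun x : t => F (x : ℚ) := by
  classical
  let f : t → Fin 1 ⊕ {x : ℚ // 0 < x} := fun x =>
    if h : (x : ℚ) = 0 then Sum.inl 0 else Sum.inr ⟨x, lt_of_le_of_ne (ht _ x.2) (Ne.symm h)⟩
  have hf : Function.Injective f := by
    rintro ⟨a, ha⟩ ⟨b, hb⟩ hab
    simp only [f] at hab
    refine Subtype.ext ?_
    split_ifs at hab with h1 h2 h2
    · show a = b
      rw [h1, h2]
    · simpa using hab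
  have hval : ∀ x : t, Sum.elim (fun _ : Fin 1 => F 0) (fun x : {x : ℚ // 0 < x} => F (x : ℚ)) (f x) = F (x : ℚ) := by
    rintro ⟨a, ha⟩
    simp only [f]
    split_ifs with h
    · rw [Sum.elim_inl, h]
    · rw [Sum.elim_inr]
  have key := joint_generic (PA := {x : ℚ // 0 < x}) (fun x => Z (x : ℚ)) (fun x => F (x : ℚ)) (fun _ : Fin 1 => F 0)
    (fun S => ?_) (fun x T hT hR => hZ x x.2 T (hT (Or.inl rfl)) (hT (Or.inr ⟨0, rfl⟩)) hR) (Finset.univ.image f) ?_
  · refine key.mono (fun i => (Finset.mem_image.1 i.2).choose) fun i => ?_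
    have h1 := (Finset.mem_image.1 i.2).choose_spec.2
    rw [← hval, h1]
  · let S' : Finset ℚ := S.image Subtype.val
    have h1 := (hm S' (fun x hx => by
      obtain ⟨q, -, rfl⟩ := Finset.mem_image.1 hx
      exact q.2)).comp (Sum.map id (fun p : S => (⟨p.1.1, Finset.mem_image_of_mem _ p.2⟩ : S')) : Fin 1 ⊕ S → _) (by
        refine Function.Injective.sumMap Function.injective_id ?_
        intro p q hpq
        exact Subtype.ext (Subtype.ext (congrArg (fun z : S' => (z : ℚ)) hpq)))
    convert h1 using 1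
    funext s
    rcases s with s | s <;> rfl
  · rw [Finset.card_image_of_injective _ hf, Finset.card_univ, Fintype.card_coe]
    omega

/-- if one number of a pencil is algebraic over `ℚ(e)` then `e` and the other ones have measures of algebraic
independence -/
theorem pencil_meas (x₀ : ℚ) (hx₀ : 0 ≤ x₀) (h0 : F x₀ ∈ clF {Real.exp 1}) (S : Finset ℚ)
    (hS : ∀ x ∈ S, 0 ≤ x ∧ x ≠ x₀) :
    MeasF (Sum.elim (fun _ : Fin 1 => Real.exp 1) (fun x : S => F (x : ℚ))) := by
  classical
  have key : ∀ S : Finset ℚ, (∀ x ∈ S, 0 ≤ x ∧ x ≠ x₀) → (0 ∈ S ∨ x₀ = 0) →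
      MeasF (Sum.elim (fun _ : Fin 1 => Real.exp 1) (fun x : S => F (x : ℚ))) := by
    intro S hS h00
    let S₁ : Finset ℚ := (insert x₀ S).erase 0
    have hnot : x₀ ∉ S := fun h => (hS x₀ h).2 rfl
    have hcard : S₁.card = S.card := by
      have h1 : (0 : ℚ) ∈ insert x₀ S := by
        rcases h00 with h | h
        · exact Finset.mem_insert_of_mem h
        · rw [h]; exact Finset.mem_insert_self _ _
      rw [Finset.card_erase_of_mem h1, Finset.card_insert_of_notMem hnot]
      omega
    have hpos : ∀ x ∈ S₁, 0 < x := by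
      intro x hx
      obtain ⟨h1, h2⟩ := Finset.mem_erase.1 hx
      refine lt_of_le_of_ne ?_ (Ne.symm h1)
      rcases Finset.mem_insert.1 h2 with rfl | h3
      · exact hx₀
      · exact (hS x h3).1
    refine meas_of_span (hm S₁ hpos) _ ?_ ?_
    · set T : Set ℝ := range (Sum.elim (fun _ : Fin 1 => Real.exp 1) (fun x : S => F (x : ℚ))) with hT
      have he : Real.exp 1 ∈ clF T := subset_clF _ ⟨Sum.inl 0, rfl⟩
      have hFS : ∀ x ∈ S, F x ∈ clF T := fun x hx => subset_clF _ ⟨Sum.inr ⟨x, hx⟩, rfl⟩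
      have hF0 : F x₀ ∈ clF T := clF_le (singleton_subset_iff.2 he) h0
      have hF00 : F 0 ∈ clF T := by
        rcases h00 with h | h
        · exact hFS 0 h
        · rw [← h]; exact hF0
      rintro (s | ⟨x, hx⟩)
      · exact he
      · refine hZ x (hpos x hx) T he hF00 ?_
        rcases Finset.mem_insert.1 (Finset.mem_erase.1 hx).2 with rfl | h3
        · exact hF0
        · exact hFS x h3
    · simp only [Fintype.card_sum, Fintype.card_fin, Fintype.card_coe, hcard, le_refl]
  by_cases h : 0 ∈ S ∨ x₀ = 0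
  · exact key S hS h
  · push Not at h
    have h1 := key (insert 0 S) (by
      intro x hx
      rcases Finset.mem_insert.1 hx with rfl | hx
      · exact ⟨le_rfl, fun h0 => h.2 h0.symm⟩
      · exact hS x hx) (Or.inl (Finset.mem_insert_self _ _))
    have h2 := h1.comp (Sum.map id (fun p : S => (⟨p, Finset.mem_insert_of_mem p.2⟩ : (insert 0 S : Finset ℚ))) :
        Fin 1 ⊕ S → _) (by
      refine Function.Injective.sumMap Function.injective_id ?_
      intro p q hpq
      exact Subtype.ext (congrArg (fun z : (insert 0 S : Finset ℚ) => (z : ℚ)) hpq))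
    convert h2 using 1
    funext s
    rcases s with s | s <;> rfl

end pencil

end Pool.Agent.N778.EM
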