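import Pool.Agent.N778.EM.Meas
import Pool.Agent.R352.E.Val

/-!
# Measures of algebraic independence for families of real numbers; the values of a tower of E-functions
-/

set_option autoImplicit false

open PowerSeries Finset.HasAntidiagonal

namespace Pool.Agent.N778.EM

open Pool.Agent.Y113 Pool.Agent.R352.E

/-- the family has a measure of algebraic independence which is, for polynomials of bounded degree, polynomial in the
height -/
def MeasF {ι : Type} (θ : ι → ℝ) : Prop :=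
  ∀ D : ℕ, ∃ κ : ℕ, ∃ c : ℝ, 0 < c ∧ ∀ P : MvPolynomial ι ℤ, P ≠ 0 → P.totalDegree ≤ D → ∀ H : ℝ, 1 ≤ H →
    (∀ s, |((P.coeff s : ℤ) : ℝ)| ≤ H) → c ≤ H ^ κ * |MvPolynomial.aeval θ P|

/-- the measure for the monomials of a tower -/
theorem mon_meas {σ : Type} [Fintype σ] [LinearOrder σ] {t : Tw σ} {q : ℕ} {f : σ → ℚ⟦X⟧}
    (R : Real' t q f) {M J₀ : ℕ} (hM : ∀ v, v < t.w → t.m v ≤ M) (hM1 : 1 ≤ M) [Fintype (Idx t M J₀)] :
    ∃ κ : ℕ, ∃ c : ℝ, 0 < c ∧ ∀ a : Idx t M J₀ → ℤ, a ≠ 0 → ∀ A : ℝ, 1 ≤ A → (∀ i, |(a i : ℝ)| ≤ A) →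
      c ≤ A ^ κ * |∑ s, (a s : ℝ) * ev 1 (mon f s.1)| := by
  classical
  set N := Fintype.card (Idx t M J₀) with hN
  let e : Fin N ≃ Idx t M J₀ := (Fintype.equivFin _).symm
  set y : Fin N → ℚ⟦X⟧ := fun i => mon f (e i).1 with hy
  obtain ⟨C, hC, h1, h2⟩ := EF.common (y := y) (fun i => EF_mon R (e i).2.1)
  have hSys : ESys q C y :=
    { one_le := hC
      hq := R.hq
      size := h1
      den := h2
      der := by
        have h3 := fun i => deriv_Sp R hM hM1 (e i)
        choose B hB using h3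
        refine ⟨fun i j => B i (e j), fun i => ?_⟩
        rw [hy, hB i, ← Equiv.sum_comp e] }
  have h0 : e (e.symm ⟨0, by simp⟩) = (⟨0, by simp⟩ : Idx t M J₀) := e.apply_symm_apply _
  obtain ⟨κ, c, hc, h⟩ := E_meas hSys (e.symm ⟨0, by simp⟩) (by
    rw [hy]
    simp only [h0]
    rw [mon_eq]; simp) ((mon_LI R).comp e e.injective)
  refine ⟨κ, c, hc, fun a ha A hA hAi => ?_⟩
  have h3 := h (fun i => a (e i)) (by
    intro h4
    apply ha
    funext s
    have := congrFun h4 (e.symm s)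
    simp only [Equiv.apply_symm_apply, Pi.zero_apply] at this
    rw [this]; rfl) A hA (fun i => hAi _)
  have h4 : ∑ i, ((a (e i) : ℤ) : ℝ) * ev 1 (y i) = ∑ s, (a s : ℝ) * ev 1 (mon f s.1) := by
    rw [← Equiv.sum_comp e]
  rw [← h4]
  exact h3

/-- the measure for the values of a tower -/
theorem val_meas {σ : Type} [Fintype σ] [LinearOrder σ] {t : Tw σ} {q : ℕ} {f : σ → ℚ⟦X⟧} (R : Real' t q f) :
    MeasF (fun i : {i : σ // i ≠ t.z} => ev 1 (f i.1)) := by
  classical
  obtain ⟨M, hM1, hM⟩ : ∃ M : ℕ, 1 ≤ M ∧ ∀ v, v < t.w → t.m v ≤ M := by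
    refine ⟨1 + ∑ v, t.m v, by omega, fun v _ => ?_⟩
    have := Finset.single_le_sum (f := fun v => t.m v) (fun _ _ => Nat.zero_le _) (Finset.mem_univ v)
    omega
  intro D
  set J₀ : ℕ := D + M * D with hJ₀
  haveI : Finite (Idx t M J₀) := Idx_finite t hM1
  letI : Fintype (Idx t M J₀) := Fintype.ofFinite _
  obtain ⟨κ, c, hc, h⟩ := mon_meas R hM hM1 (J₀ := J₀)
  refine ⟨κ, c, hc, fun p hp hpD H hH hpH => ?_⟩
  set p' : MvPolynomial σ ℤ := MvPolynomial.rename Subtype.val p with hp'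
  have hinj : Function.Injective (MvPolynomial.rename (R := ℤ) (Subtype.val : {i : σ // i ≠ t.z} → σ)) :=
    MvPolynomial.rename_injective _ Subtype.val_injective
  have hp'0 : p' ≠ 0 := by
    intro h0
    apply hp
    apply hinj
    rw [← hp', h0, map_zero]
  have hval : MvPolynomial.aeval (fun i : σ => ev 1 (f i)) p' =
      MvPolynomial.aeval (fun i : {i : σ // i ≠ t.z} => ev 1 (f i.1)) p := by
    rw [hp', MvPolynomial.aeval_rename]
    rfl
  have hz : ∀ s ∈ p'.support, s t.z = 0 := by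
    intro s hs
    have h1 := MvPolynomial.coeff_rename_ne_zero _ _ _ (MvPolynomial.mem_support_iff.1 hs)
    obtain ⟨u, hu, _⟩ := h1
    rw [← hu]
    apply Finsupp.mapDomain_of_notMem_range
    rintro ⟨i, hi⟩
    exact i.2 hi
  have hp'D : p'.totalDegree ≤ D := (MvPolynomial.totalDegree_rename_le _ _).trans hpD
  have hmem : ∀ s ∈ p'.support, s t.z = 0 ∧ s t.w + M * ∑ v ∈ t.V, s v ≤ J₀ := by
    intro s hs
    refine ⟨hz s hs, ?_⟩
    have h1 : ∑ i, s i ≤ D := by
      have h2 := MvPolynomial.le_totalDegree hs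
      rw [Finsupp.sum_fintype _ _ (fun _ => rfl)] at h2
      exact h2.trans hp'D
    have h2 : s t.w ≤ D := (Finset.single_le_sum (f := fun v => s v) (fun _ _ => Nat.zero_le _)
      (Finset.mem_univ t.w)).trans h1
    have h3 : ∑ v ∈ t.V, s v ≤ D := (Finset.sum_le_sum_of_subset (Finset.subset_univ _)).trans h1
    rw [hJ₀]
    exact Nat.add_le_add h2 (Nat.mul_le_mul_left _ h3)
  have hcoeff : ∀ s, |((MvPolynomial.coeff s p' : ℤ) : ℝ)| ≤ H := by
    intro s
    by_cases hs : s ∈ p'.support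
    · obtain ⟨u, hu, _⟩ := MvPolynomial.coeff_rename_ne_zero _ _ _ (MvPolynomial.mem_support_iff.1 hs)
      rw [← hu, hp', MvPolynomial.coeff_rename_mapDomain _ Subtype.val_injective]
      exact hpH u
    · rw [MvPolynomial.notMem_support_iff.1 hs]
      simp
      linarith
  have hne : (fun s : Idx t M J₀ => MvPolynomial.coeff s.1 p') ≠ 0 := by
    intro h0
    obtain ⟨s, hs⟩ := MvPolynomial.support_nonempty.2 hp'0
    have := congrFun h0 ⟨s, hmem s hs⟩
    exact MvPolynomial.mem_support_iff.1 hs this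
  have key := h _ hne H hH (fun s => hcoeff s.1)
  have hsum : ∑ s : Idx t M J₀, ((MvPolynomial.coeff s.1 p' : ℤ) : ℝ) * ev 1 (mon f s.1) =
      MvPolynomial.aeval (fun i : {i : σ // i ≠ t.z} => ev 1 (f i.1)) p := by
    have h1 : ∑ s : Idx t M J₀, ((MvPolynomial.coeff s.1 p' : ℤ) : ℝ) * ev 1 (mon f s.1) =
        ∑ s ∈ (Finset.univ : Finset (Idx t M J₀)).map ⟨Subtype.val, Subtype.val_injective⟩,
          ((MvPolynomial.coeff s p' : ℤ) : ℝ) * ev 1 (mon f s) := by
      rw [Finset.sum_map]; rfl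
    rw [h1, ← hval]
    have h2 : p'.support ⊆ (Finset.univ : Finset (Idx t M J₀)).map ⟨Subtype.val, Subtype.val_injective⟩ := by
      intro s hs
      rw [Finset.mem_map]
      exact ⟨⟨s, hmem s hs⟩, Finset.mem_univ _, rfl⟩
    rw [← Finset.sum_subset h2 (fun s _ hs => by
      rw [MvPolynomial.notMem_support_iff.1 hs, Int.cast_zero, zero_mul])]
    conv_rhs => rw [MvPolynomial.as_sum p', map_sum]
    refine Finset.sum_congr rfl fun s _ => ?_
    rw [MvPolynomial.aeval_monomial, ev_mon R, Finsupp.prod_fintype _ _ (fun i => pow_zero _)]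
    simp
  rw [← hsum]
  exact key

end Pool.Agent.N778.EM
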