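import Pool.Agent.N778.EM.Elim3

/-!
# Elimination with measures: uniform versions
-/

set_option autoImplicit false

open Finset

namespace Pool.Agent.N778.EM

open MvPolynomial

lemma MeasF.ne {ι : Type} {θ : ι → ℝ} (hθ : MeasF θ) {P : MvPolynomial ι ℤ} (hP : P ≠ 0) : aeval θ P ≠ 0 := by
  obtain ⟨κ, c, hc, h⟩ := hθ P.totalDegree
  intro h0
  have h1 := h P hP le_rfl (1 + len P) (by have := len_nonneg P; linarith) (fun s => by
    have := coeff_le_len P s; linarith)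
  rw [h0, abs_zero, mul_zero] at h1
  linarith

lemma MeasF.algInd {ι : Type} {θ : ι → ℝ} (hθ : MeasF θ) : AlgebraicIndependent ℤ θ := by
  rw [algebraicIndependent_iff]
  intro P hP
  by_contra h
  exact hθ.ne h hP

lemma tp_coeff {Λ ι : Type} {H : Λ → ℝ} (a : Λ → ℤ) (ha : ∀ l, |(a l : ℝ)| ≤ H l) :
    TP H fun l => (MvPolynomial.C (a l) : MvPolynomial ι ℤ) :=
  ⟨⟨0, fun l => by rw [MvPolynomial.totalDegree_C]⟩, 1, 1, zero_le_one, fun l => by
    simp only [len_C, abs_abs, one_mul, pow_one]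
    exact ha l⟩

lemma fin_exp (κ : Type) [Fintype κ] (D : ℕ) : {s : κ →₀ ℕ | ∑ i, s i ≤ D}.Finite := by
  classical
  apply (Set.finite_Iic (Finsupp.equivFunOnFinite.symm (fun _ => D) : κ →₀ ℕ)).subset
  intro s hs i
  rw [Finsupp.equivFunOnFinite_symm_apply_apply]
  exact (Finset.single_le_sum (f := fun v => s v) (fun _ _ => Nat.zero_le _) (Finset.mem_univ i)).trans hs

/-- rational functions of a family with a measure -/
theorem MeasF.rat {ι κ : Type} [Finite ι] [Fintype κ] {θ : ι → ℝ} (hθ : MeasF θ) {b : MvPolynomial ι ℤ}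
    (hb : b ≠ 0) (G : κ → MvPolynomial ι ℤ) (w : κ → ℝ) (hw : ∀ j, aeval θ b * w j = aeval θ (G j))
    (hw' : AlgebraicIndependent ℤ w) : MeasF w := by
  classical
  intro D
  set S : Finset (κ →₀ ℕ) := (fin_exp κ D).toFinset with hS
  let Λ : Type := {l : MvPolynomial κ ℤ × ℝ // l.1 ≠ 0 ∧ l.1.totalDegree ≤ D ∧ 1 ≤ l.2 ∧
    ∀ s, |((l.1.coeff s : ℤ) : ℝ)| ≤ l.2}
  let H : Λ → ℝ := fun l => l.1.2
  have hH : ∀ l, 1 ≤ H l := fun l => l.2.2.2.1
  let F : Λ → MvPolynomial ι ℤ := fun l => ∑ s ∈ S, (C (l.1.1.coeff s) * b ^ (D - ∑ i, s i)) * ∏ j, G j ^ s j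
  have hF : TP H F := by
    refine TP.sum hH _ _ fun s _ => ?_
    refine TP.mul (TP.mul ?_ (TP.const _)) (TP.const _)
    exact tp_coeff _ fun l => l.2.2.2.2 s
  have hval : ∀ l, aeval θ (F l) = aeval θ b ^ D * aeval w l.1.1 := by
    intro l
    have hsub : l.1.1.support ⊆ S := by
      intro s hs
      rw [hS, Set.Finite.mem_toFinset]
      have h2 := MvPolynomial.le_totalDegree hs
      rw [Finsupp.sum_fintype _ _ (fun _ => rfl)] at h2
      exact h2.trans l.2.2.1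
    have h1 : aeval w l.1.1 = ∑ s ∈ S, ((l.1.1.coeff s : ℤ) : ℝ) * ∏ j, w j ^ s j := by
      conv_lhs => rw [MvPolynomial.as_sum l.1.1, map_sum]
      rw [Finset.sum_subset hsub]
      · refine Finset.sum_congr rfl fun s _ => ?_
        rw [MvPolynomial.aeval_monomial, Finsupp.prod_fintype _ _ (fun i => pow_zero _)]
        simp
      · intro s _ hs
        rw [MvPolynomial.notMem_support_iff.1 hs]
        simp
    rw [h1, Finset.mul_sum]
    simp only [F, map_sum, map_mul, map_prod, map_pow, MvPolynomial.aeval_C]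
    refine Finset.sum_congr rfl fun s hs => ?_
    have h2 : ∑ i, s i ≤ D := by
      rw [hS, Set.Finite.mem_toFinset] at hs
      exact hs
    have h3 : ∏ j, aeval θ (G j) ^ s j = aeval θ b ^ (∑ i, s i) * ∏ j, w j ^ s j := by
      rw [← Finset.prod_pow_eq_pow_sum, ← Finset.prod_mul_distrib]
      refine Finset.prod_congr rfl fun j _ => ?_
      rw [← hw j, mul_pow]
    rw [h3]
    have h4 : aeval θ b ^ D = aeval θ b ^ (D - ∑ i, s i) * aeval θ b ^ (∑ i, s i) := by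
      rw [← pow_add, Nat.sub_add_cancel h2]
    rw [h4]
    simp only [algebraMap_int_eq, eq_intCast]
    ring
  have hb0 : aeval θ b ≠ 0 := hθ.ne hb
  have hne : ∀ l, F l ≠ 0 := by
    intro l h0
    have h1 := hval l
    rw [h0, map_zero] at h1
    rcases mul_eq_zero.1 h1.symm with h2 | h2
    · exact pow_ne_zero _ hb0 h2
    · exact l.2.1 ((algebraicIndependent_iff.1 hw') _ h2)
  obtain ⟨k, c, hc, h⟩ := hθ.tame hH hF hne
  refine ⟨k, c / (1 + |aeval θ b ^ D|), by positivity, fun P hP hPD A hA hPA => ?_⟩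
  have h1 := h ⟨(P, A), hP, hPD, hA, hPA⟩
  rw [hval, abs_mul] at h1
  rw [div_le_iff₀ (by positivity)]
  change c ≤ A ^ k * (|aeval θ b ^ D| * |aeval w P|) at h1
  have h2 : 0 ≤ A ^ k * |aeval w P| := by positivity
  nlinarith

/-- injective changes of the index -/
theorem MeasF.comp {ι κ : Type} [Finite ι] [Fintype κ] {θ : ι → ℝ} (hθ : MeasF θ) (g : κ → ι)
    (hg : Function.Injective g) : MeasF (θ ∘ g) :=
  hθ.rat (b := 1) one_ne_zero (fun j => X (g j)) _ (fun j => by simp) (hθ.algInd.comp g hg)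

lemma unif {A X : Type} [Finite A] (S : A → X → Prop) (H f : X → ℝ) (hH : ∀ a x, S a x → 1 ≤ H x)
    (hf : ∀ x, 0 ≤ f x)
    (h : ∀ a, ∃ κ : ℕ, ∃ c : ℝ, 0 < c ∧ ∀ x, S a x → c ≤ H x ^ κ * f x) :
    ∃ κ : ℕ, ∃ c : ℝ, 0 < c ∧ ∀ a x, S a x → c ≤ H x ^ κ * f x := by
  classical
  cases nonempty_fintype A
  choose κ c hc h using h
  refine ⟨∑ a, κ a, ∏ a, min 1 (c a), Finset.prod_pos fun a _ => lt_min one_pos (hc a), fun a x hx => ?_⟩
  have h1 : ∏ a, min 1 (c a) ≤ c a := by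
    rw [← Finset.mul_prod_erase univ _ (Finset.mem_univ a)]
    have h2 : ∏ b ∈ univ.erase a, min 1 (c b) ≤ 1 :=
      Finset.prod_le_one (fun b _ => (lt_min one_pos (hc b)).le) fun b _ => min_le_left _ _
    calc min 1 (c a) * ∏ b ∈ univ.erase a, min 1 (c b) ≤ min 1 (c a) * 1 :=
          mul_le_mul_of_nonneg_left h2 (lt_min one_pos (hc a)).le
      _ ≤ c a := by rw [mul_one]; exact min_le_right _ _
  have h3 : κ a ≤ ∑ a, κ a := Finset.single_le_sum (f := κ) (fun _ _ => Nat.zero_le _) (Finset.mem_univ a)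
  calc ∏ a, min 1 (c a) ≤ c a := h1
    _ ≤ H x ^ κ a * f x := h a x hx
    _ ≤ H x ^ (∑ a, κ a) * f x :=
      mul_le_mul_of_nonneg_right (pow_le_pow_right₀ (hH a x hx) h3) (hf x)

/-- **Elimination, uniform version.** -/
theorem elim_all {ι ν : Type} [Fintype ι] [Fintype ν] (θ : ι → ℝ) (θ₀ : ℝ)
    (hθ : MeasF (fun o : Option ι => o.elim θ₀ θ)) (u : ν → ℝ)
    {b : MvPolynomial ι ℤ} (hb : b ≠ 0) (G : MvPolynomial (ι ⊕ ν) ℤ)
    (hG : aeval θ b * θ₀ = aeval (Sum.elim θ u) G) (D : ℕ) :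
    ∃ κ : ℕ, ∃ c : ℝ, 0 < c ∧ ∀ P : ν → Polynomial (MvPolynomial ι ℤ), (∀ i, P i ≠ 0) →
      (∀ i, (P i).natDegree ≤ D) → (∀ i j, ((P i).coeff j).totalDegree ≤ D) → ∀ H : ℝ, 1 ≤ H →
      (∀ i j s, |((((P i).coeff j).coeff s : ℤ) : ℝ)| ≤ H) → c ≤ H ^ κ * ∑ i, |ev2 θ (u i) (P i)| := by
  classical
  have hθ' : MeasF θ := hθ.comp some (Option.some_injective _)
  let Λ : Type := {l : (ν → Polynomial (MvPolynomial ι ℤ)) × ℝ // (∀ i, l.1 i ≠ 0) ∧ (∀ i, (l.1 i).natDegree ≤ D) ∧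
    (∀ i j, ((l.1 i).coeff j).totalDegree ≤ D) ∧ 1 ≤ l.2 ∧ ∀ i j s, |((((l.1 i).coeff j).coeff s : ℤ) : ℝ)| ≤ l.2}
  let H : Λ → ℝ := fun l => l.1.2
  let f : Λ → ℝ := fun l => ∑ i, |ev2 θ (u i) (l.1.1 i)|
  have hH : ∀ l, 1 ≤ H l := fun l => l.2.2.2.2.1
  have hf : ∀ l, 0 ≤ f l := fun l => Finset.sum_nonneg fun _ _ => abs_nonneg _
  obtain ⟨N, hN1, hN⟩ := len_le_of_coeff (ι := ι) D
  -- the case of positive degrees
  have key : ∃ κ : ℕ, ∃ c : ℝ, 0 < c ∧ ∀ (d : ν → Fin (D + 1)) (l : Λ),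
      ((∀ i, 1 ≤ (d i : ℕ)) ∧ ∀ i, (l.1.1 i).natDegree = d i) → c ≤ H l ^ κ * f l := by
    refine unif (A := ν → Fin (D + 1)) (X := Λ) (fun d l => (∀ i, 1 ≤ (d i : ℕ)) ∧ ∀ i, (l.1.1 i).natDegree = d i)
      H f (fun _ l _ => hH l) hf fun d => ?_
    by_cases hd : ∀ i, 1 ≤ (d i : ℕ)
    · let Λ' : Type := {l : Λ // ∀ i, (l.1.1 i).natDegree = d i}
      obtain ⟨κ, c, hc, h⟩ := elim_fam (Λ := Λ') (H := fun l => H l.1) (fun l => hH l.1) θ θ₀ hθ u hb G hG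
        (fun i => d i) hd (fun l i => l.1.1.1 i) (fun l i => l.2 i) (fun i j =>
          ⟨⟨D, fun l => l.1.2.2.2.1 i j⟩, 1, N, by linarith, fun l => by
            rw [abs_of_nonneg (len_nonneg _), pow_one]
            exact hN _ (l.1.2.2.2.1 i j) _ (fun s => l.1.2.2.2.2.2 i j s)⟩)
      exact ⟨κ, c, hc, fun l hl => h ⟨l, hl.2⟩⟩
    · exact ⟨0, 1, one_pos, fun l hl => absurd hl.1 hd⟩
  obtain ⟨κ₁, c₁, hc₁, h1⟩ := key
  obtain ⟨κ₂, c₂, hc₂, h2⟩ := hθ' D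
  refine ⟨κ₁ + κ₂, min c₁ c₂, lt_min hc₁ hc₂, fun P hP0 hPd hPD A hA hPA => ?_⟩
  have hsum0 : 0 ≤ ∑ i, |ev2 θ (u i) (P i)| := Finset.sum_nonneg fun _ _ => abs_nonneg _
  by_cases hdeg : ∀ i, 1 ≤ (P i).natDegree
  · have h3 := h1 (fun i => ⟨(P i).natDegree, Nat.lt_succ_of_le (hPd i)⟩) ⟨(P, A), hP0, hPd, hPD, hA, hPA⟩
      ⟨hdeg, fun i => rfl⟩
    calc min c₁ c₂ ≤ c₁ := min_le_left _ _
      _ ≤ A ^ κ₁ * ∑ i, |ev2 θ (u i) (P i)| := h3
      _ ≤ A ^ (κ₁ + κ₂) * ∑ i, |ev2 θ (u i) (P i)| :=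
        mul_le_mul_of_nonneg_right (pow_le_pow_right₀ hA (Nat.le_add_right _ _)) hsum0
  · obtain ⟨i, hi⟩ := not_forall.1 hdeg
    have hi0 : (P i).natDegree = 0 := by omega
    have hPi := Polynomial.eq_C_of_natDegree_eq_zero hi0
    have hc0 : (P i).coeff 0 ≠ 0 := by
      intro h0
      apply hP0 i
      rw [hPi, h0, Polynomial.C_0]
    have h3 := h2 _ hc0 (hPD i 0) A hA (hPA i 0)
    have h4 : ev2 θ (u i) (P i) = aeval θ ((P i).coeff 0) := by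
      rw [ev2]
      conv_lhs => rw [hPi, Polynomial.eval₂_C]
      rfl
    rw [← h4] at h3
    calc min c₁ c₂ ≤ c₂ := min_le_right _ _
      _ ≤ A ^ κ₂ * |ev2 θ (u i) (P i)| := h3
      _ ≤ A ^ (κ₁ + κ₂) * ∑ i, |ev2 θ (u i) (P i)| := by
        refine mul_le_mul (pow_le_pow_right₀ hA (Nat.le_add_left _ _)) ?_ (abs_nonneg _) (by positivity)
        exact Finset.single_le_sum (f := fun i => |ev2 θ (u i) (P i)|) (fun _ _ => abs_nonneg _) (Finset.mem_univ i)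

end Pool.Agent.N778.EM
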