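import Pool.Agent.R352.E.Fin

/-!
# E-functions: a measure of linear independence for the values, part 1

The estimate `Pool.Agent.R352.E.core` for a linear form which is not zero.
-/

set_option autoImplicit false

open PowerSeries Finset.HasAntidiagonal

namespace Pool.Agent.N778.EM

open Pool.Agent.Y113 Pool.Agent.R352.E

lemma det_ineq_eta {N : ℕ} (M : Matrix (Fin N) (Fin N) ℤ) (hM : M.det ≠ 0) (r₀ i₀ : Fin N) (Y : Fin N → ℝ)
    (hY : Y i₀ = 1) (A X L : ℝ) (hA : 0 ≤ A) (hX : 1 ≤ X) (hL : 0 ≤ L) (hMA : ∀ j, |(M r₀ j : ℝ)| ≤ A)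
    (hMX : ∀ r, r ≠ r₀ → ∀ j, |(M r j : ℝ)| ≤ X) (hML : ∀ r, r ≠ r₀ → |∑ j, (M r j : ℝ) * Y j| ≤ L) :
    1 ≤ N * (N.factorial * (A * X ^ (N - 2)) * L) + N * (N.factorial * X ^ (N - 1) * |∑ j, (M r₀ j : ℝ) * Y j|) := by
  classical
  set R : Matrix (Fin N) (Fin N) ℝ := M.map (Int.cast : ℤ → ℝ) with hR
  have hdet : R.det = ((M.det : ℤ) : ℝ) := (Int.cast_det (R := ℝ) M).symm
  have h1 : (1 : ℝ) ≤ |R.det| := by
    rw [hdet]
    exact_mod_cast Int.one_le_abs hM
  have h2 : R.det * Y i₀ = ∑ r, R.adjugate i₀ r * (R.mulVec Y) r := by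
    have h3 : R.adjugate.mulVec (R.mulVec Y) = R.det • Y := by
      rw [Matrix.mulVec_mulVec, Matrix.adjugate_mul, Matrix.smul_mulVec, Matrix.one_mulVec]
    have := congrFun h3 i₀
    rw [Pi.smul_apply, smul_eq_mul] at this
    rw [← this]
    rfl
  rw [hY, mul_one] at h2
  rw [h2] at h1
  refine h1.trans ((Finset.abs_sum_le_sum_abs _ _).trans ?_)
  have h3 : ∀ r : Fin N, |R.adjugate i₀ r * (R.mulVec Y) r| ≤ N.factorial * (A * X ^ (N - 2)) * L +
      N.factorial * X ^ (N - 1) * |∑ j, (M r₀ j : ℝ) * Y j| := by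
    intro r
    have hmv : ∀ r, (R.mulVec Y) r = ∑ j, (M r j : ℝ) * Y j := fun r => rfl
    by_cases hr : r = r₀
    · rw [abs_mul, hmv, hr]
      have h5 : |R.adjugate i₀ r₀| ≤ N.factorial * X ^ (N - 1) := by
        rw [Matrix.adjugate_apply]
        refine (det_bound _ (fun s => if s = r₀ then 1 else X) ?_).trans (le_of_eq ?_)
        · intro s j
          by_cases hs : s = r₀
          · rw [if_pos hs, hs, Matrix.updateRow_self]
            by_cases hj : j = i₀
            · rw [hj, Pi.single_eq_same, abs_one]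
            · rw [Pi.single_eq_of_ne hj, abs_zero]; exact zero_le_one
          · rw [if_neg hs, Matrix.updateRow_ne hs]
            exact hMX s hs j
        · congr 1
          rw [← Finset.mul_prod_erase Finset.univ _ (Finset.mem_univ r₀), if_pos rfl, one_mul]
          rw [Finset.prod_congr rfl (g := fun _ => X) (fun s hs => by
            rw [Finset.mem_erase] at hs
            rw [if_neg hs.1])]
          rw [Finset.prod_const, Finset.card_erase_of_mem (Finset.mem_univ r₀), Finset.card_univ, Fintype.card_fin]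
      have h6 : 0 ≤ N.factorial * (A * X ^ (N - 2)) * L := by positivity
      have h7 := mul_le_mul_of_nonneg_right h5 (abs_nonneg (∑ j, (M r₀ j : ℝ) * Y j))
      linarith
    · rw [abs_mul, hmv]
      have h7 : 0 ≤ N.factorial * X ^ (N - 1) * |∑ j, (M r₀ j : ℝ) * Y j| := by positivity
      refine le_trans ?_ (le_add_of_nonneg_right h7)
      refine mul_le_mul ?_ (hML r hr) (abs_nonneg _) (by positivity)
      rw [Matrix.adjugate_apply]
      refine (det_bound _ (fun s => if s = r then 1 else if s = r₀ then A else X) ?_).trans (le_of_eq ?_)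
      · intro s j
        by_cases hs : s = r
        · rw [if_pos hs, hs, Matrix.updateRow_self]
          by_cases hj : j = i₀
          · rw [hj, Pi.single_eq_same, abs_one]
          · rw [Pi.single_eq_of_ne hj, abs_zero]; exact zero_le_one
        · rw [if_neg hs, Matrix.updateRow_ne hs]
          by_cases hs2 : s = r₀
          · rw [if_pos hs2, hs2]; exact hMA j
          · rw [if_neg hs2]; exact hMX s hs2 j
      · congr 1
        rw [← Finset.mul_prod_erase Finset.univ _ (Finset.mem_univ r), if_pos rfl, one_mul]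
        rw [← Finset.mul_prod_erase (Finset.univ.erase r) _ (Finset.mem_erase.2 ⟨Ne.symm hr, Finset.mem_univ r₀⟩),
          if_neg (Ne.symm hr), if_pos rfl]
        congr 1
        rw [Finset.prod_congr rfl (g := fun _ => X) (fun s hs => by
          rw [Finset.mem_erase, Finset.mem_erase] at hs
          rw [if_neg hs.2.1, if_neg hs.1])]
        rw [Finset.prod_const, Finset.card_erase_of_mem (Finset.mem_erase.2 ⟨Ne.symm hr, Finset.mem_univ r₀⟩),
          Finset.card_erase_of_mem (Finset.mem_univ r), Finset.card_univ, Fintype.card_fin]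
        congr 1
  calc ∑ r, |R.adjugate i₀ r * (R.mulVec Y) r| ≤ ∑ _r : Fin N, (N.factorial * (A * X ^ (N - 2)) * L +
        N.factorial * X ^ (N - 1) * |∑ j, (M r₀ j : ℝ) * Y j|) :=
        Finset.sum_le_sum fun r _ => h3 r
    _ = _ := by
      rw [Finset.sum_const, Finset.card_univ, Fintype.card_fin, nsmul_eq_mul, mul_add]

lemma core_eta {N q : ℕ} {C : ℝ} {y : Fin N → ℚ⟦X⟧} (hE : ESys q C y) (i₀ : Fin N) (h1 : y i₀ = 1)
    {B : Fin N → Fin N → Polynomial ℤ} (hB : ∀ i, (TQ q : ℚ⟦X⟧) * d⁄dX ℚ (y i) = ∑ j, ps (B i j) * y j)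
    {b : ℕ} {β : ℝ} (hb : 1 ≤ b) (hBb : ∀ i j, (B i j).natDegree ≤ b) (hβ : ∀ j, ∑ i, l1 (B i j) ≤ β) (hβ0 : 0 ≤ β)
    {c₁ : ℕ}
    (hrank : ∀ (n m K : ℕ) (P : Fin N → Polynomial ℚ), P ≠ 0 → (∀ i, (P i).natDegree ≤ n) →
      (∀ l < m, coeff l (∑ i, (P i : ℚ⟦X⟧) * y i) = 0) → (N - 1) * n + c₁ < m → N * n + c₁ < m + K →
      ∀ v : Fin N → ℚ, (∀ k ≤ K, ∑ j, ((nab (TQ q) (fun i j => (B i j).map (Int.castRingHom ℚ)))^[k] P j).eval 1 * v j = 0)
        → v = 0)
    (a : Fin N → ℤ) (ha0 : a ≠ 0) (A : ℝ) (hA : ∀ i, |(a i : ℝ)| ≤ A)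
    (L ν n m₀ K : ℕ) (hL : 2 ≤ L) (hν : c₁ < ν) (hn : n = L * ν) (hm₀ : m₀ + ν = N * n) (hK : K = 2 * ν)
    (A₀ : ℝ) (hA₀ : A₀ = ((N * (n + 1) : ℕ) * (2 * C) ^ (2 * m₀ + 1)) ^ (N * L)) :
    1 ≤ (N : ℝ) * (N.factorial * (A *
      (((n + K * b : ℕ) + 1) * ((q * (n + K * b : ℕ) + β) ^ K * (n.factorial * A₀))) ^ (N - 2)) *
      (n.factorial * (N * A₀ * C) * (q : ℝ) ^ K * K.factorial *
        ((2 * C * Real.exp 1) ^ m₀ / m₀.factorial * Real.exp (2 * C * Real.exp 1)))) +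
      N * (N.factorial * (((n + K * b : ℕ) + 1) * ((q * (n + K * b : ℕ) + β) ^ K * (n.factorial * A₀))) ^ (N - 1) *
        |∑ i, (a i : ℝ) * ev 1 (y i)|) := by
  have hC := hE.one_le
  have hNpos : 0 < N := i₀.pos
  have hνpos : 0 < ν := by omega
  have hnpos : 0 < n := by rw [hn]; exact Nat.mul_pos (by omega) hνpos
  have hNn : L * ν ≤ N * n := by rw [← hn]; exact Nat.le_mul_of_pos_left n hNpos
  have hm₀pos : 0 < m₀ := by
    have : 2 * ν ≤ L * ν := Nat.mul_le_mul_right _ hL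
    omega
  have hNn1 : N * (n + 1) = N * n + N := by ring
  have hmn : m₀ < N * (n + 1) := by omega
  have he : m₀ ≤ (N * L) * (N * (n + 1) - m₀) := by
    have h2 : N * (n + 1) - m₀ = ν + N := by omega
    rw [h2]
    calc m₀ ≤ N * n := by omega
      _ = N * L * ν := by rw [hn]; ring
      _ ≤ N * L * (ν + N) := Nat.mul_le_mul_left _ (by omega)
  obtain ⟨P, hP0, hPn, hPc, hPv, hPs⟩ := siegel_E hC hE.size hE.den n m₀ (N * L) hm₀pos hmn he
  rw [← hA₀] at hPc hPs
  have hA₀0 : 0 ≤ A₀ := by rw [hA₀]; positivity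
  have hPQ0 : (fun i => (P i).map (Int.castRingHom ℚ)) ≠ 0 := by
    intro h
    apply hP0
    funext i
    have h2 := congrFun h i
    simp only [Pi.zero_apply] at h2
    exact (Polynomial.map_eq_zero_iff (Int.cast_injective)).1 h2
  have hsp := hrank n m₀ K (fun i => (P i).map (Int.castRingHom ℚ)) hPQ0
    (fun i => (Polynomial.natDegree_map_le).trans (hPn i)) hPv
    (by
      have h2 : (N - 1) * n + n = N * n := by
        have h3 : (N - 1 + 1) * n = N * n := by rw [Nat.sub_add_cancel hNpos]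
        rw [← h3]; ring
      have h4 : 2 * ν ≤ n := by rw [hn]; exact Nat.mul_le_mul_right _ hL
      omega)
    (by omega)
  -- the integer vectors
  let z : Fin (K + 1) → Fin N → ℤ := fun k j => ((nabZ q B)^[(k : ℕ)] P j).eval 1
  have hzQ : ∀ (k : ℕ) (j : Fin N), ((((nabZ q B)^[k] P j).eval 1 : ℤ) : ℚ) =
      ((nab (TQ q) (fun i j => (B i j).map (Int.castRingHom ℚ)))^[k] (fun i => (P i).map (Int.castRingHom ℚ)) j).eval 1 := by
    intro k j
    rw [← nabZ_map, Polynomial.eval_map, Polynomial.eval₂_at_one]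
    simp
  have hzorth : ∀ v : Fin N → ℚ, (∀ k, ∑ j, (z k j : ℚ) * v j = 0) → v = 0 := by
    intro v hv
    apply hsp v
    intro k hk
    have h2 := hv ⟨k, by omega⟩
    simp only [z, hzQ] at h2
    exact h2
  obtain ⟨M, r₀, hMdet, hMr₀, hMr⟩ := exists_matrix a ha0 z hzorth
  have hnA : (0 : ℝ) ≤ n.factorial * A₀ := by positivity
  have hzb : ∀ k j, |((z k j : ℤ) : ℝ)| ≤
      ((n + K * b : ℕ) + 1) * ((q * (n + K * b : ℕ) + β) ^ K * (n.factorial * A₀)) := by
    intro k j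
    have hk : (k : ℕ) ≤ K := by have := k.2; omega
    obtain ⟨h2, h3⟩ := nabZ_iter (q := q) hb hBb hβ hβ0 (K := K) hnA hPn hPc k hk
    have h4 : (nabZ q B)^[(k : ℕ)] P j = (nabZ q B)^[(k : ℕ)] P j := rfl
    have h5 : ((z k j : ℤ) : ℝ) = Polynomial.aeval (1 : ℝ) ((nabZ q B)^[(k : ℕ)] P j) := by
      simp only [z]
      rw [Polynomial.aeval_def, Polynomial.eval₂_at_one]
      simp
    rw [h5]
    have h6 : ((nabZ q B)^[(k : ℕ)] P j).natDegree ≤ n + K * b :=
      (h2 j).trans (Nat.add_le_add_left (Nat.mul_le_mul_right _ hk) _)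
    have hbase : (1 : ℝ) ≤ q * (n + K * b : ℕ) + β := by
      have h7 : (1 : ℝ) ≤ q := by exact_mod_cast hE.hq
      have h8 : (1 : ℝ) ≤ ((n + K * b : ℕ) : ℝ) := by exact_mod_cast (show 1 ≤ n + K * b by omega)
      nlinarith
    refine aeval_bound zero_le_one le_rfl h6 fun l => (h3 j l).trans ?_
    exact mul_le_mul_of_nonneg_right (pow_le_pow_right₀ hbase hk) hnA
  -- the small forms
  have hcvy : ∀ i, Cv 1 (y i) := fun i => Cv_of_cf (by linarith) (hE.size i)
  set R := ∑ i, ps (P i) * y i with hR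
  have hps : ∀ Q : Polynomial ℤ, Cv (1 : ℝ) (ps Q) ∧ ev (1 : ℝ) (ps Q) = ((Q.eval 1 : ℤ) : ℝ) := by
    intro Q
    refine ⟨Cv.coe _, ?_⟩
    rw [ps, ev_coe, Polynomial.aeval_def, Polynomial.eval₂_map, div_one, Polynomial.eval₂_at_one]
    simp
  set LL : ℝ := n.factorial * (N * A₀ * C) * (q : ℝ) ^ K * K.factorial *
        ((2 * C * Real.exp 1) ^ m₀ / m₀.factorial * Real.exp (2 * C * Real.exp 1)) with hLL
  have hsmall : ∀ k : Fin (K + 1), |∑ j, (z k j : ℝ) * ev 1 (y j)| ≤ LL := by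
    intro k
    have hk : (k : ℕ) ≤ K := by have := k.2; omega
    have h2 := form_small (f := R) hC (H := n.factorial * (N * A₀ * C)) (by positivity) hPv
      (fun l => (hPs l).trans (le_of_eq (by ring))) q k K hE.hq hk
    have h3 := nab_iter Polynomial.coeToPowerSeries.ringHom coe_deriv' (T := TQ q)
      (B := fun i j => (B i j).map (Int.castRingHom ℚ)) (Y := y) (fun i => hB i)
      (fun i => (P i).map (Int.castRingHom ℚ)) k
    have h4 : (fun f => (TQ q : ℚ⟦X⟧) * d⁄dX ℚ f)^[(k : ℕ)] R = ∑ j, ps ((nabZ q B)^[(k : ℕ)] P j) * y j := by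
      have h5 : ∀ j, ps ((nabZ q B)^[(k : ℕ)] P j) = Polynomial.coeToPowerSeries.ringHom
          ((nab (TQ q) (fun i j => (B i j).map (Int.castRingHom ℚ)))^[(k : ℕ)]
            (fun i => (P i).map (Int.castRingHom ℚ)) j) := by
        intro j
        rw [ps, nabZ_map]; rfl
      simp only [h5]
      rw [h3]
      rfl
    rw [h4, Cv.ev_sum one_pos _ _ (fun j _ => (hps _).1.mul one_pos (hcvy j))] at h2
    have h6 : ∑ j, (z k j : ℝ) * ev 1 (y j) = ∑ j, ev 1 (ps ((nabZ q B)^[(k : ℕ)] P j) * y j) := by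
      refine Finset.sum_congr rfl fun j _ => ?_
      rw [(hps _).1.ev_mul one_pos (hcvy j), (hps _).2]
    rw [h6]
    exact h2.2
  have hA0 : 0 ≤ A := (abs_nonneg _).trans (hA i₀)
  have hLL0 : 0 ≤ LL := by positivity
  have hA₀1 : 1 ≤ A₀ := by
    rw [hA₀]
    apply one_le_pow₀
    have h2 : (1 : ℝ) ≤ (2 * C) ^ (2 * m₀ + 1) := one_le_pow₀ (by linarith)
    have h3 : (1 : ℝ) ≤ ((N * (n + 1) : ℕ) : ℝ) := by
      exact_mod_cast (Nat.mul_pos hNpos (Nat.succ_pos n))
    nlinarith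
  have hX1 : 1 ≤ ((n + K * b : ℕ) + 1) * ((q * (n + K * b : ℕ) + β) ^ K * (n.factorial * A₀)) := by
    have h2 : (1 : ℝ) ≤ ((n + K * b : ℕ) : ℝ) + 1 := by
      have : (0 : ℝ) ≤ ((n + K * b : ℕ) : ℝ) := Nat.cast_nonneg _
      linarith
    have hbase : (1 : ℝ) ≤ q * (n + K * b : ℕ) + β := by
      have h7 : (1 : ℝ) ≤ q := by exact_mod_cast hE.hq
      have h8 : (1 : ℝ) ≤ ((n + K * b : ℕ) : ℝ) := by exact_mod_cast (show 1 ≤ n + K * b by omega)
      nlinarith
    have h3 : (1 : ℝ) ≤ (q * (n + K * b : ℕ) + β) ^ K := one_le_pow₀ hbase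
    have h4 : (1 : ℝ) ≤ n.factorial := by exact_mod_cast n.factorial_pos
    have h5 : (1 : ℝ) ≤ n.factorial * A₀ := one_le_mul_of_one_le_of_one_le h4 hA₀1
    exact one_le_mul_of_one_le_of_one_le h2 (one_le_mul_of_one_le_of_one_le h3 h5)
  have hη : |∑ j, (M r₀ j : ℝ) * ev 1 (y j)| = |∑ i, (a i : ℝ) * ev 1 (y i)| := by rw [hMr₀]
  rw [← hη]
  refine det_ineq_eta M hMdet r₀ i₀ (fun j => ev 1 (y j)) (by simp only [h1]; exact ev_one) A _ LL hA0 hX1 hLL0 ?_ ?_ ?_
  · intro j; rw [hMr₀]; exact hA j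
  · intro r hr j
    obtain ⟨k, hk⟩ := hMr r hr
    rw [hk]; exact hzb k j
  · intro r hr
    obtain ⟨k, hk⟩ := hMr r hr
    rw [hk]; exact hsmall k

end Pool.Agent.N778.EM
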