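import Pool.Agent.N778.EM.Rel
import Pool.Agent.R352.E.Fam

/-!
# The measure for `e` and the numbers `E_l(x)`, `x` positive rational
-/

set_option autoImplicit false

open Set

namespace Pool.Agent.N778.EM

open MvPolynomial Pool.Agent.R352.E Pool.Agent.Y113

section

variable (J k : ℕ) (mm : Fin k → ℕ)

/-- the measure for `exp (-1/q)` and the numbers `E_l (m_i / q)`, `1 ≤ l ≤ J` -/
theorem EE_meas (hinj : Function.Injective mm) (hpos : ∀ i, 1 ≤ mm i) {q : ℕ} (hq : 1 ≤ q) :
    MeasF (fun o : Option (Fin J × Fin k) =>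
      o.elim (Real.exp (-1 / q)) (fun p => EE (p.1 + 1) ((mm p.2 : ℝ) / q))) := by
  have h1 := val_meas (real_tw J k mm hinj hpos hq)
  -- reindexing
  let g : Option (Fin J × Fin k) → {i : Sg J k // i ≠ (tw J k mm hinj hpos).z} := fun o =>
    match o with
    | none => ⟨toLex (Sum.inr 0), fun h => by
        have := Sum.inr_injective (toLex.injective h)
        exact absurd this (by decide)⟩
    | some p => ⟨toLex (Sum.inl (toLex (Fin.rev p.1, p.2))), fun h => Sum.inl_ne_inr (toLex.injective h)⟩
  have hg : Function.Injective g := by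
    intro o o' h
    rcases o with _ | p <;> rcases o' with _ | p'
    · rfl
    · exact absurd (toLex.injective (congrArg Subtype.val h)) Sum.inr_ne_inl
    · exact absurd (toLex.injective (congrArg Subtype.val h)) Sum.inl_ne_inr
    · have h2 := toLex.injective (Sum.inl_injective (toLex.injective (congrArg Subtype.val h)))
      have h3 := congrArg Prod.fst h2
      have h4 := congrArg Prod.snd h2
      simp only at h3 h4
      have h5 := Fin.rev_injective h3
      rw [Prod.ext h5 h4]
  have h2 := h1.comp g hg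
  convert h2 using 1
  funext o
  rcases o with _ | p
  · show Real.exp (-1 / q) = ev 1 (wS q)
    rw [ev_wS]
  · show EE (p.1 + 1) ((mm p.2 : ℝ) / q) = ev 1 (ES (J - (Fin.rev p.1 : Fin J)) ((mm p.2 : ℚ) / q))
    rw [ev_ES _ _ _ hq]
    congr 1
    rw [Fin.val_rev]
    have := p.1.2
    omega

end

/-- the measure for `e` and the numbers `E_l(x)` -/
theorem EE_meas_fin (J : ℕ) {k : ℕ} (x : Fin k → ℚ) (hinj : Function.Injective x) (hpos : ∀ i, 0 < x i) :
    MeasF (Sum.elim (fun _ : Unit => Real.exp 1) (fun p : Fin J × Fin k => EE (p.1 + 1) (x p.2))) := by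
  set q : ℕ := ∏ i, (x i).den with hqd
  have hq : 1 ≤ q := Nat.one_le_iff_ne_zero.2 (Finset.prod_ne_zero_iff.2 fun i _ => (x i).den_ne_zero)
  have hq' : (q : ℝ) ≠ 0 := by positivity
  have hm : ∀ i, ∃ m : ℕ, 1 ≤ m ∧ (m : ℝ) / q = x i := by
    intro i
    obtain ⟨c, hc⟩ := Finset.dvd_prod_of_mem (fun i => (x i).den) (Finset.mem_univ i)
    have hc' : q = (x i).den * c := hc
    have hnum : 0 < (x i).num := Rat.num_pos.2 (hpos i)
    have hc0 : c ≠ 0 := by
      rintro rfl
      rw [mul_zero] at hc'
      omega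
    refine ⟨(x i).num.toNat * c, ?_, ?_⟩
    · have h1 : 1 ≤ (x i).num.toNat := by omega
      exact Nat.one_le_iff_ne_zero.2 (Nat.mul_ne_zero (by omega) hc0)
    · have h2 : (((x i).num.toNat : ℕ) : ℝ) = ((x i).num : ℝ) := by
        have : (((x i).num.toNat : ℕ) : ℤ) = (x i).num := Int.toNat_of_nonneg hnum.le
        exact_mod_cast this
      have h3 : ((x i : ℚ) : ℝ) = ((x i).num : ℝ) / ((x i).den : ℝ) := by
        exact_mod_cast (Rat.num_div_den (x i)).symm
      rw [hc', h3]
      push_cast
      rw [h2]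
      have : ((x i).den : ℝ) ≠ 0 := by exact_mod_cast (x i).den_ne_zero
      have : (c : ℝ) ≠ 0 := by exact_mod_cast hc0
      field_simp
  choose mm hmm using hm
  have hinj' : Function.Injective mm := by
    intro i j hij
    apply hinj
    have h1 := (hmm i).2
    rw [hij, (hmm j).2] at h1
    exact_mod_cast h1.symm
  have hmeas := EE_meas J k mm hinj' (fun i => (hmm i).1) hq
  set θ : Option (Fin J × Fin k) → ℝ := fun o =>
      o.elim (Real.exp (-1 / q)) (fun p => EE (p.1 + 1) ((mm p.2 : ℝ) / q)) with hθ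
  have halg : AlgebraicIndependent ℤ
      (Sum.elim (fun _ : Unit => Real.exp 1) (fun p : Fin J × Fin k => EE (p.1 + 1) (x p.2))) := by
    have h1 := EE_alg_fin J x hinj hpos
    have h2 := (h1.comp (fun s : Unit ⊕ (Fin J × Fin k) => Sum.elim (fun _ => none) (fun p => some p) s) (by
      rintro (a | a) (b | b) h
      · rfl
      · exact absurd h (by simp)
      · exact absurd h (by simp)
      · simp only [Sum.elim_inr, Option.some.injEq] at h
        rw [h]))
    have h3 := h2.restrictScalars (R := ℤ) (by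
      intro a b hab
      simpa using hab)
    convert h3 using 1
    funext s
    rcases s with s | s <;> rfl
  have hexp : Real.exp (-1 / q) ^ q * Real.exp 1 = 1 := by
    rw [← Real.exp_nat_mul, ← Real.exp_add]
    have h1 : (q : ℝ) * (-1 / q) + 1 = 0 := by field_simp; ring
    rw [h1, Real.exp_zero]
  refine hmeas.rat (b := X none ^ q) (pow_ne_zero _ (MvPolynomial.X_ne_zero _))
    (Sum.elim (fun _ => 1) fun p => X none ^ q * X (some p)) _ ?_ halg
  rintro (s | p)
  · simp only [Sum.elim_inl, map_pow, MvPolynomial.aeval_X, map_one]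
    exact hexp
  · simp only [Sum.elim_inr, map_mul, map_pow, MvPolynomial.aeval_X]
    congr 1
    show EE (p.1 + 1) (x p.2) = EE (p.1 + 1) ((mm p.2 : ℝ) / q)
    rw [(hmm p.2).2]

end Pool.Agent.N778.EM
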