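import Pool.Agent.N778.EM.Tame
import Pool.Agent.N778.EM.Fam

/-!
# Elimination with measures
-/

set_option autoImplicit false

open Finset

namespace Pool.Agent.N778.EM

open MvPolynomial

section small

variable {Λ : Type} (H ε : Λ → ℝ)

/-- a family of real numbers which is a polynomially bounded multiple of `ε` -/
def Sm (x : Λ → ℝ) : Prop := ∃ κ : ℕ, ∃ C : ℝ, 0 ≤ C ∧ ∀ l, |x l| ≤ C * H l ^ κ * ε l

variable {H ε}

lemma Sm.congr {x y : Λ → ℝ} (hx : Sm H ε x) (h : ∀ l, x l = y l) : Sm H ε y := by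
  obtain ⟨κ, C, hC, h1⟩ := hx
  exact ⟨κ, C, hC, fun l => by rw [← h l]; exact h1 l⟩

lemma Sm.zero : Sm H ε fun _ => 0 :=
  ⟨0, 0, le_rfl, fun l => by simp⟩

lemma Sm.mul {x y : Λ → ℝ} (hx : TR H x) (hy : Sm H ε y) : Sm H ε fun l => x l * y l := by
  obtain ⟨κ, C, hC, h1⟩ := hx
  obtain ⟨κ', C', hC', h2⟩ := hy
  refine ⟨κ + κ', C * C', by positivity, fun l => ?_⟩
  rw [abs_mul]
  calc |x l| * |y l| ≤ (C * H l ^ κ) * (C' * H l ^ κ' * ε l) :=
        mul_le_mul (h1 l) (h2 l) (abs_nonneg _) ((abs_nonneg _).trans (h1 l))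
    _ = _ := by rw [pow_add]; ring

variable (hH : ∀ l, 1 ≤ H l) (hε : ∀ l, 0 ≤ ε l)

include hH hε

lemma Sm.add {x y : Λ → ℝ} (hx : Sm H ε x) (hy : Sm H ε y) : Sm H ε fun l => x l + y l := by
  obtain ⟨κ, C, hC, h1⟩ := hx
  obtain ⟨κ', C', hC', h2⟩ := hy
  refine ⟨max κ κ', C + C', by positivity, fun l => (abs_add_le _ _).trans ?_⟩
  have h3 : H l ^ κ ≤ H l ^ max κ κ' := pow_le_pow_right₀ (hH l) (le_max_left _ _)
  have h4 : H l ^ κ' ≤ H l ^ max κ κ' := pow_le_pow_right₀ (hH l) (le_max_right _ _)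
  rw [add_mul, add_mul]
  exact add_le_add ((h1 l).trans (mul_le_mul_of_nonneg_right (mul_le_mul_of_nonneg_left h3 hC) (hε l)))
    ((h2 l).trans (mul_le_mul_of_nonneg_right (mul_le_mul_of_nonneg_left h4 hC') (hε l)))

lemma Sm.sum {κ : Type*} (t : Finset κ) (x : κ → Λ → ℝ) (hx : ∀ i ∈ t, Sm H ε (x i)) :
    Sm H ε fun l => ∑ i ∈ t, x i l := by
  classical
  induction t using Finset.induction_on with
  | empty => simpa using Sm.zero (H := H) (ε := ε)
  | insert a t ha ih =>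
    simp only [Finset.sum_insert ha]
    exact Sm.add hH hε (hx a (Finset.mem_insert_self _ _)) (ih fun i hi => hx i (Finset.mem_insert_of_mem hi))

end small

section act

variable {Λ : Type} {ι K : Type} [Finite ι] [Fintype K] [DecidableEq K]

/-- multiplication by the numbers `g l` is given, up to a tame multiple of `ε`, by the matrices `M l` -/
structure Act (H : Λ → ℝ) (θ : ι → ℝ) (v : K → ℝ) (ε : Λ → ℝ) (g : Λ → ℝ)
    (M : Λ → Matrix K K (MvPolynomial ι ℤ)) : Prop where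
  tg : TR H g
  tM : ∀ i j, TP H fun l => M l i j
  err : ∀ k, Sm H ε fun l => g l * v k - ∑ j, aeval θ (M l k j) * v j

variable {H ε : Λ → ℝ} {θ : ι → ℝ} {v : K → ℝ} (hH : ∀ l, 1 ≤ H l) (hε : ∀ l, 0 ≤ ε l)

include hH hε

omit [DecidableEq K] in
lemma Act.add {g g' : Λ → ℝ} {M M' : Λ → Matrix K K (MvPolynomial ι ℤ)} (h : Act H θ v ε g M)
    (h' : Act H θ v ε g' M') : Act H θ v ε (fun l => g l + g' l) (fun l => M l + M' l) := by
  refine ⟨TR.add hH h.tg h'.tg, fun i j => TP.add hH (h.tM i j) (h'.tM i j), fun k => ?_⟩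
  refine (Sm.add hH hε (h.err k) (h'.err k)).congr fun l => ?_
  simp only [Matrix.add_apply, map_add, add_mul, Finset.sum_add_distrib]
  ring

omit [DecidableEq K] in
lemma Act.mul {g g' : Λ → ℝ} {M M' : Λ → Matrix K K (MvPolynomial ι ℤ)} (h : Act H θ v ε g M)
    (h' : Act H θ v ε g' M') : Act H θ v ε (fun l => g l * g' l) (fun l => M l * M' l) := by
  refine ⟨TR.mul h.tg h'.tg, fun i j => ?_, fun k => ?_⟩
  · simp only [Matrix.mul_apply]
    exact TP.sum hH _ _ fun a _ => TP.mul (h.tM i a) (h'.tM a j)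
  · have h1 : Sm H ε fun l => g' l * (g l * v k - ∑ j, aeval θ (M l k j) * v j) := Sm.mul h'.tg (h.err k)
    have h2 : Sm H ε fun l => ∑ j, aeval θ (M l k j) * (g' l * v j - ∑ i, aeval θ (M' l j i) * v i) :=
      Sm.sum hH hε _ _ fun j _ => Sm.mul (TP.eval (h.tM k j) θ) (h'.err j)
    refine (Sm.add hH hε h1 h2).congr fun l => ?_
    have h3 : ∑ j, aeval θ ((M l * M' l) k j) * v j =
        ∑ j, aeval θ (M l k j) * ∑ i, aeval θ (M' l j i) * v i := by
      simp only [Matrix.mul_apply, map_sum, map_mul, Finset.sum_mul, Finset.mul_sum]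
      rw [Finset.sum_comm]
      refine Finset.sum_congr rfl fun j _ => Finset.sum_congr rfl fun i _ => ?_
      ring
    rw [h3]
    have h4 : ∑ j, aeval θ (M l k j) * (g' l * v j - ∑ i, aeval θ (M' l j i) * v i) =
        g' l * ∑ j, aeval θ (M l k j) * v j - ∑ j, aeval θ (M l k j) * ∑ i, aeval θ (M' l j i) * v i := by
      rw [Finset.mul_sum, ← Finset.sum_sub_distrib]
      refine Finset.sum_congr rfl fun j _ => ?_
      ring
    rw [h4]
    ring

lemma Act.scalar {F : Λ → MvPolynomial ι ℤ} (hF : TP H F) :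
    Act H θ v ε (fun l => aeval θ (F l)) (fun l => (F l) • (1 : Matrix K K (MvPolynomial ι ℤ))) := by
  refine ⟨TP.eval hF θ, fun i j => ?_, fun k => ?_⟩
  · simp only [Matrix.smul_apply, smul_eq_mul, Matrix.one_apply]
    by_cases hij : i = j
    · simpa [hij] using hF
    · simpa [hij] using TP.const (H := H) (0 : MvPolynomial ι ℤ)
  · refine Sm.zero.congr fun l => ?_
    simp only [Matrix.smul_apply, smul_eq_mul, Matrix.one_apply, mul_ite, mul_one, mul_zero]
    rw [Finset.sum_eq_single k]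
    · simp
    · intro j _ hj
      rw [if_neg (Ne.symm hj)]
      simp
    · intro h
      exact absurd (Finset.mem_univ _) h

/-- after multiplication with a power of `p` -/
def PAct (H : Λ → ℝ) (θ : ι → ℝ) (v : K → ℝ) (ε : Λ → ℝ) (p : Λ → MvPolynomial ι ℤ) (g : Λ → ℝ) : Prop :=
  ∃ E : ℕ, ∃ M : Λ → Matrix K K (MvPolynomial ι ℤ), Act H θ v ε (fun l => aeval θ (p l) ^ E * g l) M

lemma Act.lift {p : Λ → MvPolynomial ι ℤ} (hp : TP H p) {g : Λ → ℝ} {M : Λ → Matrix K K (MvPolynomial ι ℤ)}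
    (h : Act H θ v ε g M) (n : ℕ) : ∃ M' : Λ → Matrix K K (MvPolynomial ι ℤ),
      Act H θ v ε (fun l => aeval θ (p l) ^ n * g l) M' := by
  have h1 := Act.mul hH hε (Act.scalar (θ := θ) (v := v) hH hε (TP.pow hp n)) h
  simp only [map_pow] at h1
  exact ⟨_, h1⟩

lemma PAct.add {p : Λ → MvPolynomial ι ℤ} (hp : TP H p) {g g' : Λ → ℝ} (h : PAct (K := K) H θ v ε p g)
    (h' : PAct H θ v ε p g') : PAct H θ v ε p fun l => g l + g' l := by
  obtain ⟨E, M, h⟩ := h
  obtain ⟨E', M', h'⟩ := h'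
  obtain ⟨N, hN⟩ := Act.lift hH hε hp h E'
  obtain ⟨N', hN'⟩ := Act.lift hH hε hp h' E
  have h3 := Act.add hH hε hN hN'
  have h4 : (fun l => aeval θ (p l) ^ E' * (aeval θ (p l) ^ E * g l) + aeval θ (p l) ^ E * (aeval θ (p l) ^ E' * g' l)) =
      (fun l => aeval θ (p l) ^ (E + E') * (g l + g' l)) := by
    funext l
    ring
  rw [h4] at h3
  exact ⟨E + E', _, h3⟩

lemma PAct.mul {p : Λ → MvPolynomial ι ℤ} {g g' : Λ → ℝ} (h : PAct (K := K) H θ v ε p g)
    (h' : PAct H θ v ε p g') : PAct H θ v ε p fun l => g l * g' l := by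
  obtain ⟨E, M, h⟩ := h
  obtain ⟨E', M', h'⟩ := h'
  have h3 := Act.mul hH hε h h'
  have h4 : (fun l => (aeval θ (p l) ^ E * g l) * (aeval θ (p l) ^ E' * g' l)) =
      (fun l => aeval θ (p l) ^ (E + E') * (g l * g' l)) := by
    funext l
    ring
  rw [h4] at h3
  exact ⟨E + E', _, h3⟩

lemma PAct.scalar {p F : Λ → MvPolynomial ι ℤ} (hF : TP H F) :
    PAct (K := K) H θ v ε p fun l => aeval θ (F l) := by
  have h1 := Act.scalar (K := K) (θ := θ) (v := v) hH hε hF
  exact ⟨0, _, by simpa only [pow_zero, one_mul] using h1⟩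

/-- polynomials in the numbers `θ` and `u` -/
lemma PAct.poly {ν : Type} {p : Λ → MvPolynomial ι ℤ} (hp : TP H p) {u : ν → ℝ}
    (hu : ∀ i, PAct (K := K) H θ v ε p fun _ => u i) (G : MvPolynomial (ι ⊕ ν) ℤ) :
    PAct (K := K) H θ v ε p fun _ => aeval (Sum.elim θ u) G := by
  induction G using MvPolynomial.induction_on with
  | C a =>
    have h1 := PAct.scalar (K := K) (θ := θ) (v := v) (p := p) hH hε (TP.const (H := H) (C a : MvPolynomial ι ℤ))
    simpa only [MvPolynomial.aeval_C] using h1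
  | add F G hF hG =>
    simpa only [map_add] using PAct.add hH hε hp hF hG
  | mul_X F i hF =>
    have h1 : PAct (K := K) H θ v ε p fun _ => aeval (Sum.elim θ u) (X i : MvPolynomial (ι ⊕ ν) ℤ) := by
      rcases i with i | i
      · have h2 := PAct.scalar (K := K) (θ := θ) (v := v) (p := p) hH hε (TP.const (H := H) (X i : MvPolynomial ι ℤ))
        simpa only [MvPolynomial.aeval_X, Sum.elim_inl] using h2
      · simpa only [MvPolynomial.aeval_X, Sum.elim_inr] using hu i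
    simpa only [map_mul] using PAct.mul hH hε hF h1

end act

end Pool.Agent.N778.EM
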