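import Pool.Agent.N778.EM.Elim

/-!
# Elimination with measures: companion matrices
-/

set_option autoImplicit false

open Finset

namespace Pool.Agent.N778.EM

open MvPolynomial

section comp

variable {ι ν : Type}

/-- the value of a polynomial in one variable with coefficients in `ℤ[ι]` -/
noncomputable def ev2 (θ : ι → ℝ) (x : ℝ) (Q : Polynomial (MvPolynomial ι ℤ)) : ℝ :=
  Q.eval₂ ((aeval θ : MvPolynomial ι ℤ →ₐ[ℤ] ℝ) : MvPolynomial ι ℤ →+* ℝ) x

/-- the entries of the companion matrix -/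
noncomputable def cm (Q : Polynomial (MvPolynomial ι ℤ)) (n : ℕ) (a j : Fin n) : MvPolynomial ι ℤ :=
  if (a : ℕ) + 1 = n then -Q.coeff j else if (j : ℕ) = a + 1 then Q.leadingCoeff else 0

lemma cm_sum (θ : ι → ℝ) (x : ℝ) (Q : Polynomial (MvPolynomial ι ℤ)) (n : ℕ) (hn : Q.natDegree = n) (a : Fin n) :
    aeval θ Q.leadingCoeff * x * x ^ (a : ℕ) - ∑ j : Fin n, aeval θ (cm Q n a j) * x ^ (j : ℕ) =
      if (a : ℕ) + 1 = n then ev2 θ x Q else 0 := by
  by_cases ha : (a : ℕ) + 1 = n
  · rw [if_pos ha, ev2, Polynomial.eval₂_eq_sum_range, hn, Finset.sum_range_succ]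
    simp only [cm, if_pos ha, map_neg, neg_mul, Finset.sum_neg_distrib, sub_neg_eq_add]
    have h1 : Q.leadingCoeff = Q.coeff n := by rw [Polynomial.leadingCoeff, hn]
    have h2 : x ^ n = x * x ^ (a : ℕ) := by
      conv_lhs => rw [← ha, pow_succ']
    rw [Finset.sum_range, add_comm, h1, h2, mul_assoc]
    rfl
  · rw [if_neg ha]
    simp only [cm, if_neg ha]
    have ha2 : (a : ℕ) + 1 < n := by have := a.2; omega
    rw [Finset.sum_eq_single (⟨a + 1, ha2⟩ : Fin n)]
    · simp only [if_true]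
      ring
    · intro j _ hj
      rw [if_neg, map_zero, zero_mul]
      intro h
      exact hj (Fin.ext h)
    · intro h
      exact absurd (Finset.mem_univ _) h

variable [Fintype ν] [DecidableEq ν]

/-- the vector of the monomials -/
noncomputable def vv (d : ν → ℕ) (u : ν → ℝ) (k : (i : ν) → Fin (d i)) : ℝ := ∏ i, u i ^ (k i : ℕ)

/-- the matrix of the multiplication by `u i` -/
noncomputable def XM (d : ν → ℕ) (Q : Polynomial (MvPolynomial ι ℤ)) (i : ν) :
    Matrix ((i : ν) → Fin (d i)) ((i : ν) → Fin (d i)) (MvPolynomial ι ℤ) :=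
  fun k k' => ∑ j : Fin (d i), if Function.update k i j = k' then cm Q (d i) (k i) j else 0

lemma XM_sum (θ : ι → ℝ) (u : ν → ℝ) (d : ν → ℕ) (Q : Polynomial (MvPolynomial ι ℤ)) (i : ν)
    (hn : Q.natDegree = d i) (k : (i : ν) → Fin (d i)) :
    aeval θ Q.leadingCoeff * u i * vv d u k - ∑ k', aeval θ (XM d Q i k k') * vv d u k' =
      (∏ a ∈ univ.erase i, u a ^ (k a : ℕ)) * if (k i : ℕ) + 1 = d i then ev2 θ (u i) Q else 0 := by
  have h1 : ∑ k', aeval θ (XM d Q i k k') * vv d u k' =
      ∑ j : Fin (d i), aeval θ (cm Q (d i) (k i) j) * vv d u (Function.update k i j) := by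
    simp only [XM, map_sum, Finset.sum_mul]
    rw [Finset.sum_comm]
    refine Finset.sum_congr rfl fun j _ => ?_
    rw [Finset.sum_eq_single (Function.update k i j)]
    · rw [if_pos rfl]
    · intro b _ hb
      rw [if_neg (Ne.symm hb), map_zero, zero_mul]
    · intro h
      exact absurd (Finset.mem_univ _) h
  have h2 : ∀ k : (i : ν) → Fin (d i), vv d u k = u i ^ (k i : ℕ) * ∏ a ∈ univ.erase i, u a ^ (k a : ℕ) := by
    intro k
    rw [vv, Finset.mul_prod_erase univ (fun a => u a ^ (k a : ℕ)) (Finset.mem_univ i)]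
  have h3 : ∀ j : Fin (d i), vv d u (Function.update k i j) =
      u i ^ (j : ℕ) * ∏ a ∈ univ.erase i, u a ^ (k a : ℕ) := by
    intro j
    rw [h2, Function.update_self]
    congr 1
    refine Finset.prod_congr rfl fun a ha => ?_
    rw [Function.update_of_ne (Finset.ne_of_mem_erase ha)]
  rw [h1, h2 k, ← cm_sum θ (u i) Q (d i) hn (k i)]
  simp only [h3]
  rw [mul_sub, Finset.mul_sum]
  congr 1
  · ring
  · refine Finset.sum_congr rfl fun j _ => ?_
    ring

variable [Finite ι] {Λ : Type} {H : Λ → ℝ} (hH : ∀ l, 1 ≤ H l)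

include hH

lemma act_X (θ : ι → ℝ) (u : ν → ℝ) (d : ν → ℕ) (P : Λ → ν → Polynomial (MvPolynomial ι ℤ))
    (hn : ∀ l i, (P l i).natDegree = d i) (hT : ∀ i j, TP H fun l => (P l i).coeff j) (i : ν) :
    Act H θ (vv d u) (fun l => ∑ i, |ev2 θ (u i) (P l i)|) (fun l => aeval θ (P l i).leadingCoeff * u i)
      (fun l => XM d (P l i) i) := by
  have hlead : TP H fun l => (P l i).leadingCoeff := by
    have h1 := hT i (d i)
    have h2 : (fun l => (P l i).leadingCoeff) = fun l => (P l i).coeff (d i) := by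
      funext l
      rw [Polynomial.leadingCoeff, hn]
    rw [h2]
    exact h1
  refine ⟨TR.mul (TP.eval hlead θ) (TR.const _), fun k k' => ?_, fun k => ?_⟩
  · simp only [XM]
    refine TP.sum hH _ _ fun j _ => ?_
    by_cases h1 : Function.update k i j = k'
    · simp only [if_pos h1, cm]
      by_cases h2 : (k i : ℕ) + 1 = d i
      · simp only [if_pos h2]
        exact (hT i j).neg
      · simp only [if_neg h2]
        by_cases h3 : (j : ℕ) = (k i : ℕ) + 1
        · simp only [if_pos h3]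
          exact hlead
        · simp only [if_neg h3]
          exact TP.const _
    · simp only [if_neg h1]
      exact TP.const _
  · refine ⟨0, |∏ a ∈ univ.erase i, u a ^ (k a : ℕ)|, abs_nonneg _, fun l => ?_⟩
    simp only [XM_sum θ u d (P l i) i (hn l i) k, abs_mul, pow_zero, mul_one]
    refine mul_le_mul_of_nonneg_left ?_ (abs_nonneg _)
    have h0 : 0 ≤ ∑ i, |ev2 θ (u i) (P l i)| := Finset.sum_nonneg fun _ _ => abs_nonneg _
    split_ifs
    · exact Finset.single_le_sum (f := fun i => |ev2 θ (u i) (P l i)|) (fun _ _ => abs_nonneg _) (Finset.mem_univ i)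
    · simpa using h0

lemma pact_X (θ : ι → ℝ) (u : ν → ℝ) (d : ν → ℕ) (P : Λ → ν → Polynomial (MvPolynomial ι ℤ))
    (hn : ∀ l i, (P l i).natDegree = d i) (hT : ∀ i j, TP H fun l => (P l i).coeff j) (i : ν) :
    PAct (K := (i : ν) → Fin (d i)) H θ (vv d u) (fun l => ∑ i, |ev2 θ (u i) (P l i)|)
      (fun l => ∏ i, (P l i).leadingCoeff) (fun _ => u i) := by
  have hlead : ∀ i, TP H fun l => (P l i).leadingCoeff := by
    intro i
    have h1 := hT i (d i)
    have h2 : (fun l => (P l i).leadingCoeff) = fun l => (P l i).coeff (d i) := by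
      funext l
      rw [Polynomial.leadingCoeff, hn]
    rw [h2]
    exact h1
  have hε : ∀ l, 0 ≤ ∑ i, |ev2 θ (u i) (P l i)| := fun l => Finset.sum_nonneg fun _ _ => abs_nonneg _
  have h1 := act_X hH θ u d P hn hT i
  have h2 := Act.mul hH hε (Act.scalar (θ := θ) (v := vv d u) hH hε
    (TP.prod (univ.erase i) (fun a l => (P l a).leadingCoeff) fun a _ => hlead a)) h1
  have h3 : (fun l => aeval θ (∏ a ∈ univ.erase i, (P l a).leadingCoeff) * (aeval θ (P l i).leadingCoeff * u i)) =
      fun l => aeval θ (∏ i, (P l i).leadingCoeff) ^ 1 * u i := by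
    funext l
    rw [pow_one, ← Finset.mul_prod_erase univ (fun a => (P l a).leadingCoeff) (Finset.mem_univ i), map_mul]
    ring
  rw [h3] at h2
  exact ⟨1, _, h2⟩

end comp

end Pool.Agent.N778.EM
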