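import Pool.Agent.N778.EM.Elim2

/-!
# Elimination with measures: the theorem
-/

set_option autoImplicit false

open Finset

namespace Pool.Agent.N778.EM

open MvPolynomial

/-- measures for tame families -/
lemma MeasF.tame {ι : Type} {θ : ι → ℝ} (hθ : MeasF θ) {Λ : Type} {H : Λ → ℝ} (hH : ∀ l, 1 ≤ H l)
    {F : Λ → MvPolynomial ι ℤ} (hF : TP H F) (hne : ∀ l, F l ≠ 0) :
    ∃ κ : ℕ, ∃ c : ℝ, 0 < c ∧ ∀ l, c ≤ H l ^ κ * |aeval θ (F l)| := by
  obtain ⟨⟨D, hD⟩, κ₁, C, hC, h1⟩ := hF
  obtain ⟨κ₂, c, hc, h2⟩ := hθ D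
  refine ⟨κ₁ * κ₂, c / (1 + C) ^ κ₂, by positivity, fun l => ?_⟩
  have h3 : 1 ≤ H l ^ κ₁ := one_le_pow₀ (hH l)
  have h4 : (1 : ℝ) ≤ (1 + C) * H l ^ κ₁ := by nlinarith
  have h5 := h2 (F l) (hne l) (hD l) ((1 + C) * H l ^ κ₁) h4 (fun s => by
    have h6 := h1 l
    have h7 := coeff_le_len (F l) s
    have h8 := le_abs_self (len (F l))
    nlinarith)
  rw [div_le_iff₀ (by positivity)]
  refine h5.trans (le_of_eq ?_)
  rw [mul_pow, pow_mul]
  ring

section

variable {ι K : Type} [Fintype K] [DecidableEq K]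

lemma optL_rename (F : MvPolynomial ι ℤ) :
    MvPolynomial.optionEquivLeft ℤ ι (rename some F) = Polynomial.C F := by
  induction F using MvPolynomial.induction_on with
  | C a => rw [MvPolynomial.rename_C, MvPolynomial.optionEquivLeft_C]
  | add F G hF hG => rw [map_add, map_add, hF, hG, map_add]
  | mul_X F i hF => rw [map_mul, map_mul, hF, MvPolynomial.rename_X, MvPolynomial.optionEquivLeft_X_some, map_mul]

/-- the matrix of the elimination -/
noncomputable def BM (q : MvPolynomial ι ℤ) (M : Matrix K K (MvPolynomial ι ℤ)) :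
    Matrix K K (MvPolynomial (Option ι) ℤ) :=
  fun k j => (if k = j then X none * rename some q else 0) - rename some (M k j)

lemma BM_det_ne (q : MvPolynomial ι ℤ) (hq : q ≠ 0) (M : Matrix K K (MvPolynomial ι ℤ)) :
    (BM q M).det ≠ 0 := by
  intro h0
  have h1 : MvPolynomial.optionEquivLeft ℤ ι (BM q M).det =
      ((Polynomial.X : Polynomial (MvPolynomial ι ℤ)) • (q • (1 : Matrix K K (MvPolynomial ι ℤ))).map Polynomial.C +
        (-M).map Polynomial.C).det := by
    rw [AlgEquiv.map_det]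
    congr 1
    ext k j : 2
    simp only [AlgEquiv.mapMatrix_apply, Matrix.map_apply, BM, map_sub, optL_rename, Matrix.add_apply,
      Matrix.smul_apply, Matrix.neg_apply, smul_eq_mul, Matrix.one_apply, map_neg]
    by_cases hkj : k = j
    · simp only [if_pos hkj, map_mul, MvPolynomial.optionEquivLeft_X_none, optL_rename, mul_one]
      ring
    · simp only [if_neg hkj, map_zero, mul_zero]
      ring
  have h2 := Polynomial.coeff_det_X_add_C_card (q • (1 : Matrix K K (MvPolynomial ι ℤ))) (-M)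
  rw [← h1, h0, map_zero, Polynomial.coeff_zero, Matrix.det_smul, Matrix.det_one, mul_one] at h2
  exact pow_ne_zero _ hq h2.symm

end

/-- **Elimination.** -/
theorem elim_fam {Λ ι ν : Type} [Finite ι] [Fintype ν] [DecidableEq ν] {H : Λ → ℝ} (hH : ∀ l, 1 ≤ H l)
    (θ : ι → ℝ) (θ₀ : ℝ) (hθ : MeasF (fun o : Option ι => o.elim θ₀ θ)) (u : ν → ℝ)
    {b : MvPolynomial ι ℤ} (hb : b ≠ 0) (G : MvPolynomial (ι ⊕ ν) ℤ)
    (hG : aeval θ b * θ₀ = aeval (Sum.elim θ u) G) (d : ν → ℕ) (hd : ∀ i, 1 ≤ d i)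
    (P : Λ → ν → Polynomial (MvPolynomial ι ℤ)) (hn : ∀ l i, (P l i).natDegree = d i)
    (hT : ∀ i j, TP H fun l => (P l i).coeff j) :
    ∃ κ : ℕ, ∃ c : ℝ, 0 < c ∧ ∀ l, c ≤ H l ^ κ * ∑ i, |ev2 θ (u i) (P l i)| := by
  classical
  have hε : ∀ l, 0 ≤ ∑ i, |ev2 θ (u i) (P l i)| := fun l => Finset.sum_nonneg fun _ _ => abs_nonneg _
  set p : Λ → MvPolynomial ι ℤ := fun l => ∏ i, (P l i).leadingCoeff with hp
  have hlead : ∀ i, TP H fun l => (P l i).leadingCoeff := by
    intro i
    have h1 := hT i (d i)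
    have h2 : (fun l => (P l i).leadingCoeff) = fun l => (P l i).coeff (d i) := by
      funext l
      rw [Polynomial.leadingCoeff, hn]
    rw [h2]
    exact h1
  have hpT : TP H p := TP.prod univ (fun a l => (P l a).leadingCoeff) fun a _ => hlead a
  have hp0 : ∀ l, p l ≠ 0 := by
    intro l
    refine Finset.prod_ne_zero_iff.2 fun i _ => ?_
    rw [Polynomial.leadingCoeff_ne_zero]
    intro h0
    have h1 := hn l i
    rw [h0, Polynomial.natDegree_zero] at h1
    have := hd i
    omega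
  obtain ⟨E, M, hA⟩ := PAct.poly (K := (i : ν) → Fin (d i)) (θ := θ) (v := vv d u) hH hε hpT
    (fun i => pact_X hH θ u d P hn hT i) G
  set Θ : Option ι → ℝ := fun o => o.elim θ₀ θ with hΘ
  have hren : ∀ F : MvPolynomial ι ℤ, aeval Θ (rename some F) = aeval θ F := by
    intro F
    rw [MvPolynomial.aeval_rename]
    rfl
  set B : Λ → Matrix ((i : ν) → Fin (d i)) ((i : ν) → Fin (d i)) (MvPolynomial (Option ι) ℤ) :=
    fun l => BM (p l ^ E * b) (M l) with hB
  have hBT : ∀ i j, TP H fun l => B l i j := by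
    intro i j
    simp only [hB, BM, sub_eq_add_neg]
    refine TP.add hH ?_ ((hA.tM i j).rename _).neg
    by_cases hij : i = j
    · simp only [if_pos hij]
      exact TP.mul (TP.const _) (TP.rename (TP.mul (TP.pow hpT E) (TP.const _)) _)
    · simp only [if_neg hij]
      exact TP.const _
  have hBv : ∀ k, Sm H (fun l => ∑ i, |ev2 θ (u i) (P l i)|) fun l => ∑ j, aeval Θ (B l k j) * vv d u j := by
    intro k
    refine (hA.err k).congr fun l => ?_
    simp only [hB, BM, map_sub, hren, sub_mul, Finset.sum_sub_distrib]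
    congr 1
    rw [Finset.sum_eq_single k]
    · simp only [if_true, map_mul, MvPolynomial.aeval_X, hren, map_pow]
      have : Θ none = θ₀ := rfl
      rw [this, ← hG]
      ring
    · intro j _ hj
      rw [if_neg (Ne.symm hj), map_zero, zero_mul]
    · intro h
      exact absurd (Finset.mem_univ _) h
  -- the adjugate
  have hadj : ∀ i j, TP H fun l => (B l).adjugate i j := by
    intro i j
    simp only [Matrix.adjugate_apply]
    refine TP.det hH _ fun a a' => ?_
    by_cases ha : a = j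
    · simp only [ha, Matrix.updateRow_self]
      exact TP.const _
    · simp only [Matrix.updateRow_ne ha]
      exact hBT a a'
  set k₀ : (i : ν) → Fin (d i) := fun i => ⟨0, hd i⟩ with hk₀
  have hv1 : vv d u k₀ = 1 := by
    rw [vv]
    exact Finset.prod_eq_one fun i _ => by simp [hk₀]
  have hdet : Sm H (fun l => ∑ i, |ev2 θ (u i) (P l i)|) fun l => aeval Θ (B l).det := by
    have h1 : Sm H (fun l => ∑ i, |ev2 θ (u i) (P l i)|) fun l =>
        ∑ k, aeval Θ ((B l).adjugate k₀ k) * ∑ j, aeval Θ (B l k j) * vv d u j :=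
      Sm.sum hH hε _ _ fun k _ => Sm.mul (TP.eval (hadj k₀ k) Θ) (hBv k)
    refine h1.congr fun l => ?_
    have h2 : ∀ j, ∑ k, aeval Θ ((B l).adjugate k₀ k) * aeval Θ (B l k j) =
        if k₀ = j then aeval Θ (B l).det else 0 := by
      intro j
      have h3 := congrFun (congrFun (Matrix.adjugate_mul (B l)) k₀) j
      rw [Matrix.mul_apply] at h3
      have h4 := congrArg (aeval Θ) h3
      rw [map_sum] at h4
      simp only [map_mul] at h4
      rw [h4, Matrix.smul_apply, smul_eq_mul, Matrix.one_apply]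
      split_ifs <;> simp
    calc ∑ k, aeval Θ ((B l).adjugate k₀ k) * ∑ j, aeval Θ (B l k j) * vv d u j
        = ∑ j, (∑ k, aeval Θ ((B l).adjugate k₀ k) * aeval Θ (B l k j)) * vv d u j := by
          simp only [Finset.mul_sum, Finset.sum_mul]
          rw [Finset.sum_comm]
          refine Finset.sum_congr rfl fun j _ => Finset.sum_congr rfl fun k _ => ?_
          ring
      _ = aeval Θ (B l).det := by
          simp only [h2]
          rw [Finset.sum_eq_single k₀]
          · rw [if_pos rfl, hv1, mul_one]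
          · intro j _ hj
            rw [if_neg (Ne.symm hj), zero_mul]
          · intro h
            exact absurd (Finset.mem_univ _) h
  have hne : ∀ l, (B l).det ≠ 0 := fun l => BM_det_ne _ (mul_ne_zero (pow_ne_zero _ (hp0 l)) hb) _
  obtain ⟨κ₁, c, hc, h1⟩ := hθ.tame hH (TP.det hH B hBT) hne
  obtain ⟨κ₂, C, hC, h2⟩ := hdet
  refine ⟨κ₁ + κ₂, c / (1 + C), by positivity, fun l => ?_⟩
  have h3 := h1 l
  have h4 := h2 l
  have hHl := hH l
  rw [div_le_iff₀ (by positivity)]
  have h5 : 0 ≤ H l ^ κ₂ * ∑ i, |ev2 θ (u i) (P l i)| := mul_nonneg (by positivity) (hε l)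
  have h6 : |aeval Θ (B l).det| ≤ (1 + C) * (H l ^ κ₂ * ∑ i, |ev2 θ (u i) (P l i)|) := by nlinarith
  calc c ≤ H l ^ κ₁ * |aeval Θ (B l).det| := h3
    _ ≤ H l ^ κ₁ * ((1 + C) * (H l ^ κ₂ * ∑ i, |ev2 θ (u i) (P l i)|)) :=
      mul_le_mul_of_nonneg_left h6 (by positivity)
    _ = _ := by rw [pow_add]; ring

end Pool.Agent.N778.EM
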