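import Pool.Agent.N778.EM.EMeas

/-!
# The general theorem for polynomials in several variables
-/

set_option autoImplicit false

open Set

namespace Pool.Agent.N778.EM

open MvPolynomial Pool.Agent.R352.E

lemma ev2_finSucc {n : ℕ} (θ₀ : Fin n → ℝ) (x : ℝ) (P : MvPolynomial (Fin (n + 1)) ℤ) :
    ev2 θ₀ x (finSuccEquiv ℤ n P) = aeval (Fin.cons x θ₀ : Fin (n + 1) → ℝ) P := by
  rw [ev2]
  induction P using MvPolynomial.induction_on with
  | C a =>
    simp only [finSuccEquiv_apply, eval₂Hom_C, RingHom.comp_apply, Polynomial.eval₂_C]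
    simp
  | add F G hF hG => rw [map_add, Polynomial.eval₂_add, hF, hG, map_add]
  | mul_X F i hF =>
    rw [map_mul, Polynomial.eval₂_mul, hF, map_mul]
    congr 1
    refine Fin.cases ?_ (fun j => ?_) i
    · rw [finSuccEquiv_X_zero, Polynomial.eval₂_X, MvPolynomial.aeval_X, Fin.cons_zero]
    · rw [finSuccEquiv_X_succ, Polynomial.eval₂_C, MvPolynomial.aeval_X, Fin.cons_succ]
      simp

/-- the joint measure of transcendence over `ℚ(θ₀)` -/
def Joint {n : ℕ} (θ₀ : Fin n → ℝ) {ν : Type} (u : ν → ℝ) : Prop :=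
  ∀ D : ℕ, ∃ κ : ℕ, ∃ c : ℝ, 0 < c ∧ ∀ P : ν → MvPolynomial (Fin (n + 1)) ℤ, (∀ i, P i ≠ 0) →
    (∀ i, (P i).totalDegree ≤ D) → ∀ H : ℝ, 1 ≤ H → (∀ i s, |(((P i).coeff s : ℤ) : ℝ)| ≤ H) →
      ∃ i, c ≤ H ^ κ * |aeval (Fin.cons (u i) θ₀ : Fin (n + 1) → ℝ) (P i)|

/-- the general theorem for polynomials in several variables -/
theorem joint_of {n : ℕ} {ι₁ ν κ : Type} [Fintype ι₁] [Fintype ν] [Fintype κ] (θ₀ : Fin n → ℝ) (w : ι₁ → ℝ)
    (hθ : MeasF (Sum.elim θ₀ w)) (u : ν → ℝ) (y : κ → ℝ) (hcard : Fintype.card κ < Fintype.card ι₁)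
    (hw : ∀ j, w j ∈ clF (range θ₀ ∪ range u ∪ range y)) : Joint θ₀ u := by
  classical
  intro D
  obtain ⟨k, c, hc, h⟩ := quant θ₀ w hθ u y hcard hw D
  refine ⟨k, c / (1 + Fintype.card ν), by positivity, fun P hP0 hPD H hH hPH => ?_⟩
  have h1 := h (fun i => finSuccEquiv ℤ n (P i)) (fun i h0 => hP0 i (by
      have := congrArg (finSuccEquiv ℤ n).symm h0
      simpa using this))
    (fun i => by
      rw [natDegree_finSuccEquiv]
      exact (MvPolynomial.degreeOf_le_totalDegree _ _).trans (hPD i))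
    (fun i j => by
      by_cases h0 : (finSuccEquiv ℤ n (P i)).coeff j = 0
      · rw [h0, MvPolynomial.totalDegree_zero]; exact Nat.zero_le _
      · exact (Nat.le_add_right _ _).trans ((totalDegree_coeff_finSuccEquiv_add_le _ _ h0).trans (hPD i)))
    H hH (fun i j s => by
      rw [finSuccEquiv_coeff_coeff]
      exact hPH i _)
  by_contra hcon
  push Not at hcon
  have hHk : 0 < H ^ k := by positivity
  have h2 : H ^ k * ∑ i, |ev2 θ₀ (u i) (finSuccEquiv ℤ n (P i))| ≤
      ∑ _i : ν, c / (1 + Fintype.card ν) := by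
    rw [Finset.mul_sum]
    refine Finset.sum_le_sum fun i _ => ?_
    rw [ev2_finSucc]
    exact (hcon i).le
  rw [Finset.sum_const, Finset.card_univ, nsmul_eq_mul] at h2
  have h3 : (Fintype.card ν : ℝ) * (c / (1 + Fintype.card ν)) < c := by
    rw [mul_div_assoc', div_lt_iff₀ (by positivity)]
    nlinarith
  linarith

/-- monotonicity -/
lemma Joint.mono {n : ℕ} {θ₀ : Fin n → ℝ} {ν ν' : Type} {u : ν → ℝ} {u' : ν' → ℝ} (h : Joint θ₀ u) (g : ν → ν')
    (hg : ∀ i, u' (g i) = u i) : Joint θ₀ u' := by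
  intro D
  obtain ⟨k, c, hc, h1⟩ := h D
  refine ⟨k, c, hc, fun P hP0 hPD H hH hPH => ?_⟩
  obtain ⟨i, hi⟩ := h1 (fun i => P (g i)) (fun i => hP0 _) (fun i => hPD _) H hH (fun i => hPH _)
  exact ⟨g i, by rw [hg]; exact hi⟩

/-- the counting theorem with measures, for constants `con` which together with `γ + log x` and `δ_l(x)` generate
`E_l(x)` -/
theorem joint_main {J c r : ℕ} (con : Fin c → ℝ) (y : Fin r → ℝ)
    (hJ : ∀ l : Fin J, ∀ x : ℚ, 0 < x → ∀ T : Set ℝ, (∀ i, con i ∈ clF T) → Real.exp 1 ∈ clF T →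
      Real.eulerMascheroniConstant + Real.log x ∈ clF T → dl (l + 1) x ∈ clF T → EE (l + 1) x ∈ clF T)
    (S : Finset (Fin c ⊕ Fin r ⊕ (Fin J × ℚ)))
    (hX : ∀ p : Fin J × ℚ, Sum.inr (Sum.inr p) ∈ S → 0 < p.2 ∧
      Real.eulerMascheroniConstant + Real.log p.2 ∈ clF ({Real.exp 1} ∪ range y)) (hcard : c + r < S.card) :
    Joint (fun _ : Fin 1 => Real.exp 1) fun i : S => gval J con y i := by
  classical
  let X : Finset ℚ := S.biUnion fun i => Sum.elim (fun _ => ∅) (Sum.elim (fun _ => ∅) (fun p => {p.2})) i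
  have hXm : ∀ p : Fin J × ℚ, Sum.inr (Sum.inr p) ∈ S → p.2 ∈ X := by
    intro p hp
    exact Finset.mem_biUnion.2 ⟨_, hp, by simp⟩
  have hXp : ∀ x ∈ X, 0 < x ∧ Real.eulerMascheroniConstant + Real.log x ∈ clF ({Real.exp 1} ∪ range y) := by
    intro x hx
    obtain ⟨i, hi, hxi⟩ := Finset.mem_biUnion.1 hx
    rcases i with i | i | p
    · simp at hxi
    · simp at hxi
    · simp at hxi
      subst hxi
      exact hX p hi
  -- the family
  let e := X.equivFin
  have hmeas := EE_meas_fin J (fun i => (e.symm i : ℚ)) (fun i j hij => e.symm.injective (Subtype.ext hij))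
    (fun i => (hXp _ (e.symm i).2).1)
  have hmeas' : MeasF (Sum.elim (fun _ : Fin 1 => Real.exp 1) (fun p : Fin J × X => EE (p.1 + 1) ((p.2 : ℚ) : ℝ))) := by
    have h1 := hmeas.comp (Sum.map (fun _ : Fin 1 => ()) (Prod.map id e) : Fin 1 ⊕ (Fin J × X) → _) (by
      refine Function.Injective.sumMap (fun a b _ => Subsingleton.elim _ _) ?_
      exact Function.Injective.prodMap Function.injective_id e.injective)
    convert h1 using 1
    funext s
    rcases s with s | s
    · rfl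
    · simp
  let κ := Fin c ⊕ Fin r ⊕ (Fin J × X)
  let emb : κ → Fin c ⊕ Fin r ⊕ (Fin J × ℚ) := Sum.map id (Sum.map id (Prod.map id Subtype.val))
  have hemb : Function.Injective emb := by
    refine Function.Injective.sumMap Function.injective_id (Function.Injective.sumMap Function.injective_id ?_)
    exact Function.Injective.prodMap Function.injective_id Subtype.val_injective
  let S' : Finset κ := S.preimage emb hemb.injOn
  have hS'card : S'.card = S.card := by
    rw [Finset.card_preimage, Finset.filter_true_of_mem]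
    intro i hi
    rcases i with i | i | p
    · exact ⟨Sum.inl i, rfl⟩
    · exact ⟨Sum.inr (Sum.inl i), rfl⟩
    · exact ⟨Sum.inr (Sum.inr (p.1, ⟨p.2, hXm p hi⟩)), rfl⟩
  -- the numbers not in `S`
  let yy : {k : κ // k ∉ S'} → ℝ := fun k => gval J con y (emb k.1)
  refine joint_of (κ := {k : κ // k ∉ S'}) _ _ hmeas' _ yy ?_ ?_
  · rw [Fintype.card_subtype_compl (fun k => k ∈ S')]
    have h1 : Fintype.card {k : κ // k ∈ S'} = S.card := by
      rw [Fintype.card_coe, hS'card]
    rw [h1]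
    have h2 : Fintype.card κ = c + (r + J * Fintype.card X) := by
      simp only [κ, Fintype.card_sum, Fintype.card_prod, Fintype.card_fin]
    rw [h2, Fintype.card_prod, Fintype.card_fin]
    have h3 : S.card ≤ c + (r + J * Fintype.card X) := by
      rw [← h2, ← hS'card]
      exact Finset.card_le_univ S'
    omega
  · set T : Set ℝ := range (fun _ : Fin 1 => Real.exp 1) ∪ range (fun i : S => gval J con y i) ∪ range yy with hT
    have he : Real.exp 1 ∈ clF T := subset_clF _ (Or.inl (Or.inl ⟨0, rfl⟩))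
    have hall : ∀ k : κ, gval J con y (emb k) ∈ clF T := by
      intro k
      by_cases hk : k ∈ S'
      · exact subset_clF _ (Or.inl (Or.inr ⟨⟨emb k, Finset.mem_preimage.1 hk⟩, rfl⟩))
      · exact subset_clF _ (Or.inr ⟨⟨k, hk⟩, rfl⟩)
    intro p
    refine hJ p.1 p.2 (hXp p.2 p.2.2).1 _ (fun i => hall (Sum.inl i)) he ?_ (hall (Sum.inr (Sum.inr p)))
    refine (clF_le ?_ : clF ({Real.exp 1} ∪ range y) ≤ clF T) (hXp p.2 p.2.2).2
    rintro z (hz | ⟨i, rfl⟩)
    · rw [mem_singleton_iff.1 hz]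
      exact he
    · exact hall (Sum.inr (Sum.inl i))

end Pool.Agent.N778.EM
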