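import Pool.Agent.N778.EM.Elim4

/-!
# The general theorem: preparations
-/

set_option autoImplicit false

open Finset

namespace Pool.Agent.N778.EM

open MvPolynomial

section small

variable {Λ : Type} {H ε : Λ → ℝ}

lemma Sm.mono {x y : Λ → ℝ} (hx : Sm H ε x) (h : ∀ l, |y l| ≤ |x l|) : Sm H ε y := by
  obtain ⟨κ, C, hC, h1⟩ := hx
  exact ⟨κ, C, hC, fun l => (h l).trans (h1 l)⟩

/-- division -/
lemma Sm.div {x y : Λ → ℝ} (hH : ∀ l, 1 ≤ H l) (hxy : Sm H ε fun l => x l * y l) {c : ℝ} (hc : 0 < c) {κ : ℕ}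
    (hx : ∀ l, c ≤ H l ^ κ * |x l|) : Sm H ε y := by
  obtain ⟨κ', C, hC, h1⟩ := hxy
  refine ⟨κ + κ', C / c, by positivity, fun l => ?_⟩
  have h2 := h1 l
  rw [abs_mul] at h2
  have hHl : 0 < H l ^ κ := pow_pos (lt_of_lt_of_le one_pos (hH l)) _
  have h3 : c * |y l| ≤ H l ^ κ * (C * H l ^ κ' * ε l) := by
    calc c * |y l| ≤ (H l ^ κ * |x l|) * |y l| := mul_le_mul_of_nonneg_right (hx l) (abs_nonneg _)
      _ = H l ^ κ * (|x l| * |y l|) := by ring
      _ ≤ _ := mul_le_mul_of_nonneg_left h2 hHl.le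
  rw [pow_add, div_mul_eq_mul_div, div_mul_eq_mul_div, le_div_iff₀ hc]
  linarith

lemma Sm.restrict {Λ' : Type} (f : Λ' → Λ) {x : Λ → ℝ} (hx : Sm H ε x) :
    Sm (fun l => H (f l)) (fun l => ε (f l)) fun l => x (f l) := by
  obtain ⟨κ, C, hC, h1⟩ := hx
  exact ⟨κ, C, hC, fun l => h1 (f l)⟩

lemma TR.restrict {Λ' : Type} (f : Λ' → Λ) {x : Λ → ℝ} (hx : TR H x) :
    TR (fun l => H (f l)) fun l => x (f l) := by
  obtain ⟨κ, C, hC, h1⟩ := hx
  exact ⟨κ, C, hC, fun l => h1 (f l)⟩

lemma TP.restrict {ι : Type} {Λ' : Type} (f : Λ' → Λ) {x : Λ → MvPolynomial ι ℤ} (hx : TP H x) :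
    TP (fun l => H (f l)) fun l => x (f l) := by
  obtain ⟨⟨D, hD⟩, h1⟩ := hx
  exact ⟨⟨D, fun l => hD (f l)⟩, h1.restrict f⟩

variable (hH : ∀ l, 1 ≤ H l)

include hH

lemma TR.det {n : Type} [Fintype n] [DecidableEq n] (M : Λ → Matrix n n ℝ)
    (h : ∀ i j, TR H fun l => M l i j) : TR H fun l => (M l).det := by
  simp only [Matrix.det_apply']
  refine TR.sum hH _ _ fun σ _ => ?_
  refine TR.mul (TR.const _) (TR.prod _ _ fun i _ => h _ _)

/-- families of polynomials in one variable with tame coefficients -/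
def PT {ι : Type} (H : Λ → ℝ) (Q : Λ → Polynomial (MvPolynomial ι ℤ)) : Prop :=
  ∀ j, TP H fun l => (Q l).coeff j

lemma PT.mul {ι : Type} {Q Q' : Λ → Polynomial (MvPolynomial ι ℤ)} (h : PT H Q) (h' : PT H Q') :
    PT H fun l => Q l * Q' l := by
  intro j
  simp only [Polynomial.coeff_mul]
  exact TP.sum hH _ _ fun a _ => TP.mul (h a.1) (h' a.2)

lemma PT.sum {ι κ : Type} (t : Finset κ) (Q : κ → Λ → Polynomial (MvPolynomial ι ℤ)) (h : ∀ i ∈ t, PT H (Q i)) :
    PT H fun l => ∑ i ∈ t, Q i l := by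
  intro j
  simp only [Polynomial.finsetSum_coeff]
  exact TP.sum hH _ _ fun i hi => h i hi j

omit hH in
lemma PT.const {ι : Type} (Q : Polynomial (MvPolynomial ι ℤ)) : PT H fun _ => Q := fun _ => TP.const _

lemma PT.prod {ι κ : Type} (t : Finset κ) (Q : κ → Λ → Polynomial (MvPolynomial ι ℤ)) (h : ∀ i ∈ t, PT H (Q i)) :
    PT H fun l => ∏ i ∈ t, Q i l := by
  classical
  induction t using Finset.induction_on with
  | empty => simpa using PT.const (H := H) (1 : Polynomial (MvPolynomial ι ℤ))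
  | insert a t ha ih =>
    simp only [Finset.prod_insert ha]
    exact PT.mul hH (h a (Finset.mem_insert_self _ _)) (ih fun i hi => h i (Finset.mem_insert_of_mem hi))

/-- the coefficients of the characteristic polynomial -/
lemma PT.charpoly {ι n : Type} [Fintype n] [DecidableEq n] (M : Λ → Matrix n n (MvPolynomial ι ℤ))
    (h : ∀ i j, TP H fun l => M l i j) : PT H fun l => (M l).charpoly := by
  simp only [Matrix.charpoly, Matrix.det_apply']
  refine PT.sum hH _ _ fun σ _ => PT.mul hH (PT.const _) (PT.prod hH _ _ fun i _ => ?_)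
  intro j
  simp only [Matrix.charmatrix_apply, Polynomial.coeff_sub]
  have h1 : TP H fun l => -((Polynomial.C (M l (σ i) i)).coeff j) := by
    refine TP.neg ?_
    by_cases hj : j = 0
    · subst hj
      simp only [Polynomial.coeff_C_zero]
      exact h _ _
    · simp only [Polynomial.coeff_C, if_neg hj]
      exact TP.const _
  simpa only [sub_eq_add_neg] using TP.add hH (TP.const _) h1

end small

/-- interpolation -/
lemma interp (s : Finset ℝ) : ∃ C : ℝ, 0 ≤ C ∧ ∀ h : Polynomial ℝ, h.natDegree < s.card →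
    |h.eval 0| ≤ ∑ t ∈ s, C * |h.eval t| := by
  classical
  refine ⟨∑ t ∈ s, |(Lagrange.basis s id t).eval 0|, Finset.sum_nonneg fun _ _ => abs_nonneg _, fun h hh => ?_⟩
  have h1 : h = Lagrange.interpolate s id fun i => h.eval (id i) := by
    refine Lagrange.eq_interpolate (Function.injective_id.injOn) ?_
    refine lt_of_le_of_lt Polynomial.degree_le_natDegree ?_
    exact_mod_cast hh
  have h2 : h.eval 0 = ∑ t ∈ s, h.eval t * (Lagrange.basis s id t).eval 0 := by
    conv_lhs => rw [h1, Lagrange.interpolate_apply, Polynomial.eval_finsetSum]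
    refine Finset.sum_congr rfl fun t _ => ?_
    rw [Polynomial.eval_mul, Polynomial.eval_C]
    rfl
  rw [h2]
  refine (Finset.abs_sum_le_sum_abs _ _).trans (Finset.sum_le_sum fun t ht => ?_)
  rw [abs_mul, mul_comm]
  refine mul_le_mul_of_nonneg_right ?_ (abs_nonneg _)
  exact Finset.single_le_sum (f := fun t => |(Lagrange.basis s id t).eval 0|) (fun _ _ => abs_nonneg _) ht

/-- the degree on a line -/
lemma natDegree_line {ι : Type} (L : ι → Polynomial ℝ) (hL : ∀ i, (L i).natDegree ≤ 1) (Q : MvPolynomial ι ℤ)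
    (D : ℕ) (hQ : Q.totalDegree ≤ D) : (aeval L Q).natDegree ≤ D := by
  conv_lhs => rw [MvPolynomial.as_sum Q, map_sum]
  refine Polynomial.natDegree_sum_le_of_forall_le _ _ fun s hs => ?_
  rw [MvPolynomial.aeval_monomial]
  refine Polynomial.natDegree_mul_le.trans ?_
  have h1 : (algebraMap ℤ (Polynomial ℝ) (Q.coeff s)).natDegree = 0 := by
    rw [Polynomial.algebraMap_apply, Polynomial.natDegree_C]
  rw [h1, zero_add]
  refine (Polynomial.natDegree_prod_le _ _).trans ?_
  refine le_trans (Finset.sum_le_sum fun i _ => ?_) ((MvPolynomial.le_totalDegree hs).trans hQ)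
  refine Polynomial.natDegree_pow_le.trans ?_
  calc s i * (L i).natDegree ≤ s i * 1 := Nat.mul_le_mul_left _ (hL i)
    _ = s i := mul_one _

end Pool.Agent.N778.EM
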