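import Pool.Agent.N778.EM.Gen1

/-!
# The general theorem
-/

set_option autoImplicit false

open Finset

namespace Pool.Agent.N778.EM

open MvPolynomial

section

variable {ι₀ ι₁ ν : Type} [Fintype ι₁]

/-- the value of a polynomial in the numbers `w` with coefficients in `ℤ[θ₀, u]` -/
noncomputable def Fv (θ₀ : ι₀ → ℝ) (u : ν → ℝ) (F : MvPolynomial ι₁ (MvPolynomial (ι₀ ⊕ ν) ℤ)) (w : ι₁ → ℝ) : ℝ :=
  ∑ s ∈ F.support, aeval (Sum.elim θ₀ u) (F.coeff s) * ∏ a, w a ^ s a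

/-- the polynomial on a line -/
noncomputable def Fl (θ₀ : ι₀ → ℝ) (u : ν → ℝ) (F : MvPolynomial ι₁ (MvPolynomial (ι₀ ⊕ ν) ℤ)) (w r : ι₁ → ℝ) :
    Polynomial ℝ :=
  ∑ s ∈ F.support, Polynomial.C (aeval (Sum.elim θ₀ u) (F.coeff s)) *
    ∏ a, (Polynomial.C (w a) + Polynomial.C (r a) * Polynomial.X) ^ s a

lemma Fl_eval (θ₀ : ι₀ → ℝ) (u : ν → ℝ) (F : MvPolynomial ι₁ (MvPolynomial (ι₀ ⊕ ν) ℤ)) (w r : ι₁ → ℝ) (t : ℝ) :
    (Fl θ₀ u F w r).eval t = Fv θ₀ u F fun a => w a + r a * t := by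
  simp only [Fl, Fv, Polynomial.eval_finsetSum, Polynomial.eval_mul, Polynomial.eval_C, Polynomial.eval_prod,
    Polynomial.eval_pow, Polynomial.eval_add, Polynomial.eval_X]

variable [Finite ι₀]

/-- the matrix -/
lemma exists_M {Λ K : Type} [Fintype K] [DecidableEq K] {H ε : Λ → ℝ} (hH : ∀ l, 1 ≤ H l) (hε : ∀ l, 0 ≤ ε l)
    {θ₀ : ι₀ → ℝ} {v : K → ℝ} {p : Λ → MvPolynomial ι₀ ℤ} (hp : TP H p) {u : ν → ℝ}
    (hu : ∀ i, PAct (K := K) H θ₀ v ε p fun _ => u i) (F : MvPolynomial ι₁ (MvPolynomial (ι₀ ⊕ ν) ℤ)) :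
    ∃ E : ℕ, ∃ M : Λ → Matrix K K (MvPolynomial (ι₀ ⊕ ι₁) ℤ), (∀ i j, TP H fun l => M l i j) ∧
      ∀ (w : ι₁ → ℝ) (k : K), Sm H ε fun l => aeval θ₀ (p l) ^ E * Fv θ₀ u F w * v k -
        ∑ j, aeval (Sum.elim θ₀ w) (M l k j) * v j := by
  classical
  have h1 : ∀ s : ι₁ →₀ ℕ, PAct (K := K) H θ₀ v ε p fun _ => aeval (Sum.elim θ₀ u) (F.coeff s) :=
    fun s => PAct.poly hH hε hp hu (F.coeff s)
  choose E M hM using h1
  have h2 : ∀ s : ι₁ →₀ ℕ, ∃ M' : Λ → Matrix K K (MvPolynomial ι₀ ℤ), s ∈ F.support →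
      Act H θ₀ v ε (fun l => aeval θ₀ (p l) ^ (∑ s ∈ F.support, E s) * aeval (Sum.elim θ₀ u) (F.coeff s)) M' := by
    intro s
    obtain ⟨M', hM'⟩ := Act.lift hH hε hp (hM s) ((∑ s ∈ F.support, E s) - E s)
    refine ⟨M', fun hs => ?_⟩
    have h3 : E s ≤ ∑ s ∈ F.support, E s := Finset.single_le_sum (f := E) (fun _ _ => Nat.zero_le _) hs
    have h4 : (fun l => aeval θ₀ (p l) ^ ((∑ s ∈ F.support, E s) - E s) *
        (aeval θ₀ (p l) ^ E s * aeval (Sum.elim θ₀ u) (F.coeff s))) =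
        fun l => aeval θ₀ (p l) ^ (∑ s ∈ F.support, E s) * aeval (Sum.elim θ₀ u) (F.coeff s) := by
      funext l
      rw [← mul_assoc, ← pow_add, Nat.sub_add_cancel h3]
    rw [← h4]
    exact hM'
  choose M' hM' using h2
  refine ⟨∑ s ∈ F.support, E s, fun l i j => ∑ s ∈ F.support, rename Sum.inl (M' s l i j) *
    ∏ a, X (Sum.inr a) ^ s a, fun i j => TP.sum hH _ _ fun s hs => TP.mul (((hM' s hs).tM i j).rename _) (TP.const _),
    fun w k => ?_⟩
  have h5 : Sm H ε fun l => ∑ s ∈ F.support, (∏ a, w a ^ s a) *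
      (aeval θ₀ (p l) ^ (∑ s ∈ F.support, E s) * aeval (Sum.elim θ₀ u) (F.coeff s) * v k -
        ∑ j, aeval θ₀ (M' s l k j) * v j) :=
    Sm.sum hH hε _ _ fun s hs => Sm.mul (TR.const _) ((hM' s hs).err k)
  refine h5.congr fun l => ?_
  have hren : ∀ x : MvPolynomial ι₀ ℤ, aeval (Sum.elim θ₀ w) (rename (Sum.inl : ι₀ → ι₀ ⊕ ι₁) x) = aeval θ₀ x := by
    intro x
    rw [MvPolynomial.aeval_rename, Sum.elim_comp_inl]
  simp only [map_sum, map_mul, hren, map_prod, map_pow, MvPolynomial.aeval_X, Sum.elim_inr, mul_sub,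
    Finset.sum_sub_distrib, Fv, Finset.mul_sum, Finset.sum_mul]
  congr 1
  · refine Finset.sum_congr rfl fun s _ => ?_
    ring
  · rw [Finset.sum_comm]
    refine Finset.sum_congr rfl fun j _ => Finset.sum_congr rfl fun s _ => ?_
    ring

end

/-- the determinant of a matrix with an approximate eigenvector -/
lemma det_small {Λ K : Type} [Fintype K] [DecidableEq K] {H ε : Λ → ℝ} (hH : ∀ l, 1 ≤ H l) (hε : ∀ l, 0 ≤ ε l)
    {v : K → ℝ} {k₀ : K} (hv : v k₀ = 1) (A : Λ → Matrix K K ℝ) (hA : ∀ i j, TR H fun l => A l i j)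
    (h : ∀ k, Sm H ε fun l => ∑ j, A l k j * v j) : Sm H ε fun l => (A l).det := by
  have hadj : ∀ i j, TR H fun l => (A l).adjugate i j := by
    intro i j
    simp only [Matrix.adjugate_apply]
    refine TR.det hH _ fun a a' => ?_
    by_cases ha : a = j
    · simp only [ha, Matrix.updateRow_self]
      exact TR.const _
    · simp only [Matrix.updateRow_ne ha]
      exact hA a a'
  have h1 : Sm H ε fun l => ∑ k, (A l).adjugate k₀ k * ∑ j, A l k j * v j :=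
    Sm.sum hH hε _ _ fun k _ => Sm.mul (hadj k₀ k) (h k)
  refine h1.congr fun l => ?_
  have h2 : ∀ j, ∑ k, (A l).adjugate k₀ k * A l k j = if k₀ = j then (A l).det else 0 := by
    intro j
    have h3 := congrFun (congrFun (Matrix.adjugate_mul (A l)) k₀) j
    rw [Matrix.mul_apply] at h3
    rw [h3, Matrix.smul_apply, smul_eq_mul, Matrix.one_apply]
    split_ifs <;> simp
  calc ∑ k, (A l).adjugate k₀ k * ∑ j, A l k j * v j
      = ∑ j, (∑ k, (A l).adjugate k₀ k * A l k j) * v j := by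
        simp only [Finset.mul_sum, Finset.sum_mul]
        rw [Finset.sum_comm]
        refine Finset.sum_congr rfl fun j _ => Finset.sum_congr rfl fun k _ => ?_
        ring
    _ = (A l).det := by
        simp only [h2]
        rw [Finset.sum_eq_single k₀]
        · rw [if_pos rfl, hv, mul_one]
        · intro j _ hj
          rw [if_neg (Ne.symm hj), zero_mul]
        · intro h
          exact absurd (Finset.mem_univ _) h

end Pool.Agent.N778.EM
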