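import Pool.Agent.N778.EM.Gen2

/-!
# The general theorem: the main step
-/

set_option autoImplicit false

open Finset

namespace Pool.Agent.N778.EM

open MvPolynomial

/-- the general step: the order `r` of the characteristic polynomial is given -/
theorem gen_step {Λ ι₀ ι₁ ν K : Type} [Finite ι₀] [Fintype ι₁] [Fintype K] [DecidableEq K] {H ε : Λ → ℝ}
    (hH : ∀ l, 1 ≤ H l) (hε : ∀ l, 0 ≤ ε l) (θ₀ : ι₀ → ℝ) (w : ι₁ → ℝ) (hθ : MeasF (Sum.elim θ₀ w))
    (hθ₀ : MeasF θ₀) (u : ν → ℝ) (F : MvPolynomial ι₁ (MvPolynomial (ι₀ ⊕ ν) ℤ)) (hF0 : Fv θ₀ u F w = 0)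
    (w' : ι₁ → ℝ) (hF1 : Fv θ₀ u F w' ≠ 0) {p : Λ → MvPolynomial ι₀ ℤ} (hp : TP H p) (hp0 : ∀ l, p l ≠ 0)
    (E : ℕ) (M : Λ → Matrix K K (MvPolynomial (ι₀ ⊕ ι₁) ℤ)) (hMT : ∀ i j, TP H fun l => M l i j)
    {v : K → ℝ} {k₀ : K} (hv : v k₀ = 1)
    (hM : ∀ (w : ι₁ → ℝ) (k : K), Sm H ε fun l => aeval θ₀ (p l) ^ E * Fv θ₀ u F w * v k -
      ∑ j, aeval (Sum.elim θ₀ w) (M l k j) * v j)
    (r : ℕ) (hr : ∀ l, ∀ j < r, (M l).charpoly.coeff j = 0) (hr' : ∀ l, (M l).charpoly.coeff r ≠ 0) :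
    ∃ κ : ℕ, ∃ c : ℝ, 0 < c ∧ ∀ l, c ≤ H l ^ κ * ε l := by
  classical
  set Ψ : Λ → Polynomial (MvPolynomial (ι₀ ⊕ ι₁) ℤ) := fun l => (M l).charpoly with hΨd
  have hΨ : PT H Ψ := PT.charpoly hH M hMT
  set N : ℕ := Fintype.card K with hN
  have hdeg : ∀ l, (Ψ l).natDegree = N := fun l => (M l).charpoly_natDegree_eq_dim
  set φ : Λ → (ι₁ → ℝ) → ℝ := fun l w => aeval θ₀ (p l) ^ E * Fv θ₀ u F w with hφ
  -- the value of the characteristic polynomial
  have h3 : ∀ w : ι₁ → ℝ, Sm H ε fun l =>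
      (Ψ l).eval₂ ((aeval (Sum.elim θ₀ w) : MvPolynomial (ι₀ ⊕ ι₁) ℤ →ₐ[ℤ] ℝ) :
        MvPolynomial (ι₀ ⊕ ι₁) ℤ →+* ℝ) (φ l w) := by
    intro w
    have h1 : Sm H ε fun l => (Matrix.scalar K (φ l w) - (M l).map
        ((aeval (Sum.elim θ₀ w) : MvPolynomial (ι₀ ⊕ ι₁) ℤ →ₐ[ℤ] ℝ) : MvPolynomial (ι₀ ⊕ ι₁) ℤ →+* ℝ)).det := by
      refine det_small hH hε hv _ (fun i j => ?_) fun k => ?_
      · simp only [Matrix.sub_apply, Matrix.scalar_apply, Matrix.diagonal_apply, Matrix.map_apply, sub_eq_add_neg]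
        refine TR.add hH ?_ ?_
        · by_cases hij : i = j
          · simp only [if_pos hij, hφ]
            refine TR.mul ?_ (TR.const _)
            exact TR.pow (TP.eval hp θ₀) E
          · simp only [if_neg hij]
            exact TR.const _
        · refine (TP.eval (hMT i j) (Sum.elim θ₀ w)).mono fun l => ?_
          rw [abs_neg]
          rfl
      · refine (hM w k).congr fun l => ?_
        simp only [Matrix.sub_apply, Matrix.scalar_apply, Matrix.diagonal_apply, Matrix.map_apply, sub_mul,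
          Finset.sum_sub_distrib]
        congr 1
        rw [Finset.sum_eq_single k]
        · rw [if_pos rfl]
        · intro j _ hj
          rw [if_neg (Ne.symm hj), zero_mul]
        · intro h
          exact absurd (Finset.mem_univ _) h
    refine h1.congr fun l => ?_
    rw [← Matrix.eval_charpoly, Matrix.charpoly_map, Polynomial.eval_map]
  -- the line
  set rr : ι₁ → ℝ := fun a => w' a - w a with hrr
  set FL : Polynomial ℝ := Fl θ₀ u F w rr with hFL
  have hFL0 : FL.eval 0 = 0 := by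
    rw [hFL, Fl_eval]
    simpa using hF0
  have hFLne : FL ≠ 0 := by
    intro h0
    apply hF1
    have h1 : FL.eval 1 = Fv θ₀ u F w' := by
      rw [hFL, Fl_eval]
      congr 1
      funext a
      simp [hrr]
    rw [← h1, h0, Polynomial.eval_zero]
  set wt : ℝ → ι₁ → ℝ := fun t a => w a + rr a * t with hwt
  have hφt : ∀ l t, φ l (wt t) = aeval θ₀ (p l) ^ E * FL.eval t := by
    intro l t
    rw [hφ, hFL, Fl_eval]
  set L : ι₀ ⊕ ι₁ → Polynomial ℝ := Sum.elim (fun a => Polynomial.C (θ₀ a))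
    (fun a => Polynomial.C (w a) + Polynomial.C (rr a) * Polynomial.X) with hL
  have hL1 : ∀ i, (L i).natDegree ≤ 1 := by
    intro i
    rcases i with i | i
    · simp only [hL, Sum.elim_inl, Polynomial.natDegree_C]
      exact Nat.zero_le _
    · simp only [hL, Sum.elim_inr]
      rw [add_comm]
      exact Polynomial.natDegree_linear_le
  have hLe : ∀ (Q : MvPolynomial (ι₀ ⊕ ι₁) ℤ) (t : ℝ), (aeval L Q).eval t = aeval (Sum.elim θ₀ (wt t)) Q := by
    intro Q t
    have h1 := DFunLike.congr_fun (MvPolynomial.comp_aeval L (Polynomial.evalRingHom t).toIntAlgHom) Q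
    have h2 : (fun i => (Polynomial.evalRingHom t).toIntAlgHom (L i)) = Sum.elim θ₀ (wt t) := by
      funext i
      rcases i with i | i
      · simp [hL]
      · simp [hL, hwt]
    rw [h2] at h1
    rw [← h1]
    rfl
  set h : Λ → Polynomial ℝ := fun l => ∑ j ∈ range (N + 1), aeval L ((Ψ l).coeff (r + j)) *
    (Polynomial.C (aeval θ₀ (p l) ^ E) * FL) ^ j with hh
  have hheval : ∀ l t, (h l).eval t = ∑ j ∈ range (N + 1), aeval (Sum.elim θ₀ (wt t)) ((Ψ l).coeff (r + j)) *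
      (φ l (wt t)) ^ j := by
    intro l t
    simp only [hh, Polynomial.eval_finsetSum, Polynomial.eval_mul, Polynomial.eval_pow, Polynomial.eval_C, hLe, hφt]
  -- the factorisation
  have hfac : ∀ l t, (Ψ l).eval₂ ((aeval (Sum.elim θ₀ (wt t)) : MvPolynomial (ι₀ ⊕ ι₁) ℤ →ₐ[ℤ] ℝ) :
        MvPolynomial (ι₀ ⊕ ι₁) ℤ →+* ℝ) (φ l (wt t)) = φ l (wt t) ^ r * (h l).eval t := by
    intro l t
    rw [Polynomial.eval₂_eq_sum_range' (n := r + (N + 1)) _ (by rw [hdeg]; omega), Finset.sum_range_add, hheval,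
      Finset.sum_eq_zero, zero_add, Finset.mul_sum]
    · refine Finset.sum_congr rfl fun j _ => ?_
      rw [pow_add]
      simp only [RingHom.coe_coe]
      ring
    · intro j hj
      rw [show (Ψ l).coeff j = 0 from hr l j (Finset.mem_range.1 hj), map_zero, zero_mul]
  -- the degree
  obtain ⟨D, hD⟩ : ∃ D : ℕ, ∀ l, ∀ j ∈ range (N + 1), ((Ψ l).coeff (r + j)).totalDegree ≤ D := by
    have h1 : ∀ j, ∃ D : ℕ, ∀ l, ((Ψ l).coeff (r + j)).totalDegree ≤ D := fun j => (hΨ (r + j)).1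
    choose D hD using h1
    exact ⟨∑ j ∈ range (N + 1), D j, fun l j hj =>
      (hD j l).trans (Finset.single_le_sum (f := D) (fun _ _ => Nat.zero_le _) hj)⟩
  set n : ℕ := D + N * FL.natDegree with hn
  have hnat : ∀ l, (h l).natDegree ≤ n := by
    intro l
    refine Polynomial.natDegree_sum_le_of_forall_le _ _ fun j hj => ?_
    refine Polynomial.natDegree_mul_le.trans ?_
    refine Nat.add_le_add (natDegree_line L hL1 _ D (hD l j hj)) ?_
    refine Polynomial.natDegree_pow_le.trans ?_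
    refine Nat.mul_le_mul ?_ ?_
    · have := Finset.mem_range.1 hj
      omega
    · exact Polynomial.natDegree_C_mul_le _ _
  -- the nodes
  obtain ⟨s, hs, hsc⟩ : ∃ s : Finset ℝ, (∀ t ∈ s, FL.eval t ≠ 0) ∧ s.card = n + 1 := by
    have hinf : {t : ℝ | FL.eval t ≠ 0}.Infinite := by
      have h1 : ({t : ℝ | FL.eval t ≠ 0}ᶜ).Finite := by
        refine (FL.roots.toFinset.finite_toSet).subset fun t ht => ?_
        simp only [Set.mem_compl_iff, Set.mem_ofPred_eq, not_not] at ht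
        simp only [Finset.mem_coe, Multiset.mem_toFinset]
        rw [Polynomial.mem_roots hFLne]
        exact ht
      exact h1.infinite_compl.mono (by rw [compl_compl])
    obtain ⟨s, hs, hsc⟩ := hinf.exists_subset_card_eq (n + 1)
    exact ⟨s, fun t ht => hs ht, hsc⟩
  obtain ⟨C, hC, hint⟩ := interp s
  -- the values at the nodes
  have hnode : ∀ t ∈ s, Sm H ε fun l => (h l).eval t := by
    intro t ht
    obtain ⟨κ, c, hc, h1⟩ := hθ₀.tame hH (TP.pow hp (E * r)) (fun l => pow_ne_zero _ (hp0 l))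
    have hct : 0 < |FL.eval t| ^ r := pow_pos (abs_pos.2 (hs t ht)) _
    refine Sm.div (x := fun l => φ l (wt t) ^ r) hH ?_ (c := c * |FL.eval t| ^ r) (κ := κ) (by positivity) fun l => ?_
    · exact (h3 (wt t)).congr fun l => hfac l t
    · rw [hφt, mul_pow, abs_mul, ← pow_mul, abs_pow (FL.eval t)]
      have h2 := h1 l
      rw [map_pow] at h2
      nlinarith
  have hzero : Sm H ε fun l => (h l).eval 0 := by
    have h1 : Sm H ε fun l => ∑ t ∈ s, C * |(h l).eval t| :=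
      Sm.sum hH hε _ _ fun t ht => Sm.mul (TR.const _) ((hnode t ht).mono fun l => by rw [abs_abs])
    refine h1.mono fun l => ?_
    refine le_trans ?_ (le_abs_self _)
    exact hint (h l) (by rw [hsc]; exact Nat.lt_succ_of_le (hnat l))
  have hw0 : wt 0 = w := by
    funext a
    simp [hwt]
  have hval0 : ∀ l, (h l).eval 0 = aeval (Sum.elim θ₀ w) ((Ψ l).coeff r) := by
    intro l
    rw [hheval, Finset.sum_range_succ', Finset.sum_eq_zero, zero_add, pow_zero, mul_one, add_zero, hw0]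
    intro j _
    rw [hφt, hFL0, mul_zero, pow_succ, mul_zero, mul_zero]
  obtain ⟨κ₁, c, hc, h5⟩ := hθ.tame hH (hΨ r) hr'
  obtain ⟨κ₂, C', hC', h6⟩ := hzero
  refine ⟨κ₁ + κ₂, c / (1 + C'), by positivity, fun l => ?_⟩
  have h7 := h5 l
  have h8 : |(h l).eval 0| ≤ C' * H l ^ κ₂ * ε l := h6 l
  rw [hval0] at h8
  have hHl := hH l
  rw [div_le_iff₀ (by positivity)]
  have h9 : 0 ≤ H l ^ κ₂ * ε l := mul_nonneg (by positivity) (hε l)
  have h10 : |aeval (Sum.elim θ₀ w) ((Ψ l).coeff r)| ≤ (1 + C') * (H l ^ κ₂ * ε l) := by nlinarith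
  calc c ≤ H l ^ κ₁ * |aeval (Sum.elim θ₀ w) ((Ψ l).coeff r)| := h7
    _ ≤ H l ^ κ₁ * ((1 + C') * (H l ^ κ₂ * ε l)) := mul_le_mul_of_nonneg_left h10 (by positivity)
    _ = _ := by rw [pow_add]; ring

end Pool.Agent.N778.EM
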