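import Pool.Agent.N778.EM.Gen3

/-!
# The general theorem
-/

set_option autoImplicit false

open Finset

namespace Pool.Agent.N778.EM

open MvPolynomial

/-- the general theorem for tame families of polynomials of given positive degrees -/
theorem gen_fam {Λ ι₀ ι₁ ν : Type} [Fintype ι₀] [Fintype ι₁] [Fintype ν] [DecidableEq ν] {H : Λ → ℝ}
    (hH : ∀ l, 1 ≤ H l) (θ₀ : ι₀ → ℝ) (w : ι₁ → ℝ) (hθ : MeasF (Sum.elim θ₀ w))
    (u : ν → ℝ) (F : MvPolynomial ι₁ (MvPolynomial (ι₀ ⊕ ν) ℤ)) (hF0 : Fv θ₀ u F w = 0)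
    (w' : ι₁ → ℝ) (hF1 : Fv θ₀ u F w' ≠ 0) (d : ν → ℕ) (hd : ∀ i, 1 ≤ d i)
    (P : Λ → ν → Polynomial (MvPolynomial ι₀ ℤ)) (hn : ∀ l i, (P l i).natDegree = d i)
    (hT : ∀ i j, TP H fun l => (P l i).coeff j) :
    ∃ κ : ℕ, ∃ c : ℝ, 0 < c ∧ ∀ l, c ≤ H l ^ κ * ∑ i, |ev2 θ₀ (u i) (P l i)| := by
  classical
  have hθ₀ : MeasF θ₀ := by
    have := hθ.comp Sum.inl Sum.inl_injective
    rwa [Sum.elim_comp_inl] at this
  have hε : ∀ l, 0 ≤ ∑ i, |ev2 θ₀ (u i) (P l i)| := fun l => Finset.sum_nonneg fun _ _ => abs_nonneg _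
  set p : Λ → MvPolynomial ι₀ ℤ := fun l => ∏ i, (P l i).leadingCoeff with hp
  have hlead : ∀ i, TP H fun l => (P l i).leadingCoeff := by
    intro i
    have h1 := hT i (d i)
    have h2 : (fun l => (P l i).leadingCoeff) = fun l => (P l i).coeff (d i) := by
      funext l
      rw [Polynomial.leadingCoeff, hn]
    rw [h2]
    exact h1
  have hpT : TP H p := TP.prod univ (fun a l => (P l a).leadingCoeff) fun a _ => hlead a
  have hp0 : ∀ l, p l ≠ 0 := by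
    intro l
    refine Finset.prod_ne_zero_iff.2 fun i _ => ?_
    rw [Polynomial.leadingCoeff_ne_zero]
    intro h0
    have h1 := hn l i
    rw [h0, Polynomial.natDegree_zero] at h1
    have := hd i
    omega
  obtain ⟨E, M, hMT, hM⟩ := exists_M (K := (i : ν) → Fin (d i)) (ι₁ := ι₁) (v := vv d u) hH hε hpT
    (fun i => pact_X hH θ₀ u d P hn hT i) F
  set k₀ : (i : ν) → Fin (d i) := fun i => ⟨0, hd i⟩ with hk₀
  have hv1 : vv d u k₀ = 1 := by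
    rw [vv]
    exact Finset.prod_eq_one fun i _ => by simp [hk₀]
  set N : ℕ := Fintype.card ((i : ν) → Fin (d i)) with hN
  -- the orders
  have key : ∃ κ : ℕ, ∃ c : ℝ, 0 < c ∧ ∀ (r : Fin (N + 1)) (l : Λ),
      ((∀ j < (r : ℕ), (M l).charpoly.coeff j = 0) ∧ (M l).charpoly.coeff r ≠ 0) →
        c ≤ H l ^ κ * ∑ i, |ev2 θ₀ (u i) (P l i)| := by
    refine unif (A := Fin (N + 1)) (X := Λ)
      (fun r l => (∀ j < (r : ℕ), (M l).charpoly.coeff j = 0) ∧ (M l).charpoly.coeff r ≠ 0)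
      H (fun l => ∑ i, |ev2 θ₀ (u i) (P l i)|) (fun _ l _ => hH l) hε fun r => ?_
    let Λ' : Type := {l : Λ // (∀ j < (r : ℕ), (M l).charpoly.coeff j = 0) ∧ (M l).charpoly.coeff r ≠ 0}
    obtain ⟨κ, c, hc, h⟩ := gen_step (Λ := Λ') (H := fun l => H l.1) (ε := fun l => ∑ i, |ev2 θ₀ (u i) (P l.1 i)|)
      (fun l => hH l.1) (fun l => hε l.1) θ₀ w hθ hθ₀ u F hF0 w' hF1 (p := fun l => p l.1) (hpT.restrict Subtype.val)
      (fun l => hp0 l.1) E (fun l => M l.1) (fun i j => (hMT i j).restrict Subtype.val) hv1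
      (fun w k => (hM w k).restrict Subtype.val) r (fun l => l.2.1) (fun l => l.2.2)
    exact ⟨κ, c, hc, fun l hl => h ⟨l, hl⟩⟩
  obtain ⟨κ, c, hc, h⟩ := key
  refine ⟨κ, c, hc, fun l => ?_⟩
  have hex : ∃ r, (M l).charpoly.coeff r ≠ 0 := by
    refine ⟨N, ?_⟩
    have h1 := (M l).charpoly_monic.coeff_natDegree
    rw [(M l).charpoly_natDegree_eq_dim] at h1
    rw [h1]
    exact one_ne_zero
  have hr1 := Nat.find_spec hex
  have hr2 : Nat.find hex < N + 1 := by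
    refine Nat.lt_succ_of_le (Nat.find_min' hex ?_)
    have h1 := (M l).charpoly_monic.coeff_natDegree
    rw [(M l).charpoly_natDegree_eq_dim] at h1
    rw [h1]
    exact one_ne_zero
  exact h ⟨Nat.find hex, hr2⟩ l ⟨fun j hj => not_not.1 (Nat.find_min hex hj), hr1⟩

/-- **The general theorem.** -/
theorem gen_all {ι₀ ι₁ ν : Type} [Fintype ι₀] [Fintype ι₁] [Fintype ν] (θ₀ : ι₀ → ℝ) (w : ι₁ → ℝ)
    (hθ : MeasF (Sum.elim θ₀ w)) (u : ν → ℝ) (F : MvPolynomial ι₁ (MvPolynomial (ι₀ ⊕ ν) ℤ))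
    (hF0 : Fv θ₀ u F w = 0) (w' : ι₁ → ℝ) (hF1 : Fv θ₀ u F w' ≠ 0) (D : ℕ) :
    ∃ κ : ℕ, ∃ c : ℝ, 0 < c ∧ ∀ P : ν → Polynomial (MvPolynomial ι₀ ℤ), (∀ i, P i ≠ 0) →
      (∀ i, (P i).natDegree ≤ D) → (∀ i j, ((P i).coeff j).totalDegree ≤ D) → ∀ H : ℝ, 1 ≤ H →
      (∀ i j s, |((((P i).coeff j).coeff s : ℤ) : ℝ)| ≤ H) → c ≤ H ^ κ * ∑ i, |ev2 θ₀ (u i) (P i)| := by
  classical
  have hθ' : MeasF θ₀ := by
    have := hθ.comp Sum.inl Sum.inl_injective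
    rwa [Sum.elim_comp_inl] at this
  let Λ : Type := {l : (ν → Polynomial (MvPolynomial ι₀ ℤ)) × ℝ // (∀ i, l.1 i ≠ 0) ∧ (∀ i, (l.1 i).natDegree ≤ D) ∧
    (∀ i j, ((l.1 i).coeff j).totalDegree ≤ D) ∧ 1 ≤ l.2 ∧ ∀ i j s, |((((l.1 i).coeff j).coeff s : ℤ) : ℝ)| ≤ l.2}
  let H : Λ → ℝ := fun l => l.1.2
  let f : Λ → ℝ := fun l => ∑ i, |ev2 θ₀ (u i) (l.1.1 i)|
  have hH : ∀ l, 1 ≤ H l := fun l => l.2.2.2.2.1
  have hf : ∀ l, 0 ≤ f l := fun l => Finset.sum_nonneg fun _ _ => abs_nonneg _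
  obtain ⟨N, hN1, hN⟩ := len_le_of_coeff (ι := ι₀) D
  -- the case of positive degrees
  have key : ∃ κ : ℕ, ∃ c : ℝ, 0 < c ∧ ∀ (d : ν → Fin (D + 1)) (l : Λ),
      ((∀ i, 1 ≤ (d i : ℕ)) ∧ ∀ i, (l.1.1 i).natDegree = d i) → c ≤ H l ^ κ * f l := by
    refine unif (A := ν → Fin (D + 1)) (X := Λ) (fun d l => (∀ i, 1 ≤ (d i : ℕ)) ∧ ∀ i, (l.1.1 i).natDegree = d i)
      H f (fun _ l _ => hH l) hf fun d => ?_
    by_cases hd : ∀ i, 1 ≤ (d i : ℕ)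
    · let Λ' : Type := {l : Λ // ∀ i, (l.1.1 i).natDegree = d i}
      obtain ⟨κ, c, hc, h⟩ := gen_fam (Λ := Λ') (H := fun l => H l.1) (fun l => hH l.1) θ₀ w hθ u F hF0 w' hF1
        (fun i => d i) hd (fun l i => l.1.1.1 i) (fun l i => l.2 i) (fun i j =>
          ⟨⟨D, fun l => l.1.2.2.2.1 i j⟩, 1, N, by linarith, fun l => by
            rw [abs_of_nonneg (len_nonneg _), pow_one]
            exact hN _ (l.1.2.2.2.1 i j) _ (fun s => l.1.2.2.2.2.2 i j s)⟩)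
      exact ⟨κ, c, hc, fun l hl => h ⟨l, hl.2⟩⟩
    · exact ⟨0, 1, one_pos, fun l hl => absurd hl.1 hd⟩
  obtain ⟨κ₁, c₁, hc₁, h1⟩ := key
  obtain ⟨κ₂, c₂, hc₂, h2⟩ := hθ' D
  refine ⟨κ₁ + κ₂, min c₁ c₂, lt_min hc₁ hc₂, fun P hP0 hPd hPD A hA hPA => ?_⟩
  have hsum0 : 0 ≤ ∑ i, |ev2 θ₀ (u i) (P i)| := Finset.sum_nonneg fun _ _ => abs_nonneg _
  by_cases hdeg : ∀ i, 1 ≤ (P i).natDegree
  · have h3 := h1 (fun i => ⟨(P i).natDegree, Nat.lt_succ_of_le (hPd i)⟩) ⟨(P, A), hP0, hPd, hPD, hA, hPA⟩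
      ⟨hdeg, fun i => rfl⟩
    calc min c₁ c₂ ≤ c₁ := min_le_left _ _
      _ ≤ A ^ κ₁ * ∑ i, |ev2 θ₀ (u i) (P i)| := h3
      _ ≤ A ^ (κ₁ + κ₂) * ∑ i, |ev2 θ₀ (u i) (P i)| :=
        mul_le_mul_of_nonneg_right (pow_le_pow_right₀ hA (Nat.le_add_right _ _)) hsum0
  · obtain ⟨i, hi⟩ := not_forall.1 hdeg
    have hi0 : (P i).natDegree = 0 := by omega
    have hPi := Polynomial.eq_C_of_natDegree_eq_zero hi0
    have hc0 : (P i).coeff 0 ≠ 0 := by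
      intro h0
      apply hP0 i
      rw [hPi, h0, Polynomial.C_0]
    have h3 := h2 _ hc0 (hPD i 0) A hA (hPA i 0)
    have h4 : ev2 θ₀ (u i) (P i) = aeval θ₀ ((P i).coeff 0) := by
      rw [ev2]
      conv_lhs => rw [hPi, Polynomial.eval₂_C]
      rfl
    rw [← h4] at h3
    calc min c₁ c₂ ≤ c₂ := min_le_right _ _
      _ ≤ A ^ κ₂ * |ev2 θ₀ (u i) (P i)| := h3
      _ ≤ A ^ (κ₁ + κ₂) * ∑ i, |ev2 θ₀ (u i) (P i)| := by
        refine mul_le_mul (pow_le_pow_right₀ hA (Nat.le_add_left _ _)) ?_ (abs_nonneg _) (by positivity)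
        exact Finset.single_le_sum (f := fun i => |ev2 θ₀ (u i) (P i)|) (fun _ _ => abs_nonneg _) (Finset.mem_univ i)

end Pool.Agent.N778.EM
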