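import Pool.Agent.N778.EM.Core

/-!
# E-functions: a measure of linear independence for the values

For a system of E-functions over `ℚ` which contains `1`, is linearly independent over `ℚ[X]` and satisfies a linear
differential system, the values at the point `1` have a measure of linear independence which is polynomial in the
height of the coefficients.
-/

set_option autoImplicit false

open PowerSeries Finset.HasAntidiagonal

namespace Pool.Agent.N778.EM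

open Pool.Agent.Y113 Pool.Agent.R352.E

/-- the choice of the parameter -/
lemma exists_nu (ν₀ : ℕ) (h3 : 3 ≤ ν₀) (A : ℝ) (hA : 1 ≤ A) :
    ∃ ν : ℕ, ν₀ ≤ ν ∧ A ^ 2 ≤ (ν : ℝ) ^ ν ∧ (ν : ℝ) ^ ν ≤ (ν₀ : ℝ) ^ ν₀ * A ^ 8 := by
  classical
  have hex : ∃ ν : ℕ, ν₀ ≤ ν ∧ A ^ 2 ≤ (ν : ℝ) ^ ν := by
    obtain ⟨n, hn⟩ := exists_nat_ge (A ^ 2)
    refine ⟨max ν₀ n, le_max_left _ _, hn.trans ?_⟩
    have h1 : (1 : ℝ) ≤ ((max ν₀ n : ℕ) : ℝ) := by exact_mod_cast (by omega : 1 ≤ max ν₀ n)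
    calc (n : ℝ) ≤ ((max ν₀ n : ℕ) : ℝ) := by exact_mod_cast le_max_right _ _
      _ ≤ _ := le_self_pow₀ h1 (by omega)
  have hfind := Nat.find_spec hex
  set ν := Nat.find hex with hν
  refine ⟨ν, hfind.1, hfind.2, ?_⟩
  have hν₀1 : (1 : ℝ) ≤ (ν₀ : ℝ) ^ ν₀ := one_le_pow₀ (by exact_mod_cast (by omega : 1 ≤ ν₀))
  have hA8 : (1 : ℝ) ≤ A ^ 8 := one_le_pow₀ hA
  rcases hfind.1.eq_or_lt with h | h
  · rw [← h]
    exact le_mul_of_one_le_right (by positivity) hA8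
  · have h1 : ¬ (ν₀ ≤ ν - 1 ∧ A ^ 2 ≤ ((ν - 1 : ℕ) : ℝ) ^ (ν - 1)) := Nat.find_min hex (by omega)
    have h2 : ((ν - 1 : ℕ) : ℝ) ^ (ν - 1) < A ^ 2 := by
      by_contra h3
      exact h1 ⟨by omega, not_lt.1 h3⟩
    obtain ⟨m, hm⟩ : ∃ m, ν = m + 1 := ⟨ν - 1, by omega⟩
    rw [hm, Nat.add_sub_cancel] at h2
    have hm3 : 3 ≤ m := by omega
    have h4 : (ν : ℝ) ^ ν ≤ ((m : ℝ) ^ m) ^ 4 := by
      rw [hm]
      have h5 : (((m + 1 : ℕ) : ℕ) : ℝ) ≤ (m : ℝ) ^ 2 := by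
        have : m + 1 ≤ m ^ 2 := by nlinarith
        exact_mod_cast this
      have hm1 : (1 : ℝ) ≤ m := by exact_mod_cast (by omega : 1 ≤ m)
      calc (((m + 1 : ℕ) : ℕ) : ℝ) ^ (m + 1) ≤ ((m : ℝ) ^ 2) ^ (m + 1) := pow_le_pow_left₀ (by positivity) h5 _
        _ = (m : ℝ) ^ (2 * (m + 1)) := by rw [← pow_mul]
        _ ≤ (m : ℝ) ^ (m * 4) := pow_le_pow_right₀ hm1 (by omega)
        _ = _ := by rw [pow_mul]
    calc (ν : ℝ) ^ ν ≤ ((m : ℝ) ^ m) ^ 4 := h4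
      _ ≤ (A ^ 2) ^ 4 := pow_le_pow_left₀ (by positivity) h2.le 4
      _ = A ^ 8 := by rw [← pow_mul]
      _ ≤ _ := le_mul_of_one_le_left (by positivity) hν₀1

/-- **A measure of linear independence for the values of E-functions.** -/
theorem E_meas {N q : ℕ} {C : ℝ} {y : Fin N → ℚ⟦X⟧} (hE : ESys q C y) (i₀ : Fin N) (h1 : y i₀ = 1)
    (hLI : LinearIndependent (Polynomial ℚ) y) :
    ∃ κ : ℕ, ∃ c : ℝ, 0 < c ∧ ∀ a : Fin N → ℤ, a ≠ 0 → ∀ A : ℝ, 1 ≤ A → (∀ i, |(a i : ℝ)| ≤ A) →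
      c ≤ A ^ κ * |∑ i, (a i : ℝ) * ev 1 (y i)| := by
  have hC := hE.one_le
  have hNpos : 0 < N := i₀.pos
  -- the case N = 1
  rcases Nat.lt_or_ge N 2 with hN | hN
  · have hN1 : N = 1 := by omega
    refine ⟨0, 1, one_pos, fun a hane A hA hAi => ?_⟩
    subst hN1
    have hi : ∀ j : Fin 1, j = i₀ := fun j => Subsingleton.elim _ _
    have h2 : ∑ i, (a i : ℝ) * ev 1 (y i) = (a i₀ : ℝ) := by
      rw [Fin.sum_univ_one, hi 0, h1, ev_one, mul_one]
    have h3 : a i₀ ≠ 0 := by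
      intro h0
      apply hane
      funext i
      rw [hi i, h0]
      rfl
    rw [h2, pow_zero, one_mul]
    exact_mod_cast Int.one_le_abs h3
  obtain ⟨B, hB⟩ := hE.der
  have hq1 : (1 : ℝ) ≤ q := by exact_mod_cast hE.hq
  obtain ⟨c₁, hc₁⟩ := rank_nab (T := TQ q) (B := fun i j => (B i j).map (Int.castRingHom ℚ)) hB hLI i₀ h1 1
    one_ne_zero (by
      simp only [TQ, Polynomial.eval_mul, Polynomial.eval_C, Polynomial.eval_X, mul_one]
      exact_mod_cast (by have := hE.hq; omega : q ≠ 0))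
  obtain ⟨b, hb, hBb⟩ : ∃ b : ℕ, 1 ≤ b ∧ ∀ i j, (B i j).natDegree ≤ b := by
    refine ⟨1 + ∑ i, ∑ j, (B i j).natDegree, by omega, fun i j => ?_⟩
    have h2 : (B i j).natDegree ≤ ∑ j, (B i j).natDegree :=
      Finset.single_le_sum (f := fun j => (B i j).natDegree) (fun _ _ => Nat.zero_le _) (Finset.mem_univ j)
    have h3 : ∑ j, (B i j).natDegree ≤ ∑ i, ∑ j, (B i j).natDegree :=
      Finset.single_le_sum (f := fun i => ∑ j, (B i j).natDegree) (fun _ _ => Nat.zero_le _) (Finset.mem_univ i)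
    omega
  obtain ⟨β, hβ0, hβ⟩ : ∃ β : ℝ, 0 ≤ β ∧ ∀ j, ∑ i, l1 (B i j) ≤ β := by
    refine ⟨∑ j, ∑ i, l1 (B i j), Finset.sum_nonneg fun _ _ => Finset.sum_nonneg fun _ _ => l1_nonneg _, fun j => ?_⟩
    exact Finset.single_le_sum (f := fun j => ∑ i, l1 (B i j))
      (fun _ _ => Finset.sum_nonneg fun _ _ => l1_nonneg _) (Finset.mem_univ j)
  -- parameters
  set L : ℕ := 2 * N + 1 with hL
  have hNL : 2 ≤ N * L := by
    calc 2 ≤ N := hN
      _ = N * 1 := (mul_one N).symm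
      _ ≤ N * L := Nat.mul_le_mul_left _ (by omega)
  set g1 : ℝ := 2 * ((L + 2 * b + 1 : ℕ) : ℝ) with hg1
  set g2 : ℝ := q * ((L + 2 * b : ℕ) : ℝ) + β with hg2
  set g3 : ℝ := ((2 * (N * (L + 1) : ℕ)) * (2 * C) ^ (2 * (N * L))) ^ (N * L) with hg3
  set G1 : ℝ := g1 * (g2 ^ 2 * ((L : ℝ) ^ L * g3)) with hG1
  set G2 : ℝ := (L : ℝ) ^ L * g3 * (q : ℝ) ^ 2 * 4 * (2 * C * Real.exp 1) ^ (N * L - 1) with hG2
  set c2 : ℝ := N * C * Real.exp (2 * C * Real.exp 1) with hc2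
  set G : ℝ := G1 ^ (N - 2) * G2 with hG
  set c' : ℝ := N * N.factorial * c2 with hc'
  have hG0 : 0 ≤ G := by positivity
  have hc'0 : 0 ≤ c' := by positivity
  have hkey : ∀ a : Fin N → ℤ, a ≠ 0 → ∀ A : ℝ, 1 ≤ A → (∀ i, |(a i : ℝ)| ≤ A) → ∀ ν : ℕ, c₁ < ν →
      1 ≤ c' * A * G ^ ν / (ν : ℝ) ^ ν + N * (N.factorial * (G1 ^ ν * ((ν : ℝ) ^ ν) ^ (L + 2)) ^ (N - 1) *
        |∑ i, (a i : ℝ) * ev 1 (y i)|) := by
    intro a hane A hA1 hAi ν hν
    have hA0 : 0 ≤ A := by linarith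
    set c : ℝ := N * (N.factorial * A) * c2 with hc
    have hν1 : 1 ≤ ν := by omega
    have hν1' : (1 : ℝ) ≤ ν := by exact_mod_cast hν1
    obtain ⟨n, hn⟩ : ∃ n, n = L * ν := ⟨_, rfl⟩
    obtain ⟨m₀, hm₀⟩ : ∃ m₀, m₀ = (N * L - 1) * ν := ⟨_, rfl⟩
    obtain ⟨K, hK⟩ : ∃ K, K = 2 * ν := ⟨_, rfl⟩
    have hm₀' : m₀ + ν = N * n := by
      have h2 : N * n = N * L * ν := by rw [hn]; ring
      rw [h2, hm₀, Nat.sub_mul, one_mul]
      have : ν ≤ N * L * ν := Nat.le_mul_of_pos_left ν (by omega)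
      omega
    have h := core_eta hE i₀ h1 hB hb hBb hβ hβ0 hc₁ a hane A hAi L ν n m₀ K (by omega) hν hn hm₀' hK _ rfl
    set η : ℝ := |∑ i, (a i : ℝ) * ev 1 (y i)| with hη
    have hη0 : 0 ≤ η := abs_nonneg _
    set A₀ : ℝ := ((N * (n + 1) : ℕ) * (2 * C) ^ (2 * m₀ + 1)) ^ (N * L) with hA₀
    have hA₀0 : 0 ≤ A₀ := by positivity
    have hA₀g : A₀ ≤ g3 ^ ν := A0_le hC hNpos hν1 hn hm₀'
    obtain ⟨u, hu⟩ : ∃ u : ℝ, u = (ν : ℝ) ^ ν := ⟨_, rfl⟩
    rw [← hu]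
    have hu1 : 1 ≤ u := by rw [hu]; exact one_le_pow₀ hν1'
    have hu0 : 0 < u := by linarith
    have hnf : (n.factorial : ℝ) ≤ ((L : ℝ) ^ L) ^ ν * u ^ L := by rw [hn, hu]; exact fac_le L ν
    -- X
    have hX : ((n + K * b : ℕ) + 1) * ((q * (n + K * b : ℕ) + β) ^ K * (n.factorial * A₀)) ≤ G1 ^ ν * u ^ (L + 2) := by
      have hnK : n + K * b = (L + 2 * b) * ν := by rw [hn, hK]; ring
      have h2 : (((n + K * b : ℕ) : ℝ) + 1) ≤ g1 ^ ν := by
        have h3 : (1 : ℝ) ≤ ((L + 2 * b + 1 : ℕ) : ℝ) := by exact_mod_cast (show 1 ≤ L + 2 * b + 1 by omega)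
        refine le_trans ?_ (lin_le_pow h3 hν1)
        rw [hnK]
        push_cast
        nlinarith
      have h4 : (q * ((n + K * b : ℕ) : ℝ) + β) ^ K ≤ (g2 ^ 2) ^ ν * u ^ 2 := by
        have h5 : q * ((n + K * b : ℕ) : ℝ) + β ≤ g2 * ν := by
          rw [hnK, hg2]
          push_cast
          nlinarith
        calc (q * ((n + K * b : ℕ) : ℝ) + β) ^ K ≤ (g2 * ν) ^ K := pow_le_pow_left₀ (by positivity) h5 K
          _ = (g2 ^ 2) ^ ν * u ^ 2 := by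
            rw [hK, hu, mul_pow, ← pow_mul, ← pow_mul, mul_comm ν 2]
      calc ((n + K * b : ℕ) + 1) * ((q * (n + K * b : ℕ) + β) ^ K * (n.factorial * A₀))
          ≤ g1 ^ ν * (((g2 ^ 2) ^ ν * u ^ 2) * ((((L : ℝ) ^ L) ^ ν * u ^ L) * g3 ^ ν)) := by
            refine mul_le_mul h2 ?_ (by positivity) (by positivity)
            refine mul_le_mul h4 ?_ (by positivity) (by positivity)
            exact mul_le_mul hnf hA₀g hA₀0 (by positivity)
        _ = G1 ^ ν * u ^ (L + 2) := by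
            rw [hG1, mul_pow g1, mul_pow (g2 ^ 2), mul_pow ((L : ℝ) ^ L), pow_add u]
            generalize g1 ^ ν = x1
            generalize (g2 ^ 2) ^ ν = x2
            generalize ((L : ℝ) ^ L) ^ ν = x3
            generalize g3 ^ ν = x4
            ring
    have hLL : n.factorial * (N * A₀ * C) * (q : ℝ) ^ K * K.factorial *
        ((2 * C * Real.exp 1) ^ m₀ / m₀.factorial * Real.exp (2 * C * Real.exp 1)) ≤
        c2 * G2 ^ ν * (u ^ (L + 2) / u ^ (N * L - 2)) := by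
      have h2 : (K.factorial : ℝ) ≤ (4 : ℝ) ^ ν * u ^ 2 := by
        rw [hK]
        refine (fac_le 2 ν).trans (le_of_eq ?_)
        rw [hu]
        norm_num
      have h3 : (q : ℝ) ^ K = ((q : ℝ) ^ 2) ^ ν := by rw [hK, pow_mul]
      have h4 : (2 * C * Real.exp 1) ^ m₀ = ((2 * C * Real.exp 1) ^ (N * L - 1)) ^ ν := by rw [hm₀, pow_mul]
      have h5 : u ^ (N * L - 2) ≤ (m₀.factorial : ℝ) := by
        have := fac_ge (R := N * L - 1) (ν := ν) (by omega)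
        rw [hm₀, hu, show N * L - 2 = N * L - 1 - 1 by omega]
        exact this
      have h6 : ((2 * C * Real.exp 1) ^ m₀ / m₀.factorial) ≤ ((2 * C * Real.exp 1) ^ (N * L - 1)) ^ ν / u ^ (N * L - 2) := by
        rw [h4]
        exact div_le_div_of_nonneg_left (by positivity) (by positivity) h5
      calc n.factorial * (N * A₀ * C) * (q : ℝ) ^ K * K.factorial *
            ((2 * C * Real.exp 1) ^ m₀ / m₀.factorial * Real.exp (2 * C * Real.exp 1))
          ≤ (((L : ℝ) ^ L) ^ ν * u ^ L) * (N * g3 ^ ν * C) * ((q : ℝ) ^ 2) ^ ν * ((4 : ℝ) ^ ν * u ^ 2) *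
            (((2 * C * Real.exp 1) ^ (N * L - 1)) ^ ν / u ^ (N * L - 2) * Real.exp (2 * C * Real.exp 1)) := by
            rw [← h3]
            refine mul_le_mul ?_ ?_ (by positivity) (by positivity)
            · refine mul_le_mul ?_ h2 (by positivity) (by positivity)
              refine mul_le_mul_of_nonneg_right ?_ (by positivity)
              refine mul_le_mul hnf ?_ (by positivity) (by positivity)
              refine mul_le_mul_of_nonneg_right ?_ (by positivity)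
              exact mul_le_mul_of_nonneg_left hA₀g (by positivity)
            · exact mul_le_mul_of_nonneg_right h6 (by positivity)
        _ = c2 * G2 ^ ν * (u ^ (L + 2) / u ^ (N * L - 2)) := by
            rw [hG2, hc2, mul_pow, mul_pow, mul_pow, mul_pow, pow_add]; ring
    have hcomb : (1 : ℝ) ≤ N * (N.factorial * (A * (G1 ^ ν * u ^ (L + 2)) ^ (N - 2)) *
        (c2 * G2 ^ ν * (u ^ (L + 2) / u ^ (N * L - 2)))) +
        N * (N.factorial * (G1 ^ ν * u ^ (L + 2)) ^ (N - 1) * η) := by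
      refine h.trans (add_le_add ?_ ?_)
      · refine mul_le_mul_of_nonneg_left ?_ (by positivity)
        refine mul_le_mul ?_ hLL (by positivity) (by positivity)
        refine mul_le_mul_of_nonneg_left ?_ (by positivity)
        refine mul_le_mul_of_nonneg_left ?_ hA0
        exact pow_le_pow_left₀ (by positivity) hX _
      · refine mul_le_mul_of_nonneg_left ?_ (by positivity)
        refine mul_le_mul_of_nonneg_right ?_ hη0
        refine mul_le_mul_of_nonneg_left ?_ (by positivity)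
        exact pow_le_pow_left₀ (by positivity) hX _
    have hexp : u ^ (N * L - 2) = (u ^ (L + 2)) ^ (N - 2) * u ^ (L + 2) * u := by
      rw [← pow_mul, ← pow_add, ← pow_succ]
      congr 1
      obtain ⟨M, rfl⟩ : ∃ M, N = M + 2 := ⟨N - 2, by omega⟩
      simp only [Nat.add_sub_cancel]
      have e1 : (M + 2) * L = (L + 2) * M + (L + 2) + 1 + 2 := by
        rw [hL]; ring
      omega
    have h7 : N * (N.factorial * (A * (G1 ^ ν * u ^ (L + 2)) ^ (N - 2)) *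
        (c2 * G2 ^ ν * (u ^ (L + 2) / u ^ (N * L - 2)))) = c * G ^ ν / u := by
      rw [hexp, hc, hG, mul_pow (G1 ^ ν), mul_pow (G1 ^ (N - 2)), ← pow_mul G1, ← pow_mul G1, mul_comm ν (N - 2)]
      field_simp
    have h8 : c = c' * A := by rw [hc, hc']; ring
    rw [h7, h8] at hcomb
    exact hcomb
  -- the choice of the parameter
  obtain ⟨ν₀, hν₀a, hν₀b, hν₀c, hν₀d, hν₀e⟩ : ∃ ν₀ : ℕ, c₁ < ν₀ ∧ 3 ≤ ν₀ ∧ G1 ≤ ν₀ ∧ 2 * G ^ 2 ≤ ν₀ ∧
      4 * c' ^ 2 ≤ 2 ^ ν₀ := by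
    have htend := tendsto_pow_atTop_atTop_of_one_lt (show (1 : ℝ) < 2 by norm_num)
    have hcast := tendsto_natCast_atTop_atTop (R := ℝ)
    have h2 := ((Filter.eventually_gt_atTop c₁).and (Filter.eventually_ge_atTop 3)).and
      ((hcast.eventually_ge_atTop G1).and ((hcast.eventually_ge_atTop (2 * G ^ 2)).and
        (htend.eventually_ge_atTop (4 * c' ^ 2))))
    obtain ⟨ν, ⟨h3, h4⟩, h5, h6, h7⟩ := h2.exists
    exact ⟨ν, h3, h4, h5, h6, h7⟩
  set U₀ : ℝ := (ν₀ : ℝ) ^ ν₀ with hU₀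
  have hU₀1 : 1 ≤ U₀ := one_le_pow₀ (by exact_mod_cast (by omega : 1 ≤ ν₀))
  have hfac : (0 : ℝ) < N * N.factorial := by
    have : (0 : ℝ) < N := by exact_mod_cast hNpos
    positivity
  refine ⟨8 * (L + 3) * (N - 1), 1 / (2 * (N * N.factorial) * U₀ ^ ((L + 3) * (N - 1))), by positivity,
    fun a hane A hA1 hAi => ?_⟩
  obtain ⟨ν, hν1, hν2, hν3⟩ := exists_nu ν₀ hν₀b A hA1
  have h := hkey a hane A hA1 hAi ν (by omega)
  set η : ℝ := |∑ i, (a i : ℝ) * ev 1 (y i)| with hη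
  have hη0 : 0 ≤ η := abs_nonneg _
  set u : ℝ := (ν : ℝ) ^ ν with hu
  have hν₀ν : (ν₀ : ℝ) ≤ ν := by exact_mod_cast hν1
  have hν1' : (1 : ℝ) ≤ ν := by exact_mod_cast (by omega : 1 ≤ ν)
  have hu1 : 1 ≤ u := one_le_pow₀ hν1'
  have hu0 : 0 < u := by linarith
  have hG1u : G1 ^ ν ≤ u := by
    rw [hu]
    exact pow_le_pow_left₀ (by positivity) (hν₀c.trans hν₀ν) ν
  have hhalf : c' * A * G ^ ν / u ≤ 1 / 2 := by
    rw [div_le_iff₀ hu0]
    have h2 : 4 * c' ^ 2 * (G ^ 2) ^ ν ≤ u := by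
      have h3 : (2 : ℝ) ^ ν * (G ^ 2) ^ ν ≤ u := by
        rw [← mul_pow, hu]
        exact pow_le_pow_left₀ (by positivity) (hν₀d.trans hν₀ν) ν
      refine le_trans ?_ h3
      refine mul_le_mul_of_nonneg_right (hν₀e.trans ?_) (by positivity)
      exact pow_le_pow_right₀ (by norm_num) hν1
    have h4 : (2 * (c' * A * G ^ ν)) ^ 2 ≤ u ^ 2 := by
      calc (2 * (c' * A * G ^ ν)) ^ 2 = A ^ 2 * (4 * c' ^ 2 * (G ^ 2) ^ ν) := by
            rw [← pow_mul, mul_comm 2 ν, pow_mul]; ring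
        _ ≤ u * u := mul_le_mul hν2 h2 (by positivity) hu0.le
        _ = u ^ 2 := by ring
    have h5 := (pow_le_pow_iff_left₀ (by positivity) hu0.le (two_ne_zero)).1 h4
    linarith
  have h6 : 1 / 2 ≤ N * (N.factorial * (G1 ^ ν * u ^ (L + 2)) ^ (N - 1) * η) := by linarith
  have h7 : (G1 ^ ν * u ^ (L + 2)) ^ (N - 1) ≤ U₀ ^ ((L + 3) * (N - 1)) * A ^ (8 * (L + 3) * (N - 1)) := by
    calc (G1 ^ ν * u ^ (L + 2)) ^ (N - 1) ≤ (u * u ^ (L + 2)) ^ (N - 1) := by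
          apply pow_le_pow_left₀ (by positivity)
          exact mul_le_mul_of_nonneg_right hG1u (by positivity)
      _ = u ^ ((L + 3) * (N - 1)) := by rw [← pow_succ', ← pow_mul]
      _ ≤ (U₀ * A ^ 8) ^ ((L + 3) * (N - 1)) := pow_le_pow_left₀ hu0.le hν3 _
      _ = _ := by rw [mul_pow, ← pow_mul A 8, ← mul_assoc 8]
  have h8 : 1 / 2 ≤ N * (N.factorial * (U₀ ^ ((L + 3) * (N - 1)) * A ^ (8 * (L + 3) * (N - 1))) * η) := by
    refine h6.trans ?_
    refine mul_le_mul_of_nonneg_left ?_ (by positivity)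
    refine mul_le_mul_of_nonneg_right ?_ hη0
    exact mul_le_mul_of_nonneg_left h7 (by positivity)
  rw [div_le_iff₀ (by positivity)]
  have h9 : N * (N.factorial * (U₀ ^ ((L + 3) * (N - 1)) * A ^ (8 * (L + 3) * (N - 1))) * η) =
      (A ^ (8 * (L + 3) * (N - 1)) * η * (2 * (N * N.factorial) * U₀ ^ ((L + 3) * (N - 1)))) / 2 := by ring
  rw [h9] at h8
  linarith

end Pool.Agent.N778.EM
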