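import Pool.Agent.N778.EM.Gen4
import Pool.Agent.R352.E.Mat

/-!
# The general theorem: the form with transcendence degrees
-/

set_option autoImplicit false

open Set

namespace Pool.Agent.N778.EM

open MvPolynomial Pool.Agent.R352.E

lemma isAlg_of_hom {R₁ R₂ : Type} [CommRing R₁] [CommRing R₂] [Algebra R₁ ℝ] [Algebra R₂ ℝ] (f : R₁ →+* R₂)
    (hf : Function.Injective f) (hc : ∀ a, algebraMap R₂ ℝ (f a) = algebraMap R₁ ℝ a) {x : ℝ}
    (hx : IsAlgebraic R₁ x) : IsAlgebraic R₂ x := by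
  obtain ⟨p, hp, hpx⟩ := hx
  refine ⟨p.map f, (Polynomial.map_ne_zero_iff hf).2 hp, ?_⟩
  rw [Polynomial.aeval_def, Polynomial.eval₂_map]
  have h1 : (algebraMap R₂ ℝ).comp f = algebraMap R₁ ℝ := RingHom.ext hc
  rw [h1]
  exact hpx

/-- elements algebraic over the field generated by the algebra `A` and the set `S` are algebraic over `A[S]` -/
lemma isAlg_closure (A : Subalgebra ℤ ℝ) (S T : Set ℝ) (hT : T ⊆ A ∪ S) {x : ℝ} (hx : x ∈ clF T) :
    IsAlgebraic (Algebra.adjoin A S) x := by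
  set R₂ : Subalgebra A ℝ := Algebra.adjoin A S with hR₂
  let C : Subalgebra R₂ ℝ := Subalgebra.algebraicClosure R₂ ℝ
  -- the closure as a subfield
  let C' : Subfield ℝ :=
    { carrier := C
      mul_mem' := fun ha hb => C.mul_mem ha hb
      one_mem' := C.one_mem
      add_mem' := fun ha hb => C.add_mem ha hb
      zero_mem' := C.zero_mem
      neg_mem' := fun ha => IsAlgebraic.neg ha
      inv_mem' := fun _ ha => IsAlgebraic.inv ha }
  have hTC : T ⊆ C' := by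
    intro y hy
    rcases hT hy with h | h
    · have h2 : y ∈ R₂ := R₂.algebraMap_mem (⟨y, h⟩ : A)
      exact (isAlgebraic_algebraMap (⟨y, h2⟩ : R₂) : IsAlgebraic R₂ (algebraMap R₂ ℝ ⟨y, h2⟩))
    · have h2 : y ∈ R₂ := Algebra.subset_adjoin h
      exact (isAlgebraic_algebraMap (⟨y, h2⟩ : R₂) : IsAlgebraic R₂ (algebraMap R₂ ℝ ⟨y, h2⟩))
  have hle : ∀ z ∈ Algebra.adjoin ℚ T, z ∈ C := by
    intro z hz
    have h1 : Algebra.adjoin ℚ T ≤ ({ C' with algebraMap_mem' := fun r => SubfieldClass.ratCast_mem C' r } : Subalgebra ℚ ℝ) :=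
      Algebra.adjoin_le hTC
    exact h1 hz
  have h1 : IsAlgebraic (Algebra.adjoin ℚ T) x := mem_cl_iff.1 hx
  let f : Algebra.adjoin ℚ T →+* C :=
    { toFun := fun z => ⟨z.1, hle z.1 z.2⟩
      map_one' := rfl
      map_mul' := fun _ _ => rfl
      map_zero' := rfl
      map_add' := fun _ _ => rfl }
  have hf : Function.Injective f := fun a b h => Subtype.ext (congrArg (fun z : C => (z : ℝ)) h)
  have h2 : IsAlgebraic C x := isAlg_of_hom (R₁ := Algebra.adjoin ℚ T) (R₂ := C) f hf (fun _ => rfl) h1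
  exact h2.restrictScalars R₂

/-- counting over a ring -/
lemma dep_of_card {A : Subalgebra ℤ ℝ} {ι₁ κ : Type} [Fintype ι₁] [Fintype κ] {w : ι₁ → ℝ} {y : κ → ℝ}
    (hcard : Fintype.card κ < Fintype.card ι₁) {T : Set ℝ} (hT : T ⊆ A ∪ range y) (hw : ∀ j, w j ∈ clF T) :
    ¬ AlgebraicIndependent A w := by
  intro hx
  set Ma : Matroid ℝ := AlgebraicIndependent.matroid A ℝ with hMa
  have h1 : Ma.Indep (range w) := hx.to_subtype_range
  have h2 : range w ⊆ Ma.closure (range y) := by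
    rintro _ ⟨i, rfl⟩
    rw [hMa, AlgebraicIndependent.matroid_closure_eq]
    exact isAlg_closure A (range y) T hT (hw i)
  have h3 : (Fintype.card ι₁ : ℕ∞) ≤ Ma.eRk (range y) := by
    calc (Fintype.card ι₁ : ℕ∞) = (range w).encard := by
          rw [← image_univ, hx.injective.injOn.encard_image, encard_univ, ENat.card_eq_coe_fintype_card]
      _ ≤ Ma.eRk (Ma.closure (range y)) := h1.encard_le_eRk_of_subset h2
      _ = Ma.eRk (range y) := Matroid.eRk_closure_eq Ma _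
  have h4 : (range y).encard ≤ Fintype.card κ := by
    rw [← image_univ, ← ENat.card_eq_coe_fintype_card, ← encard_univ]
    exact encard_image_le _ _
  have h5 : (Fintype.card ι₁ : ℕ∞) ≤ Fintype.card κ := h3.trans ((Matroid.eRk_le_encard _ _).trans h4)
  have h6 : Fintype.card ι₁ ≤ Fintype.card κ := by exact_mod_cast h5
  omega

/-- the relation -/
lemma exists_rel {ι₀ ι₁ ν κ : Type} [Fintype ι₁] [Fintype κ] (θ₀ : ι₀ → ℝ) (w : ι₁ → ℝ) (u : ν → ℝ)
    (y : κ → ℝ) (hcard : Fintype.card κ < Fintype.card ι₁)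
    (hw : ∀ j, w j ∈ clF (range θ₀ ∪ range u ∪ range y)) :
    ∃ F : MvPolynomial ι₁ (MvPolynomial (ι₀ ⊕ ν) ℤ), Fv θ₀ u F w = 0 ∧ ∃ w' : ι₁ → ℝ, Fv θ₀ u F w' ≠ 0 := by
  classical
  set φ : MvPolynomial (ι₀ ⊕ ν) ℤ →ₐ[ℤ] ℝ := aeval (Sum.elim θ₀ u) with hφ
  set A : Subalgebra ℤ ℝ := φ.range with hA
  have h1 : ¬ AlgebraicIndependent A w := by
    refine dep_of_card (y := y) hcard (T := range θ₀ ∪ range u ∪ range y) ?_ hw
    rintro x ((⟨i, rfl⟩ | ⟨i, rfl⟩) | hx)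
    · exact Or.inl ⟨X (Sum.inl i), by simp [hφ]⟩
    · exact Or.inl ⟨X (Sum.inr i), by simp [hφ]⟩
    · exact Or.inr hx
  rw [algebraicIndependent_iff] at h1
  push Not at h1
  obtain ⟨p, hp, hp0⟩ := h1
  obtain ⟨F, hF⟩ := MvPolynomial.map_surjective (σ := ι₁) (φ.rangeRestrict : MvPolynomial (ι₀ ⊕ ν) ℤ →+* A)
    φ.rangeRestrict_surjective p
  have h2 : ∀ w' : ι₁ → ℝ, Fv θ₀ u F w' = aeval w' p := by
    intro w'
    rw [← hF, MvPolynomial.aeval_def, MvPolynomial.eval₂_map, MvPolynomial.eval₂_eq', Fv]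
    rfl
  refine ⟨F, by rw [h2]; exact hp, ?_⟩
  by_contra hcon
  push Not at hcon
  apply hp0
  have h3 : p.map (algebraMap A ℝ) = 0 := by
    refine MvPolynomial.funext fun w' => ?_
    rw [map_zero, MvPolynomial.eval_map, ← MvPolynomial.aeval_def, ← h2, hcon]
  have hinj : Function.Injective (algebraMap A ℝ) := Subtype.val_injective
  exact MvPolynomial.map_injective _ hinj (by rw [h3, map_zero])

/-- **The general theorem**, in the form with transcendence degrees: `w` consists of more numbers than `y` and these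
numbers are algebraic over the field generated by `θ₀`, `u` and `y`. -/
theorem quant {ι₀ ι₁ ν κ : Type} [Fintype ι₀] [Fintype ι₁] [Fintype ν] [Fintype κ] (θ₀ : ι₀ → ℝ) (w : ι₁ → ℝ)
    (hθ : MeasF (Sum.elim θ₀ w)) (u : ν → ℝ) (y : κ → ℝ) (hcard : Fintype.card κ < Fintype.card ι₁)
    (hw : ∀ j, w j ∈ clF (range θ₀ ∪ range u ∪ range y)) (D : ℕ) :
    ∃ κ : ℕ, ∃ c : ℝ, 0 < c ∧ ∀ P : ν → Polynomial (MvPolynomial ι₀ ℤ), (∀ i, P i ≠ 0) →
      (∀ i, (P i).natDegree ≤ D) → (∀ i j, ((P i).coeff j).totalDegree ≤ D) → ∀ H : ℝ, 1 ≤ H →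
      (∀ i j s, |((((P i).coeff j).coeff s : ℤ) : ℝ)| ≤ H) → c ≤ H ^ κ * ∑ i, |ev2 θ₀ (u i) (P i)| := by
  obtain ⟨F, hF0, w', hF1⟩ := exists_rel θ₀ w u y hcard hw
  exact gen_all θ₀ w hθ u F hF0 w' hF1 D

end Pool.Agent.N778.EM
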