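import Mathlib

/-!
# Families of integer polynomials of bounded degree and polynomially bounded coefficients
-/

set_option autoImplicit false

open Finset

namespace Pool.Agent.N778.EM

open MvPolynomial

section len

variable {ι : Type}

/-- the length of a polynomial -/
noncomputable def len (F : MvPolynomial ι ℤ) : ℝ := ∑ s ∈ F.support, |((F.coeff s : ℤ) : ℝ)|

lemma len_nonneg (F : MvPolynomial ι ℤ) : 0 ≤ len F := Finset.sum_nonneg fun _ _ => abs_nonneg _

lemma len_eq {F : MvPolynomial ι ℤ} {t : Finset (ι →₀ ℕ)} (h : F.support ⊆ t) :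
    len F = ∑ s ∈ t, |((F.coeff s : ℤ) : ℝ)| := by
  refine Finset.sum_subset h fun s _ hs => ?_
  rw [MvPolynomial.notMem_support_iff.1 hs]
  simp

lemma coeff_le_len (F : MvPolynomial ι ℤ) (s : ι →₀ ℕ) : |((F.coeff s : ℤ) : ℝ)| ≤ len F := by
  by_cases hs : s ∈ F.support
  · exact Finset.single_le_sum (f := fun s => |((F.coeff s : ℤ) : ℝ)|) (fun _ _ => abs_nonneg _) hs
  · rw [MvPolynomial.notMem_support_iff.1 hs]
    simpa using len_nonneg F

lemma len_zero : len (0 : MvPolynomial ι ℤ) = 0 := by simp [len]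

lemma len_add (F G : MvPolynomial ι ℤ) : len (F + G) ≤ len F + len G := by
  classical
  rw [len_eq (t := F.support ∪ G.support) MvPolynomial.support_add,
    len_eq (F := F) (t := F.support ∪ G.support) Finset.subset_union_left,
    len_eq (F := G) (t := F.support ∪ G.support) Finset.subset_union_right, ← Finset.sum_add_distrib]
  refine Finset.sum_le_sum fun s _ => ?_
  rw [MvPolynomial.coeff_add]
  push_cast
  exact abs_add_le _ _

lemma len_sum {κ : Type*} (t : Finset κ) (F : κ → MvPolynomial ι ℤ) : len (∑ i ∈ t, F i) ≤ ∑ i ∈ t, len (F i) := by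
  classical
  induction t using Finset.induction_on with
  | empty => simp [len_zero]
  | insert a t ha ih =>
    rw [Finset.sum_insert ha, Finset.sum_insert ha]
    exact (len_add _ _).trans (add_le_add le_rfl ih)

lemma len_monomial (s : ι →₀ ℕ) (a : ℤ) : len (MvPolynomial.monomial s a) = |(a : ℝ)| := by
  classical
  rw [len_eq (t := {s}) MvPolynomial.support_monomial_subset, Finset.sum_singleton, MvPolynomial.coeff_monomial,
    if_pos rfl]

lemma len_neg (F : MvPolynomial ι ℤ) : len (-F) = len F := by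
  rw [len, len, MvPolynomial.support_neg]
  refine Finset.sum_congr rfl fun s _ => ?_
  rw [MvPolynomial.coeff_neg]
  push_cast
  exact abs_neg _

lemma len_mul (F G : MvPolynomial ι ℤ) : len (F * G) ≤ len F * len G := by
  classical
  have h1 : F * G = ∑ s ∈ F.support, ∑ t ∈ G.support, MvPolynomial.monomial (s + t) (F.coeff s * G.coeff t) := by
    conv_lhs => rw [MvPolynomial.as_sum F, MvPolynomial.as_sum G, Finset.sum_mul_sum]
    refine Finset.sum_congr rfl fun s _ => Finset.sum_congr rfl fun t _ => ?_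
    rw [MvPolynomial.monomial_mul]
  rw [h1]
  refine (len_sum _ _).trans ?_
  rw [len, len, Finset.sum_mul_sum]
  refine Finset.sum_le_sum fun s _ => (len_sum _ _).trans (Finset.sum_le_sum fun t _ => ?_)
  rw [len_monomial]
  push_cast
  rw [abs_mul]

lemma len_C (a : ℤ) : len (MvPolynomial.C a : MvPolynomial ι ℤ) = |(a : ℝ)| := len_monomial 0 a

lemma len_one : len (1 : MvPolynomial ι ℤ) = 1 := by
  have := len_C (ι := ι) 1
  simpa using this

lemma len_X (i : ι) : len (MvPolynomial.X i : MvPolynomial ι ℤ) = 1 := by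
  rw [MvPolynomial.X, len_monomial]; simp

lemma abs_aeval_le (θ : ι → ℝ) (B : ℝ) (hB : 1 ≤ B) (hθ : ∀ i, |θ i| ≤ B) (F : MvPolynomial ι ℤ) (D : ℕ)
    (hD : F.totalDegree ≤ D) : |aeval θ F| ≤ len F * B ^ D := by
  conv_lhs => rw [MvPolynomial.as_sum F, map_sum]
  refine (Finset.abs_sum_le_sum_abs _ _).trans ?_
  rw [len, Finset.sum_mul]
  refine Finset.sum_le_sum fun s hs => ?_
  rw [MvPolynomial.aeval_monomial, abs_mul]
  have h1 : |(algebraMap ℤ ℝ) (F.coeff s)| = |((F.coeff s : ℤ) : ℝ)| := by simp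
  rw [h1]
  refine mul_le_mul_of_nonneg_left ?_ (abs_nonneg _)
  rw [Finsupp.prod, Finset.abs_prod]
  calc ∏ i ∈ s.support, |θ i ^ s i| ≤ ∏ i ∈ s.support, B ^ s i := by
        refine Finset.prod_le_prod (fun _ _ => abs_nonneg _) fun i _ => ?_
        rw [abs_pow]
        exact pow_le_pow_left₀ (abs_nonneg _) (hθ i) _
    _ = B ^ (∑ i ∈ s.support, s i) := Finset.prod_pow_eq_pow_sum _ _ _
    _ ≤ B ^ D := pow_le_pow_right₀ hB ((MvPolynomial.le_totalDegree hs).trans hD)

/-- the number of monomials of bounded degree -/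
lemma len_le_of_coeff [Finite ι] (D : ℕ) : ∃ N : ℝ, 1 ≤ N ∧ ∀ F : MvPolynomial ι ℤ, F.totalDegree ≤ D → ∀ H : ℝ,
    (∀ s, |((F.coeff s : ℤ) : ℝ)| ≤ H) → len F ≤ N * H := by
  classical
  cases nonempty_fintype ι
  have hfin : {s : ι →₀ ℕ | ∑ i, s i ≤ D}.Finite := by
    apply (Set.finite_Iic (Finsupp.equivFunOnFinite.symm (fun _ => D) : ι →₀ ℕ)).subset
    intro s hs i
    rw [Finsupp.equivFunOnFinite_symm_apply_apply]
    exact (Finset.single_le_sum (f := fun v => s v) (fun _ _ => Nat.zero_le _) (Finset.mem_univ i)).trans hs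
  refine ⟨1 + (hfin.toFinset.card : ℝ), by
    have : (0 : ℝ) ≤ hfin.toFinset.card := Nat.cast_nonneg _
    linarith, fun F hF H hH => ?_⟩
  have hH0 : 0 ≤ H := (abs_nonneg _).trans (hH 0)
  have hsub : F.support ⊆ hfin.toFinset := by
    intro s hs
    rw [Set.Finite.mem_toFinset]
    have h2 := MvPolynomial.le_totalDegree hs
    rw [Finsupp.sum_fintype _ _ (fun _ => rfl)] at h2
    exact h2.trans hF
  rw [len_eq hsub]
  calc ∑ s ∈ hfin.toFinset, |((F.coeff s : ℤ) : ℝ)| ≤ ∑ _s ∈ hfin.toFinset, H := Finset.sum_le_sum fun s _ => hH s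
    _ = hfin.toFinset.card * H := by rw [Finset.sum_const, nsmul_eq_mul]
    _ ≤ _ := by nlinarith

end len

section tame

variable {Λ : Type} (H : Λ → ℝ)

/-- a family of real numbers which is polynomially bounded -/
def TR (x : Λ → ℝ) : Prop := ∃ κ : ℕ, ∃ C : ℝ, 0 ≤ C ∧ ∀ l, |x l| ≤ C * H l ^ κ

/-- a family of polynomials of bounded degree and polynomially bounded length -/
def TP {ι : Type} (F : Λ → MvPolynomial ι ℤ) : Prop :=
  (∃ D : ℕ, ∀ l, (F l).totalDegree ≤ D) ∧ TR H fun l => len (F l)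

variable {H}

lemma TR.mono {x y : Λ → ℝ} (hx : TR H x) (h : ∀ l, |y l| ≤ |x l|) : TR H y := by
  obtain ⟨κ, C, hC, h1⟩ := hx
  exact ⟨κ, C, hC, fun l => (h l).trans (h1 l)⟩

lemma TR.const (a : ℝ) : TR H fun _ => a := ⟨0, |a|, abs_nonneg _, fun l => by simp⟩

variable (hH : ∀ l, 1 ≤ H l)

include hH

lemma TR.add {x y : Λ → ℝ} (hx : TR H x) (hy : TR H y) : TR H fun l => x l + y l := by
  obtain ⟨κ, C, hC, h1⟩ := hx
  obtain ⟨κ', C', hC', h2⟩ := hy
  refine ⟨max κ κ', C + C', by positivity, fun l => (abs_add_le _ _).trans ?_⟩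
  have h3 : H l ^ κ ≤ H l ^ max κ κ' := pow_le_pow_right₀ (hH l) (le_max_left _ _)
  have h4 : H l ^ κ' ≤ H l ^ max κ κ' := pow_le_pow_right₀ (hH l) (le_max_right _ _)
  rw [add_mul]
  exact add_le_add ((h1 l).trans (mul_le_mul_of_nonneg_left h3 hC)) ((h2 l).trans (mul_le_mul_of_nonneg_left h4 hC'))

omit hH in
lemma TR.mul {x y : Λ → ℝ} (hx : TR H x) (hy : TR H y) : TR H fun l => x l * y l := by
  obtain ⟨κ, C, hC, h1⟩ := hx
  obtain ⟨κ', C', hC', h2⟩ := hy
  refine ⟨κ + κ', C * C', by positivity, fun l => ?_⟩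
  rw [abs_mul]
  calc |x l| * |y l| ≤ (C * H l ^ κ) * (C' * H l ^ κ') :=
        mul_le_mul (h1 l) (h2 l) (abs_nonneg _) ((abs_nonneg _).trans (h1 l))
    _ = _ := by rw [pow_add]; ring

lemma TR.sum {κ : Type*} (t : Finset κ) (x : κ → Λ → ℝ) (hx : ∀ i ∈ t, TR H (x i)) :
    TR H fun l => ∑ i ∈ t, x i l := by
  classical
  induction t using Finset.induction_on with
  | empty => simpa using TR.const (H := H) 0
  | insert a t ha ih =>
    simp only [Finset.sum_insert ha]
    exact TR.add hH (hx a (Finset.mem_insert_self _ _)) (ih fun i hi => hx i (Finset.mem_insert_of_mem hi))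

omit hH in
lemma TR.prod {κ : Type*} (t : Finset κ) (x : κ → Λ → ℝ) (hx : ∀ i ∈ t, TR H (x i)) :
    TR H fun l => ∏ i ∈ t, x i l := by
  classical
  induction t using Finset.induction_on with
  | empty => simpa using TR.const (H := H) 1
  | insert a t ha ih =>
    simp only [Finset.prod_insert ha]
    exact TR.mul (hx a (Finset.mem_insert_self _ _)) (ih fun i hi => hx i (Finset.mem_insert_of_mem hi))

omit hH in
lemma TR.pow {x : Λ → ℝ} (hx : TR H x) (n : ℕ) : TR H fun l => x l ^ n := by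
  have := TR.prod (H := H) (Finset.range n) (fun _ => x) (fun _ _ => hx)
  simpa using this

section poly
variable {ι : Type}

omit hH in
lemma TP.const (F : MvPolynomial ι ℤ) : TP H fun _ => F := ⟨⟨_, fun _ => le_rfl⟩, TR.const _⟩

lemma TP.add {F G : Λ → MvPolynomial ι ℤ} (hF : TP H F) (hG : TP H G) : TP H fun l => F l + G l := by
  obtain ⟨⟨D, hD⟩, h1⟩ := hF
  obtain ⟨⟨D', hD'⟩, h2⟩ := hG
  refine ⟨⟨max D D', fun l => (MvPolynomial.totalDegree_add _ _).trans (max_le_max (hD l) (hD' l))⟩, ?_⟩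
  refine (TR.add hH h1 h2).mono fun l => ?_
  rw [abs_of_nonneg (len_nonneg _), abs_of_nonneg (add_nonneg (len_nonneg _) (len_nonneg _))]
  exact len_add _ _

omit hH in
lemma TP.neg {F : Λ → MvPolynomial ι ℤ} (hF : TP H F) : TP H fun l => -F l := by
  obtain ⟨⟨D, hD⟩, h1⟩ := hF
  refine ⟨⟨D, fun l => by rw [MvPolynomial.totalDegree_neg]; exact hD l⟩, ?_⟩
  simpa only [len_neg] using h1

omit hH in
lemma TP.mul {F G : Λ → MvPolynomial ι ℤ} (hF : TP H F) (hG : TP H G) : TP H fun l => F l * G l := by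
  obtain ⟨⟨D, hD⟩, h1⟩ := hF
  obtain ⟨⟨D', hD'⟩, h2⟩ := hG
  refine ⟨⟨D + D', fun l => (MvPolynomial.totalDegree_mul _ _).trans (add_le_add (hD l) (hD' l))⟩, ?_⟩
  refine (TR.mul h1 h2).mono fun l => ?_
  rw [abs_of_nonneg (len_nonneg _), abs_of_nonneg (mul_nonneg (len_nonneg _) (len_nonneg _))]
  exact len_mul _ _

lemma TP.sum {κ : Type*} (t : Finset κ) (F : κ → Λ → MvPolynomial ι ℤ) (hF : ∀ i ∈ t, TP H (F i)) :
    TP H fun l => ∑ i ∈ t, F i l := by
  classical
  induction t using Finset.induction_on with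
  | empty => simpa using TP.const (H := H) (0 : MvPolynomial ι ℤ)
  | insert a t ha ih =>
    simp only [Finset.sum_insert ha]
    exact TP.add hH (hF a (Finset.mem_insert_self _ _)) (ih fun i hi => hF i (Finset.mem_insert_of_mem hi))

omit hH in
lemma TP.prod {κ : Type*} (t : Finset κ) (F : κ → Λ → MvPolynomial ι ℤ) (hF : ∀ i ∈ t, TP H (F i)) :
    TP H fun l => ∏ i ∈ t, F i l := by
  classical
  induction t using Finset.induction_on with
  | empty => simpa using TP.const (H := H) (1 : MvPolynomial ι ℤ)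
  | insert a t ha ih =>
    simp only [Finset.prod_insert ha]
    exact TP.mul (hF a (Finset.mem_insert_self _ _)) (ih fun i hi => hF i (Finset.mem_insert_of_mem hi))

omit hH in
lemma TP.pow {F : Λ → MvPolynomial ι ℤ} (hF : TP H F) (n : ℕ) : TP H fun l => F l ^ n := by
  have := TP.prod (H := H) (Finset.range n) (fun _ => F) (fun _ _ => hF)
  simpa using this

omit hH in
lemma TP.eval {F : Λ → MvPolynomial ι ℤ} (hF : TP H F) [Finite ι] (θ : ι → ℝ) : TR H fun l => aeval θ (F l) := by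
  cases nonempty_fintype ι
  obtain ⟨⟨D, hD⟩, h1⟩ := hF
  have hB1 : (1 : ℝ) ≤ 1 + ∑ i, |θ i| := by
    have : (0 : ℝ) ≤ ∑ i, |θ i| := Finset.sum_nonneg fun _ _ => abs_nonneg _
    linarith
  have hB : ∀ i, |θ i| ≤ 1 + ∑ i, |θ i| := fun i => by
    have := Finset.single_le_sum (f := fun i => |θ i|) (fun _ _ => abs_nonneg _) (Finset.mem_univ i)
    linarith
  refine (TR.mul h1 (TR.const ((1 + ∑ i, |θ i|) ^ D))).mono fun l => ?_
  have h2 := abs_aeval_le θ _ hB1 hB (F l) D (hD l)
  exact h2.trans (le_abs_self _)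

lemma TP.det {n : Type} [Fintype n] [DecidableEq n] (M : Λ → Matrix n n (MvPolynomial ι ℤ))
    (h : ∀ i j, TP H fun l => M l i j) : TP H fun l => (M l).det := by
  simp only [Matrix.det_apply']
  refine TP.sum hH _ _ fun σ _ => ?_
  refine TP.mul ?_ (TP.prod _ _ fun i _ => h _ _)
  exact TP.const _

omit hH in
/-- renaming of the variables -/
lemma TP.rename {κ : Type} {F : Λ → MvPolynomial ι ℤ} (hF : TP H F) (g : ι → κ) :
    TP H fun l => MvPolynomial.rename g (F l) := by
  obtain ⟨⟨D, hD⟩, h1⟩ := hF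
  refine ⟨⟨D, fun l => (MvPolynomial.totalDegree_rename_le _ _).trans (hD l)⟩, h1.mono fun l => ?_⟩
  rw [abs_of_nonneg (len_nonneg _), abs_of_nonneg (len_nonneg _)]
  have h2 : MvPolynomial.rename g (F l) =
      ∑ s ∈ (F l).support, MvPolynomial.rename g (MvPolynomial.monomial s ((F l).coeff s)) := by
    conv_lhs => rw [MvPolynomial.as_sum (F l), map_sum]
  change len (MvPolynomial.rename g (F l)) ≤ len (F l)
  rw [h2]
  refine (len_sum _ _).trans (le_of_eq ?_)
  rw [len]
  refine Finset.sum_congr rfl fun s _ => ?_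
  rw [MvPolynomial.rename_monomial, len_monomial]

end poly

end tame

end Pool.Agent.N778.EM
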